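import Pool.Agent.H81.XF.Stm2

/-!
# A uniform time, independent of everything
-/

set_option autoImplicit false

namespace Pool.XF

open Finset Real
open Pool.Agent.H49.Ent Pool.Agent.H32.Dense Pool.STK Pool.KA Pool.KSAT Pool.K2S Pool.PC

variable {Ω S T : Type} [Fintype Ω] {p : Ω → ℝ}

theorem uni_law (hp : IsLaw p) (N : ℕ) : IsLaw (uni N p) := by
  refine ⟨fun u => div_nonneg (hp.nonneg _) (by positivity), ?_⟩
  unfold uni
  rw [Fintype.sum_prod_type]
  have : ∀ ω, ∑ _i : Fin (2 ^ N), p ω / 2 ^ N = p ω := by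
    intro ω
    rw [Finset.sum_const, Finset.card_univ, Fintype.card_fin, nsmul_eq_mul]
    push_cast
    field_simp
  rw [Finset.sum_congr rfl fun ω _ => this ω]
  exact hp.sum_one

omit [Fintype Ω] in
theorem uni_pos (N : ℕ) {u : Ω × Fin (2 ^ N)} (h : 0 < uni N p u) : 0 < p u.1 := by
  unfold uni at h
  have h2 : (0 : ℝ) < 2 ^ N := by positivity
  by_contra h0
  exact absurd h (not_lt.mpr (div_nonpos_of_nonpos_of_nonneg (not_lt.mp h0) h2.le))

theorem uni_marg (N : ℕ) : Marg (uni N p) p (fun u => u.1) := by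
  classical
  intro ω
  unfold uni
  rw [Fintype.sum_prod_type]
  have e : ∀ ω', ∑ _i : Fin (2 ^ N), (if ω' = ω then p ω' / 2 ^ N else 0) =
      if ω' = ω then p ω' else 0 := by
    intro ω'
    rw [Finset.sum_const, Finset.card_univ, Fintype.card_fin, nsmul_eq_mul]
    split_ifs
    · push_cast
      field_simp
    · simp
  refine (Finset.sum_congr rfl fun ω' _ => ?_).trans ((Finset.sum_congr rfl fun ω' _ =>
    e ω').trans (by simp))
  refine Finset.sum_congr rfl fun i _ => ?_
  congr

theorem law_uni (N : ℕ) (f : Ω → S) (i : Fin (2 ^ N)) (s : S) :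
    law (uni N p) (fun u => (u.2, f u.1)) (i, s) = law p f s / 2 ^ N := by
  classical
  unfold law uni
  rw [Fintype.sum_prod_type, Finset.sum_div]
  refine Finset.sum_congr rfl fun ω _ => ?_
  rw [Finset.sum_eq_single i]
  · simp only [Prod.mk.injEq, true_and]
    split_ifs <;> simp
  · intro j _ hj
    simp [hj]
  · intro h
    exact absurd (Finset.mem_univ _) h

theorem H_uni (hp : IsLaw p) (N : ℕ) (f : Ω → S) :
    H (uni N p) (fun u => (u.2, f u.1)) = H p f + N * Real.log 2 := by
  unfold H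
  have e : ∀ u : Ω × Fin (2 ^ N), uni N p u * Real.log (law (uni N p) (fun u => (u.2, f u.1))
      (u.2, f u.1)) = p u.1 * (Real.log (law p f (f u.1)) - N * Real.log 2) / 2 ^ N := by
    intro u
    rw [law_uni]
    unfold uni
    rcases (hp.nonneg u.1).eq_or_lt with h | h
    · rw [← h]
      simp
    · have h1 : 0 < law p f (f u.1) := law_pos hp.nonneg f h
      rw [Real.log_div h1.ne' (by positivity), Real.log_pow]
      ring
  rw [Finset.sum_congr rfl fun u _ => e u, Fintype.sum_prod_type]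
  have e2 : ∀ ω, ∑ _i : Fin (2 ^ N), p ω * (Real.log (law p f (f ω)) - N * Real.log 2) / 2 ^ N =
      p ω * Real.log (law p f (f ω)) - p ω * (N * Real.log 2) := by
    intro ω
    rw [Finset.sum_const, Finset.card_univ, Fintype.card_fin, nsmul_eq_mul]
    push_cast
    field_simp
  rw [Finset.sum_congr rfl fun ω _ => e2 ω, Finset.sum_sub_distrib, ← Finset.sum_mul, hp.sum_one]
  ring

theorem CH_uni (hp : IsLaw p) (N : ℕ) (X : Ω → S) (W : Ω → T) :
    CH (uni N p) (fun u => X u.1) (fun u => (u.2, W u.1)) = CH p X W := by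
  have hq := (uni_law hp N).nonneg
  unfold CH
  have h1 : H (uni N p) (fun u => (X u.1, (u.2, W u.1))) =
      H (uni N p) (fun u => (u.2, (X u.1, W u.1))) := by
    refine H_congr hq ?_ ?_ <;>
    · intro u u' _ _ h
      simp only [Prod.mk.injEq] at h ⊢
      tauto
  rw [h1, H_uni hp N (fun ω => (X ω, W ω)), H_uni hp N W]
  ring

open Classical in
theorem Pe_dbl_uni (_hp : IsLaw p) (N : ℕ) (l : Ω → S) (A : Ω × Ω → Prop) :
    Pe (dbl (uni N p) (fun u => (u.2, l u.1))) (fun v => A (v.1.1, v.2.1)) = Pe (dbl p l) A := by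
  rw [Pe_eq, Pe_eq, Fintype.sum_prod_type, Fintype.sum_prod_type, Fintype.sum_prod_type]
  refine Finset.sum_congr rfl fun ω _ => ?_
  have e : ∀ (i : Fin (2 ^ N)) (v : Ω × Fin (2 ^ N)), (if A (ω, v.1) then
      dbl (uni N p) (fun u => (u.2, l u.1)) ((ω, i), v) else 0) =
      if i = v.2 then (if A (ω, v.1) then dbl p l (ω, v.1) else 0) / 2 ^ N else 0 := by
    intro i v
    unfold dbl glue
    dsimp only
    rw [law_uni]
    unfold uni
    dsimp only
    by_cases h1 : A (ω, v.1)
    · rw [if_pos h1, if_pos h1]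
      by_cases h2 : i = v.2
      · by_cases h3 : l ω = l v.1
        · rw [if_pos (Prod.ext h2 h3), if_pos h2, if_pos h3]
          rcases eq_or_ne (law p l (l ω)) 0 with h4 | h4
          · rw [h4]
            simp
          · field_simp
        · rw [if_neg (fun h => h3 (Prod.ext_iff.mp h).2), if_pos h2, if_neg h3]
          simp
      · rw [if_neg (fun h => h2 (Prod.ext_iff.mp h).1), if_neg h2]
    · rw [if_neg h1, if_neg h1]
      simp
  rw [Finset.sum_congr rfl fun i _ => Finset.sum_congr rfl fun v _ => e i v]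
  have e2 : ∀ i : Fin (2 ^ N), ∑ v : Ω × Fin (2 ^ N), (if i = v.2 then
      (if A (ω, v.1) then dbl p l (ω, v.1) else 0) / 2 ^ N else 0) =
      (∑ ω', if A (ω, ω') then dbl p l (ω, ω') else 0) / 2 ^ N := by
    intro i
    rw [Fintype.sum_prod_type, Finset.sum_div]
    refine Finset.sum_congr rfl fun ω' _ => ?_
    rw [Finset.sum_ite_eq]
    simp
  rw [Finset.sum_congr rfl fun i _ => e2 i, Finset.sum_const, Finset.card_univ, Fintype.card_fin,
    nsmul_eq_mul]
  push_cast
  field_simp

end Pool.XF
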