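import Pool.Agent.H81.XF.Kak2
import Pool.Agent.H81.XF.Uni

/-!
# Phase 1: the information of a plank about the line

The position at a uniform time is full in the box; given the position, the line is treated by the
bilinear Kakeya theorem.
-/

set_option autoImplicit false

namespace Pool.XF

open Finset Real
open Pool.Agent.H49.Ent Pool.Agent.H32.Dense Pool.STK Pool.KA Pool.KSAT Pool.K2S Pool.PC

theorem upos_diff {Ω : Type} {N : ℕ} {Y : Ω → Fin 2 → Fin 3 → ℝ} {u u' : Ω × Fin (2 ^ N)}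
    (hi : u.2 = u'.2) (j : Fin 3) {c : ℝ}
    (h : |(Y u.1 0 j - Y u'.1 0 j) + ((u.2 : ℕ) : ℝ) / 2 ^ N * (Y u.1 1 j - Y u'.1 1 j)| ≤
      c / 2 ^ N) : |((upos N Y u j - upos N Y u' j : ℤ) : ℝ)| ≤ c + 1 := by
  unfold upos
  refine floor_close ?_
  rw [← hi]
  refine le_trans (le_of_eq ?_) h
  congr 1
  ring

theorem fin_frac (N : ℕ) (i : Fin (2 ^ N)) : 0 ≤ ((i : ℕ) : ℝ) / 2 ^ N ∧
    ((i : ℕ) : ℝ) / 2 ^ N ≤ 1 := by
  have h2 : (0 : ℝ) < 2 ^ N := by positivity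
  refine ⟨by positivity, ?_⟩
  rw [div_le_one h2]
  have := i.2
  exact_mod_cast this.le

/-- The position at a uniform time has only one unknown coordinate in a plank. -/
theorem upos_plank {C₁ : ℝ} (hC₁ : 1 ≤ C₁) {Ω T U : Type} [Fintype Ω] {p : Ω → ℝ}
    (hp : IsLaw p) (b : Ω → T) (B : Ω → U) (Y : Ω → Fin 2 → Fin 3 → ℝ) (E : Ω → Fin 3 → ℝ)
    (N : ℕ)
    (hb1 : ∀ ω ω', 0 < p ω → 0 < p ω' → b ω = b ω' → ∀ a j, |Y ω a j - Y ω' a j| ≤ 1)
    (hpl : ∀ ω ω', 0 < p ω → 0 < p ω' → b ω = b ω' → B ω = B ω' → ∀ r : ℝ,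
        (∀ a j, |Y ω a j - Y ω' a j| ≤ r) → ∀ a, ∃ t : ℝ, |t| ≤ C₁ * r ∧
          ∀ j, |Y ω a j - Y ω' a j - t * E ω j| ≤ C₁ / 2 ^ N) :
    CH (uni N p) (upos N Y) (fun u => (u.2, (B u.1, b u.1))) ≤
      N * Real.log 2 + (Real.log 3 + Real.log 7 + 3 * Real.log (8 * C₁ + 5)) := by
  have hq := uni_law hp N
  have hq0 := hq.nonneg
  have hex : ∀ ω : Ω, ∃ κ : Fin 3, ∀ j, |E ω j| ≤ |E ω κ| := by
    intro ω
    obtain ⟨κ, -, hκ⟩ := Finset.exists_max_image Finset.univ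
      (fun j : Fin 3 => |E ω j|) ⟨0, Finset.mem_univ _⟩
    exact ⟨κ, fun j => hκ j (Finset.mem_univ _)⟩
  choose κ hκ using hex
  have h2N : (0 : ℝ) < 2 ^ N := by positivity
  obtain ⟨W, hW⟩ : ∃ W : Ω × Fin (2 ^ N) → Fin (2 ^ N) × (U × T),
    W = fun u => (u.2, (B u.1, b u.1)) := ⟨_, rfl⟩
  rw [← hW]
  obtain ⟨ζ, hζ⟩ : ∃ ζ : Ω × Fin (2 ^ N) → ℤ, ζ = fun u => upos N Y u (κ u.1) := ⟨_, rfl⟩
  have hWe : ∀ u u', W u = W u' → u.2 = u'.2 ∧ B u.1 = B u'.1 ∧ b u.1 = b u'.1 := by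
    intro u u' h
    rw [hW] at h
    simp only [Prod.mk.injEq] at h
    exact h
  have a1 : CH (uni N p) (fun u => κ u.1) W ≤ Real.log 3 := by
    have h3 := CH_le_card hq0 hq.sum_one (fun u : Ω × Fin (2 ^ N) => κ u.1) W
      (fun _ => Finset.univ) (fun ω _ => Finset.mem_univ _)
    refine h3.trans ?_
    rw [Ex_const hq.sum_one]
    simp
  have a2 : CH (uni N p) ζ (fun u => (κ u.1, W u)) ≤ N * Real.log 2 + Real.log 7 := by
    have h := CH_bd1 hq ζ (fun u => (κ u.1, W u)) (2 * 2 ^ N + 1) ?_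
    · refine h.trans ?_
      have h1 : 2 * (2 * 2 ^ N + 1) + 1 ≤ (2 : ℝ) ^ N * 7 := by
        have : (1 : ℝ) ≤ 2 ^ N := one_le_pow₀ (by norm_num)
        linarith
      refine (Real.log_le_log (by positivity) h1).trans ?_
      rw [Real.log_mul (by positivity) (by positivity), Real.log_pow]
    · intro u u' hu hu' h
      simp only [Prod.mk.injEq] at h
      obtain ⟨hk, hW'⟩ := h
      obtain ⟨hi, hB, hb⟩ := hWe u u' hW'
      rw [hζ]
      dsimp only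
      rw [← hk]
      refine upos_diff hi (κ u.1) ?_
      rw [mul_div_cancel_right₀ _ h2N.ne']
      have g := hb1 _ _ (uni_pos N hu) (uni_pos N hu') hb
      obtain ⟨f1, f2⟩ := fin_frac N u.2
      refine (abs_add_le _ _).trans ?_
      have g1 := g 0 (κ u.1)
      have g2 := g 1 (κ u.1)
      have g3 : |((u.2 : ℕ) : ℝ) / 2 ^ N * (Y u.1 1 (κ u.1) - Y u'.1 1 (κ u.1))| ≤ 1 * 1 :=
        abs_mul_le (by rw [abs_of_nonneg f1]; exact f2) g2
      linarith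
  have a3 : CH (uni N p) (upos N Y) (fun u => (ζ u, (κ u.1, W u))) ≤
      3 * Real.log (8 * C₁ + 5) := by
    have h := CH_bI hq (upos N Y) (fun u => (ζ u, (κ u.1, W u))) ((1 + 4 * C₁) + 1)
      (by linarith) ?_
    · rw [Fintype.card_fin] at h
      have e : 2 * ((1 + 4 * C₁) + 1) + 1 = 8 * C₁ + 5 := by ring
      rw [e] at h
      push_cast at h
      exact h
    · intro u u' hu hu' h j
      simp only [Prod.mk.injEq] at h
      obtain ⟨hz, hk, hW'⟩ := h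
      obtain ⟨hi, hB, hb⟩ := hWe u u' hW'
      refine upos_diff hi j ?_
      obtain ⟨f1, f2⟩ := fin_frac N u.2
      obtain ⟨θ, hθ⟩ : ∃ θ : ℝ, θ = ((u.2 : ℕ) : ℝ) / 2 ^ N := ⟨_, rfl⟩
      rw [← hθ] at f1 f2 ⊢
      have g := hb1 _ _ (uni_pos N hu) (uni_pos N hu') hb
      have gp := hpl _ _ (uni_pos N hu) (uni_pos N hu') hb hB 1 g
      obtain ⟨t0, -, ht0⟩ := gp 0
      obtain ⟨t1, -, ht1⟩ := gp 1
      obtain ⟨ρ, hρ⟩ : ∃ ρ : Fin 3 → ℝ, ρ = fun j => ((Y u.1 0 j - Y u'.1 0 j) +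
        θ * (Y u.1 1 j - Y u'.1 1 j)) - (t0 + θ * t1) * E u.1 j := ⟨_, rfl⟩
      have hρb : ∀ j, |ρ j| ≤ 2 * C₁ / 2 ^ N := by
        intro j
        have e : ρ j = (Y u.1 0 j - Y u'.1 0 j - t0 * E u.1 j) +
            θ * (Y u.1 1 j - Y u'.1 1 j - t1 * E u.1 j) := by
          rw [hρ]
          ring
        rw [e]
        refine (abs_add_le _ _).trans ?_
        have g1 : |θ * (Y u.1 1 j - Y u'.1 1 j - t1 * E u.1 j)| ≤ 1 * (C₁ / 2 ^ N) :=
          abs_mul_le (by rw [abs_of_nonneg f1]; exact f2) (ht1 j)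
        have g2 := ht0 j
        have e2 : 2 * C₁ / (2 : ℝ) ^ N = C₁ / 2 ^ N + 1 * (C₁ / 2 ^ N) := by ring
        rw [e2]
        linarith
      have hΔ : ∀ j, (Y u.1 0 j - Y u'.1 0 j) + θ * (Y u.1 1 j - Y u'.1 1 j) =
          (t0 + θ * t1) * E u.1 j + ρ j := by
        intro j
        rw [hρ]
        ring
      -- the long coordinate
      have hζ2 : |(Y u.1 0 (κ u.1) - Y u'.1 0 (κ u.1)) +
          θ * (Y u.1 1 (κ u.1) - Y u'.1 1 (κ u.1))| ≤ 1 / 2 ^ N := by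
        rw [hζ] at hz
        dsimp only at hz
        rw [← hk] at hz
        unfold upos at hz
        rw [← hi, ← hθ] at hz
        have := floor_same hz
        refine le_trans (le_of_eq ?_) this
        congr 1
        ring
      have k1 : |(t0 + θ * t1) * E u.1 (κ u.1)| ≤ (1 + 2 * C₁) / 2 ^ N := by
        have e : (t0 + θ * t1) * E u.1 (κ u.1) = ((Y u.1 0 (κ u.1) - Y u'.1 0 (κ u.1)) +
            θ * (Y u.1 1 (κ u.1) - Y u'.1 1 (κ u.1))) - ρ (κ u.1) := by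
          rw [hΔ]
          ring
        rw [e]
        refine (abs_sub _ _).trans ?_
        have g2 := hρb (κ u.1)
        have e2 : (1 + 2 * C₁) / (2 : ℝ) ^ N = 1 / 2 ^ N + 2 * C₁ / 2 ^ N := by ring
        rw [e2]
        linarith
      have k2 : |(t0 + θ * t1) * E u.1 j| ≤ (1 + 2 * C₁) / 2 ^ N := by
        refine le_trans ?_ k1
        rw [abs_mul, abs_mul]
        exact mul_le_mul_of_nonneg_left (hκ u.1 j) (abs_nonneg _)
      rw [hΔ j]
      refine (abs_add_le _ _).trans ?_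
      have g2 := hρb j
      have e2 : (1 + 4 * C₁) / (2 : ℝ) ^ N = (1 + 2 * C₁) / 2 ^ N + 2 * C₁ / 2 ^ N := by ring
      rw [e2]
      linarith
  have b1 := CH_le_add hq0 (upos N Y) (fun u => (ζ u, κ u.1)) W
  have b2 := CH_chain hq0 ζ (fun u => κ u.1) W
  have b3 : CH (uni N p) (upos N Y) (fun u => ((ζ u, κ u.1), W u)) ≤
      CH (uni N p) (upos N Y) (fun u => (ζ u, (κ u.1, W u))) :=
    CH_mono_cond hq0 fun u u' _ _ h => by
      simp only [Prod.mk.injEq] at h ⊢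
      tauto
  linarith

/-- **Phase 1.** -/
theorem ph1 (C₁ : ℝ) (hC₁ : 1 ≤ C₁) : ∃ (C : ℝ) (L : ℕ), 0 ≤ C ∧
    ∀ (Ω S T U : Type) [Fintype Ω] (p : Ω → ℝ) (l : Ω → S) (b : Ω → T) (B : Ω → U)
      (Y : Ω → Fin 2 → Fin 3 → ℝ) (E : Ω → Fin 3 → ℝ) (K s x : ℕ) (p₁ E₁ : ℝ),
      IsLaw p → Det p l b → Det p l Y →
      (∀ ω, 0 < p ω → ∀ j, |E ω j| ≤ C₁) →
      (∀ ω ω', 0 < p ω → 0 < p ω' → b ω = b ω' → ∀ a j, |Y ω a j - Y ω' a j| ≤ 1) →
      (∀ ω ω', 0 < p ω → 0 < p ω' → b ω = b ω' → B ω = B ω' → ∀ r : ℝ,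
        (∀ a j, |Y ω a j - Y ω' a j| ≤ r) → ∀ a, ∃ t : ℝ, |t| ≤ C₁ * r ∧
          ∀ j, |Y ω a j - Y ω' a j - t * E ω j| ≤ C₁ / 2 ^ (K * s)) →
      x + L ≤ s →
      Pe (dbl p l) (fun u => ∀ j, |crs (E u.1) (E u.2) j| ≤ 1 / 2 ^ x) ≤ p₁ →
      3 * ((K * s : ℕ) * Real.log 2) ≤ CH (uni (K * s) p) (upos (K * s) Y)
        (fun u => (u.2, b u.1)) + E₁ →
      2 * CH p (dg (K * s) Y) (fun ω => (B ω, b ω)) + (K * s : ℕ) * Real.log 2 ≤
        CH p (dg (K * s) Y) b + E₁ + C * (s + (x + 1) * K + p₁ * (K * s)) := by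
  obtain ⟨Ck, Lk, hCk, kak⟩ := kak2 C₁ hC₁
  have hlg : ∀ r : ℝ, 1 ≤ r → 0 ≤ Real.log r := fun r hr => Real.log_nonneg hr
  have l3 := hlg 3 (by norm_num)
  have l7 := hlg 7 (by norm_num)
  have l8 := hlg (8 * C₁ + 5) (by linarith)
  refine ⟨Ck + (2 * (Real.log 3 + Real.log 7 + 3 * Real.log (8 * C₁ + 5)) + 3 * Real.log 7),
    Lk + 1, by positivity, ?_⟩
  intro Ω S T U _ p l b B Y E K s x p₁ E₁ hp hlb hlY hE hb1 hpl hxs hp1 hsat
  have hp0 := hp.nonneg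
  obtain ⟨N, hN⟩ : ∃ N, N = K * s := ⟨_, rfl⟩
  have hq := uni_law hp N
  have hq0 := hq.nonneg
  have hs1 : 1 ≤ s := by omega
  -- the bilinear theorem given the position
  have key := kak (Ω × Fin (2 ^ N)) _ _ _ (uni N p) (fun u => (u.2, l u.1))
    (fun u => (upos N Y u, (u.2, b u.1))) (fun u => B u.1) (fun u => Y u.1) (fun u => E u.1)
    K s x p₁ hq ?_ ?_ ?_ ?_ ?_ (by omega) ?_
  · rw [← hN] at key hsat ⊢
    -- the line
    have c1 : CH p (dg N Y) b = CH (uni N p) (dg N (fun u : Ω × Fin (2 ^ N) => Y u.1))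
        (fun u => (u.2, b u.1)) := (CH_uni hp N (dg N Y) b).symm
    have c2 : CH p (dg N Y) (fun ω => (B ω, b ω)) = CH (uni N p)
        (dg N (fun u : Ω × Fin (2 ^ N) => Y u.1)) (fun u => (u.2, (B u.1, b u.1))) :=
      (CH_uni hp N (dg N Y) (fun ω => (B ω, b ω))).symm
    obtain ⟨Z, hZ⟩ : ∃ Z, Z = dg N (fun u : Ω × Fin (2 ^ N) => Y u.1) := ⟨_, rfl⟩
    rw [← hZ] at c1 c2 key
    have d1 := CH_chain hq0 Z (upos N Y) (fun u => (u.2, b u.1))
    have d2 := CH_chain hq0 (upos N Y) Z (fun u => (u.2, b u.1))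
    have d3 : CH (uni N p) (fun u => (Z u, upos N Y u)) (fun u => (u.2, b u.1)) =
        CH (uni N p) (fun u => (upos N Y u, Z u)) (fun u => (u.2, b u.1)) := by
      refine CH_congr hq0 ?_ ?_ (fun _ _ _ _ h => h) (fun _ _ _ _ h => h) <;>
      · intro ω ω' _ _ h
        simp only [Prod.mk.injEq] at h ⊢
        tauto
    have d4 : CH (uni N p) (upos N Y) (fun u => (Z u, (u.2, b u.1))) ≤ 3 * Real.log 7 := by
      have h := CH_bI hq (upos N Y) (fun u => (Z u, (u.2, b u.1))) (2 + 1) (by norm_num) ?_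
      · rw [Fintype.card_fin] at h
        refine h.trans (le_of_eq ?_)
        norm_num
      · intro u u' hu hu' h j
        simp only [Prod.mk.injEq] at h
        obtain ⟨hz, hi, -⟩ := h
        refine upos_diff hi j ?_
        rw [hZ] at hz
        have g1 := dg_same hz 0 j
        have g2 := dg_same hz 1 j
        obtain ⟨f1, f2⟩ := fin_frac N u.2
        refine (abs_add_le _ _).trans ?_
        have g3 : |((u.2 : ℕ) : ℝ) / 2 ^ N * (Y u.1 1 j - Y u'.1 1 j)| ≤ 1 * (1 / 2 ^ N) :=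
          abs_mul_le (by rw [abs_of_nonneg f1]; exact f2) g2
        have e2 : (2 : ℝ) / 2 ^ N = 1 / 2 ^ N + 1 * (1 / 2 ^ N) := by ring
        rw [e2]
        exact add_le_add g1 g3
    -- the plank
    have d5 := CH_le_add hq0 Z (upos N Y) (fun u => (u.2, (B u.1, b u.1)))
    have d6 : CH (uni N p) Z (fun u => (upos N Y u, (u.2, (B u.1, b u.1)))) ≤
        CH (uni N p) Z (fun u => (B u.1, (upos N Y u, (u.2, b u.1)))) :=
      CH_mono_cond hq0 fun u u' _ _ h => by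
        simp only [Prod.mk.injEq] at h ⊢
        tauto
    have d7 := upos_plank hC₁ hp b B Y E N hb1 (by rw [hN]; exact hpl)
    have hp10 : 0 ≤ p₁ := by
      refine (Pe_nonneg ?_ _).trans hp1
      have m1 : Marg (dbl p l) p (fun u => u.1) := dbl_fst hp0
      exact ⟨fun u => dbl_nonneg hp0 u, by rw [m1.sum]; exact hp.sum_one⟩
    have E0 : (1 : ℝ) ≤ s + (x + 1) * K + p₁ * (K * s) := by
      have h1 : (1 : ℝ) ≤ s := by exact_mod_cast hs1
      have h2 : (0 : ℝ) ≤ (x + 1) * K := by positivity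
      have h3 : (0 : ℝ) ≤ p₁ * (K * s) := by positivity
      linarith
    have E2 := mul_le_mul_of_nonneg_left E0 (show 0 ≤ 2 * (Real.log 3 + Real.log 7 +
      3 * Real.log (8 * C₁ + 5)) + 3 * Real.log 7 by positivity)
    have hKs : ((K : ℝ) * s) = ((N : ℕ) : ℝ) := by
      rw [hN]
      push_cast
      ring
    rw [c1, c2]
    linarith
  · intro u u' hu hu' h
    simp only [Prod.mk.injEq] at h
    obtain ⟨hi, hl⟩ := h
    have hu1 := uni_pos N hu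
    have hu2 := uni_pos N hu'
    have e1 := hlY _ _ hu1 hu2 hl
    have e2 := hlb _ _ hu1 hu2 hl
    refine Prod.ext ?_ (Prod.ext hi e2)
    show upos N Y u = upos N Y u'
    unfold upos
    rw [e1, hi]
  · intro u u' hu hu' h
    simp only [Prod.mk.injEq] at h
    exact hlY _ _ (uni_pos N hu) (uni_pos N hu') h.2
  · exact fun u hu j => hE _ (uni_pos N hu) j
  · intro u u' hu hu' h
    simp only [Prod.mk.injEq] at h
    exact hb1 _ _ (uni_pos N hu) (uni_pos N hu') h.2.2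
  · intro u u' hu hu' h h' r hr a
    simp only [Prod.mk.injEq] at h
    exact hpl _ _ (uni_pos N hu) (uni_pos N hu') h.2.2 h' r hr a
  · rw [Pe_dbl_uni hp N l (fun u => ∀ j, |crs (E u.1) (E u.2) j| ≤ 1 / 2 ^ x)]
    exact hp1

end Pool.XF
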