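import Pool.Agent.H81.XF.Thm
import Pool.Agent.H81.XF.Ph1

/-!
# LEMMA X for flags of length 3, second form
-/

set_option autoImplicit false

namespace Pool.XF

open Finset Real
open Pool.Agent.H49.Ent Pool.Agent.H32.Dense Pool.STK Pool.KA Pool.KSAT Pool.K2S Pool.PC

variable {J : ℕ}

/-- The rows of the long windows have one unknown coordinate. -/
theorem long_triv {C₀ : ℝ} (F : Fam 3 J) {w v v' g D X : ℕ} {i0 i1 i2 : Fin 3}
    (h01 : i0 ≠ i1) (h02 : i0 ≠ i2) (h12 : i1 ≠ i2)
    {c k' c' : Fin 3 → ℕ} {M M' A A' : F.Ω → Fin 3 → Fin 3 → ℝ}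
    (hA : ∀ ω, 0 < F.p ω → Chg C₀ c (M ω) (M' ω) (A ω) (A' ω)) (hwg : w ≤ g) (hgv : g ≤ v')
    (hv' : v' ≤ J) (hvD : v' ≤ w + D) (hvv : v ≤ v') (hX : v' - v = X) (hc : ∀ j, c j ≤ c' j)
    (hc1 : c i1 + D ≤ c' i1) (hk1 : w + c i1 + D ≤ k' i1)
    (hc2 : c i2 + D ≤ c' i2) (hk2 : w + c i2 + D ≤ k' i2) :
    CH F.p (row F c M' v') (fun ω => (F.T1 v' ω,
      cxr F c M' (F.mlb g k' c' M') (F.blb w c M) v ω)) ≤ X * Real.log 2 + 4 * Real.log 7 := by
  have hp := F.isLaw
  have hp0 := hp.nonneg
  have hwv : w ≤ v' := hwg.trans hgv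
  obtain ⟨V, hV⟩ : ∃ V, V = (fun ω => (F.T1 v' ω,
      cxr F c M' (F.mlb g k' c' M') (F.blb w c M) v ω)) := ⟨_, rfl⟩
  rw [← hV]
  have Vex : ∀ ω ω', V ω = V ω' → F.T1 v' ω = F.T1 v' ω' ∧
      F.mlb g k' c' M' ω = F.mlb g k' c' M' ω' ∧ row F c M' v ω = row F c M' v ω' := by
    intro ω ω' h
    rw [hV] at h
    unfold cxr at h
    simp only [Prod.mk.injEq] at h
    tauto
  have crude : ∀ ω ω', 0 < F.p ω → V ω = V ω' → ∀ j,
      |((row F c M' v' ω j - row F c M' v' ω' j : ℤ) : ℝ)| ≤ 2 * 2 ^ X + 1 := by
    intro ω ω' hω h j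
    obtain ⟨h1, h2, h3⟩ := Vex ω ω' h
    have := (row_crude (hA _ hω) hvv hv' hc h2 h1 h3).1 j
    rw [hX] at this
    exact row_close (Box.mlb_ext h2).2.1 h1 j this
  have a1 : CH F.p (fun ω => row F c M' v' ω i0) V ≤ X * Real.log 2 + Real.log 7 := by
    refine (CH_bd1 hp (fun ω => row F c M' v' ω i0) V (2 * 2 ^ X + 1)
      fun ω ω' hω _ h => crude ω ω' hω h i0).trans ?_
    have h1 : 2 * (2 * (2 : ℝ) ^ X + 1) + 1 ≤ (2 : ℝ) ^ X * 7 := by
      have : (1 : ℝ) ≤ 2 ^ X := one_le_pow₀ (by norm_num)
      linarith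
    refine (Real.log_le_log (by positivity) h1).trans ?_
    rw [Real.log_mul (by positivity) (by positivity), Real.log_pow]
  have fine : ∀ ω ω', 0 < F.p ω → V ω = V ω' → ∀ i, c i + D ≤ c' i → w + c i + D ≤ k' i →
      |((row F c M' v' ω i - row F c M' v' ω' i : ℤ) : ℝ)| ≤ 2 + 1 := by
    intro ω ω' hω h i hci hki
    obtain ⟨h1, h2, h3⟩ := Vex ω ω' h
    refine row_close (Box.mlb_ext h2).2.1 h1 i ?_
    have k1 := (mlb_dn (w := w) (D := D) h2 (t := (F.T1 v' ω : ℝ) / 2 ^ v') (i := i)
      ((tm_near F hgv hv' ω).trans (one_div_le_one_div_of_le (by positivity)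
        (pow_le_pow_right₀ (by norm_num) hwg))) hki hci).1
    rw [dn_scale hwv, abs_mul, abs_of_pos (by positivity : (0 : ℝ) < 2 ^ (v' - w))]
    have k2 : (2 : ℝ) ^ (v' - w) ≤ 2 ^ D := pow_le_pow_right₀ (by norm_num) (by omega)
    refine (mul_le_mul k2 k1 (abs_nonneg _) (by positivity)).trans (le_of_eq ?_)
    field_simp
  have a2 : CH F.p (row F c M' v') (fun ω => (row F c M' v' ω i0, V ω)) ≤ 3 * Real.log 7 := by
    refine (CH_bI hp (row F c M' v') _ 3 (by norm_num) fun ω ω' hω _ h j => ?_).trans
      (le_of_eq (by rw [Fintype.card_fin]; norm_num))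
    simp only [Prod.mk.injEq] at h
    have hj : j = i0 ∨ j = i1 ∨ j = i2 := by
      revert h01 h02 h12
      fin_cases i0 <;> fin_cases i1 <;> fin_cases i2 <;> fin_cases j <;> simp
    rcases hj with hj | hj | hj
    · rw [hj, h.1]
      simp
    · rw [hj]
      exact (fine ω ω' hω h.2 i1 hc1 hk1).trans (by norm_num)
    · rw [hj]
      exact (fine ω ω' hω h.2 i2 hc2 hk2).trans (by norm_num)
  have b1 := CH_le_add hp0 (row F c M' v') (fun ω => row F c M' v' ω i0) V
  linarith

/-- **LEMMA X for flags of length 3**, second form. -/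
theorem xf2 : XF2Stmt := by
  intro C₀ hC₀
  obtain ⟨Ck, Lk, hCk, kak⟩ := ph1 (4 * C₀) (by linarith)
  have hlg : ∀ r : ℝ, 1 ≤ r → 0 ≤ Real.log r := fun r hr => Real.log_nonneg hr
  have l3 : 0 ≤ Real.log 3 := hlg 3 (by norm_num)
  have l5 : 0 ≤ Real.log 5 := hlg 5 (by norm_num)
  have l7 : 0 ≤ Real.log 7 := hlg 7 (by norm_num)
  have l2 : 0 ≤ Real.log 2 := hlg 2 (by norm_num)
  have l21 : Real.log 2 ≤ 1 := by
    have := Real.log_two_lt_d9
    linarith only [this]
  obtain ⟨la, hla⟩ : ∃ r, r = Real.log (12 * C₀ + 3) := ⟨_, rfl⟩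
  obtain ⟨lb, hlb⟩ : ∃ r, r = Real.log (6 * C₀ + 24 * C₀ ^ 2 + 3) := ⟨_, rfl⟩
  have la0 : 0 ≤ la := by
    rw [hla]
    exact hlg _ (by linarith)
  have lb0 : 0 ≤ lb := by
    rw [hlb]
    refine hlg _ ?_
    have : 0 ≤ C₀ ^ 2 := by positivity
    linarith
  obtain ⟨C, hC⟩ : ∃ C : ℝ, C = Ck + (12 * Real.log 5 + 2 * Real.log 7 + 6 * la) +
    (7 * Real.log 7 + 6 * la + (Real.log 3 + la + 3 * lb + 3 * Real.log 7)) + 3 + 3 + 1 :=
    ⟨_, rfl⟩
  refine ⟨C, Lk, by rw [hC]; positivity, ?_⟩
  intro J F w y X n n1 K s x i0 i1 i2 c k' c' M M' A A' p₁ e E₁ h01 h02 h12 hn1 hnJ hyK hxs hc hk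
    hc1 hk1 hc2 hk2 hc3 hk3 hA hM he hdbe hdbl hp10 hsat hE1
  have hp := F.isLaw
  have hp0 := hp.nonneg
  have hyJ : w + y ≤ J := by omega
  have hwy : w ≤ w + y := Nat.le_add_right w y
  exact by
   obtain ⟨B, hB⟩ : ∃ B, B = F.mlb (w + y) k' c' M' := ⟨_, rfl⟩
   obtain ⟨b, hb⟩ : ∃ b, b = F.blb w c M := ⟨_, rfl⟩
   obtain ⟨L1, hL1⟩ : ∃ L, L = dg (K * s) (ypv F w c M) := ⟨_, rfl⟩
   obtain ⟨v, hv⟩ : ∃ v : ℕ → ℕ, v = fun i => w + y + i * X := ⟨_, rfl⟩
   have vle : ∀ i, i ≤ n → v i ≤ J ∧ v i ≤ w + (y + n * X) := by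
     intro i hi
     have h1 : i * X ≤ n * X := Nat.mul_le_mul_right X hi
     rw [hv]
     constructor
     · show w + y + i * X ≤ J
       omega
     · show w + y + i * X ≤ w + (y + n * X)
       omega
   have vle1 : ∀ i, i ≤ n1 → v i ≤ w + K * s := by
     intro i hi
     have h1 : i * X ≤ n1 * X := Nat.mul_le_mul_right X hi
     rw [hv]
     show w + y + i * X ≤ w + K * s
     omega
   have vs : ∀ i, v i ≤ v (i + 1) := by
     intro i
     rw [hv]
     show w + y + i * X ≤ w + y + (i + 1) * X
     rw [Nat.add_mul]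
     omega
   have vX : ∀ i, v (i + 1) - v i = X := by
     intro i
     rw [hv]
     show w + y + (i + 1) * X - (w + y + i * X) = X
     rw [Nat.add_mul]
     omega
   exact by
    have vw : ∀ i, w + y ≤ v i := by
      intro i
      rw [hv]
      show w + y ≤ w + y + i * X
      omega
    have hbd : Det F.p (slam F w) b := by
      rw [hb]
      exact slam_blb hM
    have hYd : Det F.p (slam F w) (ypv F w c M) := slam_ypv hM
    have hLd : Det F.p (slam F w) L1 := by
      intro ω ω' hω hω' h
      have := hYd ω ω' hω hω' h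
      rw [hL1]
      unfold dg
      rw [this]
    -- the rows
    obtain ⟨Rw, hRw⟩ : ∃ Rw : ℕ → ℝ, Rw = fun i => CH F.p (row F c M' (v (i + 1)))
      (fun ω => (F.T1 (v (i + 1)) ω, cxr F c M' B b (v i) ω)) := ⟨_, rfl⟩
    have hRow : ∀ i, Row F w y X c k' c' M M' i = Rw i := by
      intro i
      rw [hRw, hv, hB, hb]
      rfl
    have nx : ∀ i < n, CH F.p (fun ω => (row F c M' (v (i + 1)) ω, (F.T1 (v (i + 1)) ω,
        cxr F c M' B b (v i) ω))) (cxr F c M' B b (v (i + 1))) ≤ 3 * Real.log 7 := by
      intro i hi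
      rw [hB]
      exact cxr_next b (vs i) (vle (i + 1) hi).1 hc
    obtain ⟨a, ha⟩ : ∃ a, a = CH F.p L1 (fun ω => (B ω, b ω)) := ⟨_, rfl⟩
    have ha0 : 0 ≤ a := by rw [ha]; exact CH_nonneg hp0 _ _
    -- (I) three planks
    exact by
     have I1 : 2 * a + (K * s : ℕ) * Real.log 2 ≤ CH F.p L1 b + E₁ +
         Ck * (s + (x + 1) * K + p₁ * (K * s)) + 12 * Real.log 5 := by
       rcases Nat.eq_zero_or_pos K with hK | hK
       · have g1 : a ≤ CH F.p L1 b := by
           rw [ha]
           exact CH_mono_cond hp0 fun ω ω' _ _ h => (Prod.ext_iff.mp h).2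
         have g2 : CH F.p L1 b ≤ 6 * Real.log 5 := by
           have := CH_bI hp L1 b 2 (by norm_num) fun ω ω' hω hω' h i => by
             rw [hL1, hK]
             obtain ⟨α, j⟩ := i
             show |((⌊(2 : ℝ) ^ (0 * s) * ypv F w c M ω α j⌋ -
               ⌊(2 : ℝ) ^ (0 * s) * ypv F w c M ω' α j⌋ : ℤ) : ℝ)| ≤ _
             rw [hb] at h
             have g := (blb_same h).2.2.2 α j
             refine (floor_close (c := 1) (g.trans (le_of_eq ?_))).trans (by norm_num)
             simp
           rw [Fintype.card_prod, Fintype.card_fin, Fintype.card_fin] at this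
           refine this.trans (le_of_eq ?_)
           norm_num
         have g3 : 0 ≤ Ck * (s + (x + 1) * K + p₁ * (K * s)) := by positivity
         have g4 : ((K * s : ℕ) : ℝ) * Real.log 2 = 0 := by
           rw [hK]
           simp
         linarith only [g1, g2, g3, g4, hE1, l5]
       · have := kak F.Ω _ _ _ F.p (slam F w) b B (ypv F w c M) (fun ω j => A' ω j i0) K s x p₁ E₁
           hp hbd hYd (fun ω hω j => ((hA ω hω).bd' j i0).trans (by linarith only [hC₀]))
           (fun ω ω' _ _ h => by
             rw [hb] at h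
             exact (blb_same h).2.2.2)
           (fun ω ω' hω hω' h h' r hr α => by
             rw [hb] at h
             rw [hB] at h'
             obtain ⟨t, t1, t2⟩ := plank h01 h02 h12 (hA ω hω) hwy hyJ h h' hc1 hk1 hc2 hk2 hr α
             refine ⟨t, t1.trans ?_, t2⟩
             have hr0 : 0 ≤ r := (abs_nonneg _).trans (hr 0 0)
             nlinarith only [hr0, hC₀]) hxs (hdbe hK) (by rw [hb]; exact hsat hK)
         rw [← hL1, ← ha] at this
         linarith only [l5, this]
     -- (II) two planks
     exact by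
      obtain ⟨q, hq⟩ : ∃ q, q = dbl F.p (slam F w) := ⟨_, rfl⟩
      have mf : Marg q F.p (fun u => u.1) := by rw [hq]; exact dbl_fst hp0
      have ms : Marg q F.p (fun u => u.2) := by rw [hq]; exact dbl_snd hp0
      have hq0 : ∀ u, 0 ≤ q u := by rw [hq]; exact dbl_nonneg hp0
      have hql : IsLaw q := ⟨hq0, by rw [mf.sum]; exact hp.sum_one⟩
      have heq : ∀ u, 0 < q u → slam F w u.1 = slam F w u.2 := by
        intro u hu
        rw [hq] at hu
        exact dbl_eq hp0 hu
      have beq : ∀ u, 0 < q u → b u.1 = b u.2 := fun u hu =>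
        hbd _ _ (mf.pos hq0 hu) (ms.pos hq0 hu) (heq u hu)
      have Leq : ∀ u, 0 < q u → L1 u.1 = L1 u.2 := fun u hu =>
        hLd _ _ (mf.pos hq0 hu) (ms.pos hq0 hu) (heq u hu)
      obtain ⟨D, hD⟩ : ∃ D, D = y + n * X := ⟨_, rfl⟩
      rw [← hD] at hc3 hk3
      obtain ⟨N, hN⟩ : ∃ N : F.Ω × F.Ω → (Fin 3 → Fin 3 → ℝ) × (Fin 2 → ℤ),
        N = fun u => (M' u.2, nrm F w D c i2 M' u) := ⟨_, rfl⟩
      obtain ⟨r, hr⟩ : ∃ r, r = Pe (dbl F.p (slam F w)) (fun u => ∀ j,
        |crs (A u.1 i2) (A u.2 i2) j| ≤ 1 / 2 ^ x) := ⟨_, rfl⟩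
      have hr0 : 0 ≤ r := by
        rw [hr, ← hq]
        exact Pe_nonneg hql _
      have hr1 : r ≤ 1 := by
        rw [hr, ← hq, ← Pe_univ hql]
        exact Pe_mono hql fun _ _ => trivial
      have hrp : n1 < n → r ≤ p₁ := fun h => by
        rw [hr]
        exact hdbl h
      obtain ⟨τ, hτ⟩ : ∃ τ : ℕ → F.Ω × F.Ω → ℕ, τ = fun i u => F.T1 (v (i + 1)) u.1 := ⟨_, rfl⟩
      obtain ⟨Ye, hYe⟩ : ∃ Ye : ℕ → F.Ω × F.Ω → Fin 3 → ℤ,
        Ye = fun i u => row F c M' (v (i + 1)) u.1 := ⟨_, rfl⟩
      exact by
       obtain ⟨cx, hcx⟩ : ∃ cx : ℕ → F.Ω × F.Ω → _, cx = fun i u => cxr F c M' B b (v i) u.1 :=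
         ⟨_, rfl⟩
       have II := payI hq0 n (fun u => (N u, L1 u.1)) cx τ Ye (e' := 3 * Real.log 7) (fun i hi => by
         rw [hcx, hτ, hYe]
         have := mf.CH (fun ω => (row F c M' (v (i + 1)) ω, (F.T1 (v (i + 1)) ω,
           cxr F c M' B b (v i) ω))) (cxr F c M' B b (v (i + 1)))
         dsimp only
         rw [this]
         exact nx i hi)
       have II1 : ∑ i ∈ Finset.range n, CH q (Ye i) (fun u => (τ i u, cx i u)) =
           ∑ i ∈ Finset.range n, Rw i := by
         refine Finset.sum_congr rfl fun i _ => ?_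
         rw [hcx, hτ, hYe, hRw]
         exact mf.CH (row F c M' (v (i + 1))) (fun ω => (F.T1 (v (i + 1)) ω,
           cxr F c M' B b (v i) ω))
       rw [II1] at II
       -- the rows, given the line and the second plank
       obtain ⟨er, her⟩ : ∃ er, er = Real.log 3 + (X * Real.log 2 + la) +
         3 * ((x * Real.log 2 + lb) + r * (X * Real.log 2 + Real.log 7)) := ⟨_, rfl⟩
       have II2 : ∑ i ∈ Finset.range n, CH q (Ye i) (fun u => ((N u, L1 u.1), (τ i u, cx i u))) ≤
           n * (3 * la) + ((n : ℝ) - n1) * er := by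
         have s1 : ∀ i ∈ Finset.range n1,
             CH q (Ye i) (fun u => ((N u, L1 u.1), (τ i u, cx i u))) ≤ 3 * la := by
           intro i hi
           have hi' := Finset.mem_range.mp hi
           rw [hcx, hτ, hYe, hla, hB, hb]
           refine long_rows hC₀ hql F (fun u => u.1) (fun u hu => mf.pos hq0 hu) (D := K * s) hA
             (hwy.trans (vw (i + 1))) (vle (i + 1) (by omega)).1 (vle1 (i + 1) (by omega))
             (fun u => (N u, L1 u.1)) ?_
           intro u u' h
           rw [← hL1]
           exact (Prod.ext_iff.mp h).2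
         have s2 : ∀ i ∈ Finset.Ico n1 n,
             CH q (Ye i) (fun u => ((N u, L1 u.1), (τ i u, cx i u))) ≤ er := by
           intro i hi
           have hi' := Finset.mem_Ico.mp hi
           rw [hcx, hτ, hYe, her, hla, hlb, hB, hb, hN, hq]
           exact short_rows hC₀ F hA hM hwy (vw (i + 1)) (vle (i + 1) (by omega)).1
             (by rw [hD]; exact (vle (i + 1) (by omega)).2) (vs i) (vX i) hc hc3 hk3 hr.ge
             (fun u => L1 u.1)
         rw [← Finset.sum_range_add_sum_Ico _ hn1]
         have s3 := Finset.sum_le_sum s1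
         have s4 := Finset.sum_le_sum s2
         rw [Finset.sum_const, Finset.card_range, nsmul_eq_mul] at s3
         rw [Finset.sum_const, Nat.card_Ico, nsmul_eq_mul, Nat.cast_sub hn1] at s4
         have s5 : (n1 : ℝ) * (3 * la) ≤ n * (3 * la) :=
           mul_le_mul_of_nonneg_right (by exact_mod_cast hn1) (by positivity)
         linarith only [s3, s4, s5]
       -- the information of the second plank
       exact by
        have II3 : CH q (fun u => (N u, L1 u.1)) (cx 0) ≤ a + CH F.p B (fun ω => (L1 ω, b ω)) +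
            2 * Real.log 7 := by
          have g1 : CH q (fun u => (N u, L1 u.1)) (cx 0) ≤
              CH q (fun u => (N u, L1 u.1)) (fun u => (B u.1, b u.1)) :=
            CH_mono_cond hq0 fun u u' _ _ h => by
              rw [hcx] at h
              unfold cxr at h
              simp only [Prod.mk.injEq] at h ⊢
              exact h.1
          have g2 := CH_chain hq0 N (fun u => L1 u.1) (fun u => (B u.1, b u.1))
          have g3 : CH q (fun u => L1 u.1) (fun u => (B u.1, b u.1)) = a := by
            rw [ha]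
            exact mf.CH L1 (fun ω => (B ω, b ω))
          have g4 : CH q N (fun u => (L1 u.1, (B u.1, b u.1))) ≤
              CH q N (fun u => (L1 u.1, b u.1)) :=
            CH_mono_cond hq0 fun u u' _ _ h => by
              simp only [Prod.mk.injEq] at h ⊢
              tauto
          have g5 := CH_le_add hq0 N (fun u => B u.2) (fun u => (L1 u.1, b u.1))
          have g6 : CH q (fun u => B u.2) (fun u => (L1 u.1, b u.1)) =
              CH F.p B (fun ω => (L1 ω, b ω)) := by
            rw [← ms.CH B (fun ω => (L1 ω, b ω))]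
            refine CH_congr hq0 (fun _ _ _ _ h => (Prod.ext_iff.mp h).1)
              (fun _ _ _ _ h => (Prod.ext_iff.mp h).1) ?_ ?_
            · intro u u' hu hu' h
              simp only [Prod.mk.injEq] at h ⊢
              rw [← Leq u hu, ← Leq u' hu', ← beq u hu, ← beq u' hu']
              exact h
            · intro u u' hu hu' h
              simp only [Prod.mk.injEq] at h ⊢
              rw [Leq u hu, Leq u' hu', beq u hu, beq u' hu']
              exact h
          have g7 : CH q N (fun u => (B u.2, (L1 u.1, b u.1))) ≤ 2 * Real.log 7 := by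
            have k1 : CH q N (fun u => (B u.2, (L1 u.1, b u.1))) ≤
                CH q (nrm F w D c i2 M') (fun u => (B u.2, (L1 u.1, b u.1))) := by
              refine CH_mono_left hq0 fun u u' _ _ h => ?_
              simp only [Prod.mk.injEq] at h
              obtain ⟨h1, h2, -⟩ := h
              rw [hB] at h2
              rw [hN]
              exact Prod.ext (Box.mlb_ext h2).2.1 h1
            refine k1.trans ?_
            have k2 := CH_bI hql (nrm F w D c i2 M') (fun u => (B u.2, (L1 u.1, b u.1))) 3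
              (by norm_num) fun u u' hu hu' h α => by
                simp only [Prod.mk.injEq] at h
                obtain ⟨h1, h2, h3⟩ := h
                rw [hB] at h1
                rw [hb] at h3
                obtain ⟨hT, -, -, -⟩ := blb_same h3
                obtain ⟨z1, z2, z3, z4, z5⟩ := x1_slam (heq u hu)
                obtain ⟨y1, y2, y3, y4, y5⟩ := x1_slam (heq u' hu')
                have hM2 := (Box.mlb_ext h1).2.1
                have hT2 : F.T1 w u.2 = F.T1 w u'.2 := by rw [← z1, ← y1]; exact hT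
                have e2 : F.xa ((F.T1 w u.2 : ℝ) / 2 ^ w) u'.2 = F.x1 w u'.2 := by
                  rw [hT2]
                  rfl
                obtain ⟨k3, k4⟩ := mlb_dn (w := w) (D := D) h1 (i := i2)
                  (t := (F.T1 w u.2 : ℝ) / 2 ^ w) (by
                    rw [abs_sub_comm]
                    exact tm_near F hwy hyJ u.2) hk3 hc3
                fin_cases α
                · show |((⌊(2 : ℝ) ^ (w + c i2 + D) * mco (M' u.2) (F.x1 w u.1) i2⌋ -
                    ⌊(2 : ℝ) ^ (w + c i2 + D) * mco (M' u'.2) (F.x1 w u'.1) i2⌋ : ℤ) : ℝ)| ≤ 3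
                  rw [← hM2, z4, y4]
                  rw [e2] at k3
                  refine (floor_of_dn (r := 2) k3 rfl).trans (by norm_num)
                · show |((⌊(2 : ℝ) ^ (0 + c i2 + D) * mco (M' u.2) (F.d u.1) i2⌋ -
                    ⌊(2 : ℝ) ^ (0 + c i2 + D) * mco (M' u'.2) (F.d u'.1) i2⌋ : ℤ) : ℝ)| ≤ 3
                  rw [← hM2, z3, y3]
                  refine (floor_of_dn (r := 1) k4 rfl).trans (by norm_num)
            refine k2.trans (le_of_eq ?_)
            rw [Fintype.card_fin]
            norm_num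
          linarith only [g1, g2, g3, g4, g5, g6, g7]
        -- (III) the plank given the box
        exact by
         have III : CH F.p B b = CH F.p L1 b - a + CH F.p B (fun ω => (L1 ω, b ω)) := by
           have g1 := CH_chain hp0 L1 B b
           have g2 := CH_chain hp0 B L1 b
           have g3 : CH F.p (fun ω => (L1 ω, B ω)) b = CH F.p (fun ω => (B ω, L1 ω)) b := by
             refine CH_congr hp0 ?_ ?_ (fun _ _ _ _ h => h) (fun _ _ _ _ h => h) <;>
             · intro ω ω' _ _ h
               simp only [Prod.mk.injEq] at h ⊢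
               tauto
           rw [← ha] at g1
           linarith only [g1, g2, g3]
         -- (IV) the rows of the long windows
         have IV : ∑ i ∈ Finset.range n1, Rw i ≤ (K * s : ℕ) * Real.log 2 +
             n * (4 * Real.log 7) := by
           have g3 : ∑ i ∈ Finset.range n1, Rw i ≤
               ∑ _i ∈ Finset.range n1, (X * Real.log 2 + 4 * Real.log 7) := by
             refine Finset.sum_le_sum fun i hi => ?_
             have hi' := Finset.mem_range.mp hi
             rw [hRw, hB, hb]
             exact long_triv F h01 h02 h12 hA hwy (vw (i + 1)) (vle (i + 1) (by omega)).1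
               (vle1 (i + 1) (by omega)) (vs i) (vX i) hc hc1 hk1 hc2 hk2
           rw [Finset.sum_const, Finset.card_range, nsmul_eq_mul] at g3
           have hn1' : (n1 : ℝ) ≤ n := by exact_mod_cast hn1
           have s6 := mul_le_mul_of_nonneg_right hn1' (show 0 ≤ 4 * Real.log 7 by positivity)
           have s7 : ((n1 : ℝ) * X) ≤ ((K * s : ℕ) : ℝ) := by
             have : n1 * X ≤ K * s := by omega
             exact_mod_cast this
           have s8 := mul_le_mul_of_nonneg_right s7 l2
           linarith only [g3, s6, s8]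
         -- (V) the steps
         exact by
          have V1 := nfo_step F (w := w) (v := w + y) b B hbd
            (fun ω ω' _ _ h => by
              rw [hb] at h
              exact (blb_same h).2.2.1) (fun ω ω' _ _ h => by
              rw [hB] at h
              exact (Box.mlb_ext h).1)
          have V2 : CH F.p b B ≤ e + 6 * la := by
            rw [hb, hB, hla]
            exact box_plank hC₀ F hA hwy hyJ hc hk he
          have V3 := CH_T1w F hwy hyJ b (fun ω ω' _ _ h => by
            rw [hb] at h
            exact (blb_same h).1)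
          have V4 : (((w + y : ℕ) : ℝ) - w) * Real.log 2 = y * Real.log 2 := by
            push_cast
            ring
          rw [V4] at V3
          have V5 : CH F.p B b ≤ CH F.p (F.T1 (w + y)) b +
              CH F.p B (fun ω => (F.T1 (w + y) ω, b ω)) := CH_le_add hp0 B (F.T1 (w + y)) b
          -- the sum
          rw [Finset.sum_congr rfl fun i _ => hRow i, Finset.sum_congr rfl fun i _ => hRow i,
            ← hb, ← hB]
          have y0 : (0 : ℝ) ≤ y := Nat.cast_nonneg y
          have s0 : (0 : ℝ) ≤ s := Nat.cast_nonneg s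
          have x0 : (0 : ℝ) ≤ x := Nat.cast_nonneg x
          have K0 : (0 : ℝ) ≤ K := Nat.cast_nonneg K
          have n0 : (0 : ℝ) ≤ n := Nat.cast_nonneg n
          have X0 : (0 : ℝ) ≤ X := Nat.cast_nonneg X
          have n1n : (n1 : ℝ) ≤ n := by exact_mod_cast hn1
          have n10 : (0 : ℝ) ≤ n1 := Nat.cast_nonneg n1
          obtain ⟨E, hE⟩ : ∃ E : ℝ, E = y + s + (x + 1) * (K + n + 1) + p₁ * (K * s + n * X + 1) :=
            ⟨_, rfl⟩
          exact by
           rw [← hE]
           have q1 : 0 ≤ (x + 1 : ℝ) * K := by positivity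
           have q2 : 0 ≤ (x : ℝ) * n := by positivity
           have q3 : 0 ≤ p₁ * (K * s) := by positivity
           have q4 : 0 ≤ p₁ * (n * X) := by positivity
           have eE : E = y + s + (x + 1) * K + x * n + n + x + 1 + p₁ * (K * s) + p₁ * (n * X) + p₁ := by
             rw [hE]
             ring
           have E1 : 1 ≤ E := by rw [eE]; linarith only [hp10, q1, q2, q3, q4]
           have En : (n : ℝ) ≤ E := by rw [eE]; linarith only [hp10, q1, q2, q3, q4]
           have Ey : (y : ℝ) * Real.log 2 ≤ E := by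
             have : (y : ℝ) * Real.log 2 ≤ y * 1 := mul_le_mul_of_nonneg_left l21 y0
             rw [eE]
             linarith only [hp10, q1, q2, q3, q4, this]
           have Exn : (n : ℝ) * (x * Real.log 2) ≤ E := by
             have h1 : (x : ℝ) * Real.log 2 ≤ x * 1 := mul_le_mul_of_nonneg_left l21 x0
             have h2 := mul_le_mul_of_nonneg_left h1 n0
             rw [eE]
             linarith only [hp10, q1, q3, q4, h2]
           have Ek : (s : ℝ) + (x + 1) * K + p₁ * (K * s) ≤ E := by rw [eE]; linarith only [hp10, q2, q4]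
           have EX : ((n : ℝ) - n1) * (r * (X * Real.log 2)) ≤ E := by
             rcases hn1.eq_or_lt with h | h
             · rw [h, sub_self, zero_mul]
               linarith only [hp10, hE, q1, q2, q3, q4]
             · have h1 : (X : ℝ) * Real.log 2 ≤ X * 1 := mul_le_mul_of_nonneg_left l21 X0
               have h2 : r * (X * Real.log 2) ≤ p₁ * (X * 1) :=
                 mul_le_mul (hrp h) h1 (by positivity) hp10
               have h3 : ((n : ℝ) - n1) * (r * (X * Real.log 2)) ≤ n * (p₁ * (X * 1)) :=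
                 mul_le_mul (by linarith only) h2 (by positivity) n0
               rw [eE]
               linarith only [hp10, q1, q2, q3, h3]
           -- the terms of the error
           exact by
            have t1 := mul_le_mul_of_nonneg_left Ek hCk
            have t2 : 12 * Real.log 5 + 2 * Real.log 7 + 6 * la ≤
                (12 * Real.log 5 + 2 * Real.log 7 + 6 * la) * E :=
              le_mul_of_one_le_right (by positivity) E1
            have t3 : n * (7 * Real.log 7 + 6 * la + (Real.log 3 + la + 3 * lb + 3 * Real.log 7)) ≤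
                (7 * Real.log 7 + 6 * la + (Real.log 3 + la + 3 * lb + 3 * Real.log 7)) * E := by
              rw [mul_comm (n : ℝ)]
              exact mul_le_mul_of_nonneg_left En (by positivity)
            have t4 : ((n : ℝ) - n1) * er ≤ ((n : ℝ) - n1) * X * Real.log 2 +
                n * (Real.log 3 + la + 3 * lb + 3 * Real.log 7) + 3 * (n * (x * Real.log 2)) +
                3 * (((n : ℝ) - n1) * (r * (X * Real.log 2))) := by
              have h1 : ((n : ℝ) - n1) * er = ((n : ℝ) - n1) * X * Real.log 2 +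
                ((n : ℝ) - n1) * (Real.log 3 + la + 3 * lb + 3 * (r * Real.log 7)) +
                3 * (((n : ℝ) - n1) * (x * Real.log 2)) +
                3 * (((n : ℝ) - n1) * (r * (X * Real.log 2))) := by
                rw [her]
                ring
              have h2 : r * Real.log 7 ≤ Real.log 7 := mul_le_of_le_one_left l7 hr1
              have h3 : ((n : ℝ) - n1) * (Real.log 3 + la + 3 * lb + 3 * (r * Real.log 7)) ≤
                  n * (Real.log 3 + la + 3 * lb + 3 * Real.log 7) :=
                mul_le_mul (by linarith only) (by linarith only [h2]) (by positivity) n0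
              have h4 : ((n : ℝ) - n1) * (x * Real.log 2) ≤ n * (x * Real.log 2) :=
                mul_le_mul_of_nonneg_right (by linarith only) (by positivity)
              rw [h1]
              linarith only [h3, h4]
            have tot : C * E = Ck * E + (12 * Real.log 5 + 2 * Real.log 7 + 6 * la) * E +
              (7 * Real.log 7 + 6 * la + (Real.log 3 + la + 3 * lb + 3 * Real.log 7)) * E + 3 * E +
              3 * E + E := by
              rw [hC]
              ring
            exact by
             have t5 : (n : ℝ) * (7 * Real.log 7 + 6 * la + (Real.log 3 + la + 3 * lb +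
               3 * Real.log 7)) = n * (3 * Real.log 7) + n * (4 * Real.log 7) + n * (3 * la) +
               n * (3 * la) + n * (Real.log 3 + la + 3 * lb + 3 * Real.log 7) := by ring
             have la1 : 0 ≤ (n : ℝ) * (3 * la) := by positivity
             rw [tot]
             linarith only [la1, hE1, I1, II, II2, II3, III, IV, V1, V2, V3, V5, Ey, Exn, EX, t1, t2, t3, t4]

end Pool.XF
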