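import Pool.Agent.H81.PC.LxT
import Pool.Agent.H8.KS6.Box

/-!
# LEMMA X for flags of length 3: the statement (row 504)

`b = F.blb w c M` is the natural box of the window `w` with the frame `M` and the velocity
precisions `c`; `B = F.mlb (w + y) k' c' M'` is the plank of a shorter window inside this box: the
coordinate `i1` has fallen by `D1`, the coordinate `i2` by `D2`, where `D1 ≤ D2`. `A` is the change
of the frame in the natural units of `b`, `A'` its inverse; the column `i0` of `A'` is the long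
direction of the plank, the row `i2` of `A` is the normal of the plank.

The hypotheses: the long directions of three times of one line are linearly independent, the
normals of two times of one line are different, both to `x` digits and outside of a set of
probability `p₁`. No hypothesis on the family.
-/

set_option autoImplicit false

namespace Pool.XF

open Finset Real
open Pool.Agent.H49.Ent Pool.Agent.H32.Dense Pool.STK Pool.KA Pool.KSAT Pool.K2S Pool.PC

variable {J : ℕ}

/-- The determinant of three vectors. -/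
def det3 (a b c : Fin 3 → ℝ) : ℝ :=
  a 0 * (b 1 * c 2 - b 2 * c 1) - a 1 * (b 0 * c 2 - b 2 * c 0) + a 2 * (b 0 * c 1 - b 1 * c 0)

/-- The vector product. -/
def crs (a b : Fin 3 → ℝ) : Fin 3 → ℝ :=
  ![a 1 * b 2 - a 2 * b 1, a 2 * b 0 - a 0 * b 2, a 0 * b 1 - a 1 * b 0]

/-- The change of the frame in the natural units of the box: `A` and its inverse `A'`. -/
structure Chg (C₀ : ℝ) (c : Fin 3 → ℕ) (M M' A A' : Fin 3 → Fin 3 → ℝ) : Prop where
  chg : ∀ (x : Fin 3 → ℝ) (i : Fin 3), 2 ^ c i * mco M' x i = ∑ j, A i j * (2 ^ c j * mco M x j)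
  inv : ∀ i l, ∑ j, A' i j * A j l = if i = l then 1 else 0
  bd : ∀ i j, |A i j| ≤ C₀
  bd' : ∀ i j, |A' i j| ≤ C₀

/-- The rows: the position at the beginning of the window `v`, in the frame `M'` and in the natural
units of the box. -/
noncomputable def row (F : Fam 3 J) (c : Fin 3 → ℕ) (M' : F.Ω → Fin 3 → Fin 3 → ℝ) (v : ℕ) :
    F.Ω → Fin 3 → ℤ := F.mps v (fun j => c j + v) M'

/-- The contexts of the rows. -/
noncomputable def cxr (F : Fam 3 J) {S T : Type} (c : Fin 3 → ℕ) (M' : F.Ω → Fin 3 → Fin 3 → ℝ)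
    (B : F.Ω → T) (b : F.Ω → S) (v : ℕ) (ω : F.Ω) : (T × S) × (ℕ × (Fin 3 → ℤ)) :=
  ((B ω, b ω), (F.T1 v ω, row F c M' v ω))

/-- The entropy of the row number `i`. -/
noncomputable def Row (F : Fam 3 J) (w y X : ℕ) (c k' c' : Fin 3 → ℕ)
    (M M' : F.Ω → Fin 3 → Fin 3 → ℝ) (i : ℕ) : ℝ :=
  CH F.p (row F c M' (w + y + (i + 1) * X)) (fun ω => (F.T1 (w + y + (i + 1) * X) ω,
    cxr F c M' (F.mlb (w + y) k' c' M') (F.blb w c M) (w + y + i * X) ω))

/-- **LEMMA X for flags of length 3.** `K` blocks of `s` digits for the part in which only the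
coordinate `i0` has rows, `n1` rows there, `n` rows altogether. -/
def XFStmt : Prop :=
  ∀ C₀ : ℝ, 1 ≤ C₀ → ∃ (C : ℝ) (L : ℕ), 0 ≤ C ∧
    ∀ (J : ℕ) (F : Fam 3 J) (w y X n n1 K s x : ℕ) (i0 i1 i2 : Fin 3) (c k' c' : Fin 3 → ℕ)
      (M M' A A' : F.Ω → Fin 3 → Fin 3 → ℝ) (p₁ e : ℝ),
      i0 ≠ i1 → i0 ≠ i2 → i1 ≠ i2 → n1 ≤ n →
      w + y + n * X ≤ J → y + n1 * X ≤ K * s → x + L ≤ s →
      -- the precisions of the plank
      (∀ j, c j ≤ c' j) → (∀ j, w + c j ≤ k' j) →
      c i1 + K * s ≤ c' i1 → w + c i1 + K * s ≤ k' i1 →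
      c i2 + K * s ≤ c' i2 → w + c i2 + K * s ≤ k' i2 →
      c i2 + (y + n * X) ≤ c' i2 → w + c i2 + (y + n * X) ≤ k' i2 →
      -- the frames
      (∀ ω, 0 < F.p ω → Chg C₀ c (M ω) (M' ω) (A ω) (A' ω)) →
      Det F.p (slam F w) M → CH F.p M M' ≤ e →
      -- transversality
      (0 < K → Pe (tri F.p (slam F w)) (fun u => |det3 (fun j => A' u.1.1 j i0)
        (fun j => A' u.1.2 j i0) (fun j => A' u.2 j i0)| ≤ 1 / 2 ^ x) ≤ p₁) →
      (n1 < n → Pe (dbl F.p (slam F w)) (fun u => ∀ j,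
        |crs (A u.1 i2) (A u.2 i2) j| ≤ 1 / 2 ^ x) ≤ p₁) → 0 ≤ p₁ →
      nfo F w (F.blb w c M) +
        ∑ i ∈ Finset.range n1, Row F w y X c k' c' M M' i +
        ∑ i ∈ Finset.range n, Row F w y X c k' c' M M' i ≤
      nfo F (w + y) (F.mlb (w + y) k' c' M') + ((n : ℝ) - n1) * X * Real.log 2 + e +
        C * (y + s + (x + 1) * (K + n + 1) + p₁ * (K * s + n * X + 1))

end Pool.XF
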