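import Pool.Agent.H81.XF.Pure

/-!
# LEMMA X for flags of length 3: vectors in space
-/

set_option autoImplicit false

namespace Pool.XF

open Finset Real

/-- The three indices. -/
theorem sum3 {i0 i1 i2 : Fin 3} (h01 : i0 ≠ i1) (h02 : i0 ≠ i2) (h12 : i1 ≠ i2) (f : Fin 3 → ℝ) :
    ∑ k, f k = f i0 + f i1 + f i2 := by
  rw [Fin.sum_univ_three]
  revert h01 h02 h12
  fin_cases i0 <;> fin_cases i1 <;> fin_cases i2 <;> simp <;> ring

theorem abs_mul_le {a b α β : ℝ} (ha : |a| ≤ α) (hb : |b| ≤ β) : |a * b| ≤ α * β := by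
  rw [abs_mul]
  exact mul_le_mul ha hb (abs_nonneg _) ((abs_nonneg _).trans ha)

theorem dot_le {a b : Fin 3 → ℝ} {α β : ℝ} (ha : ∀ j, |a j| ≤ α) (hb : ∀ j, |b j| ≤ β) :
    |∑ j, a j * b j| ≤ 3 * α * β := by
  refine (Finset.abs_sum_le_sum_abs _ _).trans ?_
  have : ∑ j : Fin 3, |a j * b j| ≤ ∑ _j : Fin 3, α * β :=
    Finset.sum_le_sum fun j _ => abs_mul_le (ha j) (hb j)
  refine this.trans (le_of_eq ?_)
  rw [Finset.sum_const, Finset.card_univ, Fintype.card_fin, nsmul_eq_mul]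
  push_cast
  ring

theorem det3_le {a b c : Fin 3 → ℝ} {α β γ : ℝ} (ha : ∀ j, |a j| ≤ α) (hb : ∀ j, |b j| ≤ β)
    (hc : ∀ j, |c j| ≤ γ) : |det3 a b c| ≤ 6 * (α * β * γ) := by
  have h2 : ∀ i j k l : Fin 3, |b i * c j - b k * c l| ≤ 2 * (β * γ) := by
    intro i j k l
    refine (abs_sub _ _).trans ?_
    have h1 := abs_mul_le (hb i) (hc j)
    have h2 := abs_mul_le (hb k) (hc l)
    linarith
  unfold det3
  have h3 := abs_mul_le (ha 0) (h2 1 2 2 1)
  have h4 := abs_mul_le (ha 1) (h2 0 2 2 0)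
  have h5 := abs_mul_le (ha 2) (h2 0 1 1 0)
  refine (abs_add_le _ _).trans ?_
  have h6 := abs_sub (a 0 * (b 1 * c 2 - b 2 * c 1)) (a 1 * (b 0 * c 2 - b 2 * c 0))
  have e : 6 * (α * β * γ) = α * (2 * (β * γ)) + α * (2 * (β * γ)) + α * (2 * (β * γ)) := by ring
  rw [e]
  linarith

theorem det3_swap12 (a b c : Fin 3 → ℝ) : det3 b a c = -det3 a b c := by
  unfold det3
  ring

theorem det3_rot (a b c : Fin 3 → ℝ) : det3 b c a = det3 a b c := by
  unfold det3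
  ring

theorem det3_sub (a a' b c : Fin 3 → ℝ) : det3 (fun j => a j - a' j) b c =
    det3 a b c - det3 a' b c := by
  unfold det3
  ring

theorem det3_sub2 (a b b' c : Fin 3 → ℝ) : det3 a (fun j => b j - b' j) c =
    det3 a b c - det3 a b' c := by
  unfold det3
  ring

theorem det3_sub3 (a b c c' : Fin 3 → ℝ) : det3 a b (fun j => c j - c' j) =
    det3 a b c - det3 a b c' := by
  unfold det3
  ring

/-- A vector which is nearly parallel to `e`. -/
theorem det3_par {δ E e a : Fin 3 → ℝ} {t τ ρ η D : ℝ} (hτ : |t| ≤ τ)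
    (h1 : ∀ j, |δ j - t * E j| ≤ ρ) (h2 : ∀ j, |E j - e j| ≤ η) (he : ∀ j, |e j| ≤ D)
    (ha : ∀ j, |a j| ≤ D) : |det3 δ e a| ≤ 6 * D ^ 2 * ρ + 6 * D ^ 2 * (τ * η) := by
  have e1 : det3 δ e a = det3 (fun j => δ j - t * E j) e a +
      det3 (fun j => t * (E j - e j)) e a := by
    unfold det3
    ring
  rw [e1]
  refine (abs_add_le _ _).trans ?_
  have g1 := det3_le h1 he ha
  have g2 := det3_le (fun j => abs_mul_le hτ (h2 j)) he ha
  have e2 : 6 * D ^ 2 * ρ + 6 * D ^ 2 * (τ * η) = 6 * (ρ * D * D) + 6 * (τ * η * D * D) := by ring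
  rw [e2]
  linarith

/-- **Cramer.** -/
theorem cramer (δ a b c : Fin 3 → ℝ) (j : Fin 3) :
    det3 a b c * δ j = det3 δ b c * a j + det3 a δ c * b j + det3 a b δ * c j := by
  unfold det3
  fin_cases j
  · simp only [Fin.zero_eta]
    ring
  · simp only [Fin.mk_one]
    ring
  · simp only [Fin.reduceFinMk]
    ring

/-- The determinant of approximations. -/
theorem det3_near {a b c a' b' c' : Fin 3 → ℝ} {D η : ℝ} (ha : ∀ j, |a j| ≤ D)
    (hb : ∀ j, |b j| ≤ D) (hc' : ∀ j, |c' j| ≤ D) (hb' : ∀ j, |b' j| ≤ D)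
    (h1 : ∀ j, |a j - a' j| ≤ η) (h2 : ∀ j, |b j - b' j| ≤ η) (h3 : ∀ j, |c j - c' j| ≤ η) :
    |det3 a b c - det3 a' b' c'| ≤ 18 * D ^ 2 * η := by
  have e : det3 a b c - det3 a' b' c' = det3 a b (fun j => c j - c' j) +
      det3 a (fun j => b j - b' j) c' + det3 (fun j => a j - a' j) b' c' := by
    unfold det3
    ring
  rw [e]
  refine (abs_add_le _ _).trans ?_
  have g0 := abs_add_le (det3 a b (fun j => c j - c' j)) (det3 a (fun j => b j - b' j) c')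
  have g1 := det3_le ha hb h3
  have g2 := det3_le ha h2 hc'
  have g3 := det3_le h1 hb' hc'
  have e2 : 18 * D ^ 2 * η = 6 * (D * D * η) + 6 * (D * η * D) + 6 * (η * D * D) := by ring
  rw [e2]
  linarith

/-- The parts of a vector in a plank. -/
theorem split3 {C₀ ρ r : ℝ} {A A' : Fin 3 → Fin 3 → ℝ} {i0 i1 i2 : Fin 3} (h01 : i0 ≠ i1)
    (h02 : i0 ≠ i2) (h12 : i1 ≠ i2) (inv : ∀ i l, ∑ j, A' i j * A j l = if i = l then 1 else 0)
    (bd : ∀ i j, |A i j| ≤ C₀) (bd' : ∀ i j, |A' i j| ≤ C₀) (δ : Fin 3 → ℝ)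
    (h1 : |∑ j, A i1 j * δ j| ≤ ρ) (h2 : |∑ j, A i2 j * δ j| ≤ ρ) (hr : ∀ j, |δ j| ≤ r) :
    ∃ t : ℝ, |t| ≤ 3 * C₀ * r ∧ ∀ j, |δ j - t * A' j i0| ≤ 2 * C₀ * ρ := by
  refine ⟨∑ j, A i0 j * δ j, dot_le (bd i0) hr, fun j => ?_⟩
  have e1 : δ j = ∑ k, A' j k * ∑ l, A k l * δ l := by
    have e2 : ∀ k, A' j k * ∑ l, A k l * δ l = ∑ l, A' j k * A k l * δ l := by
      intro k
      rw [Finset.mul_sum]
      exact Finset.sum_congr rfl fun l _ => by ring
    rw [Finset.sum_congr rfl fun k _ => e2 k, Finset.sum_comm]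
    have e3 : ∀ l, ∑ k, A' j k * A k l * δ l = (if j = l then 1 else 0) * δ l := by
      intro l
      rw [← Finset.sum_mul, inv]
    rw [Finset.sum_congr rfl fun l _ => e3 l]
    simp
  have e4 := sum3 h01 h02 h12 (fun k => A' j k * ∑ l, A k l * δ l)
  rw [← e1] at e4
  have e5 : δ j - (∑ j, A i0 j * δ j) * A' j i0 = A' j i1 * (∑ l, A i1 l * δ l) +
      A' j i2 * (∑ l, A i2 l * δ l) := by
    rw [e4]
    ring
  rw [e5]
  refine (abs_add_le _ _).trans ?_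
  have g1 := abs_mul_le (bd' j i1) h1
  have g2 := abs_mul_le (bd' j i2) h2
  linarith

end Pool.XF
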