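import Pool.Agent.H81.XF.Geo

/-!
# Three planks of one line: multilinear Kakeya for entropies

`Y` is a function of the line `l`; `B` determines `Y` in the cells up to the direction `E`, to
`K * s` digits; `E` is any function of the sample (not of the line). If the directions of three
samples of one line are linearly independent, the entropy of `Y` given `B` is at most a third of
the entropy of `Y`.
-/

set_option autoImplicit false

namespace Pool.XF

open Finset Real
open Pool.Agent.H49.Ent Pool.Agent.H32.Dense Pool.STK Pool.KA Pool.KSAT Pool.K2S Pool.PC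

/-- Digits. -/
noncomputable def dg {Ω : Type} (N : ℕ) (Y : Ω → Fin 2 → Fin 3 → ℝ) (ω : Ω)
    (i : Fin 2 × Fin 3) : ℤ := ⌊(2 : ℝ) ^ N * Y ω i.1 i.2⌋

/-- Rounded directions. -/
noncomputable def rdir {Ω : Type} (s : ℕ) (E : Ω → Fin 3 → ℝ) (ω : Ω) (j : Fin 3) : ℤ :=
  ⌊(2 : ℝ) ^ s * E ω j⌋

/-- The vector of a rounded direction. -/
noncomputable def vdir (s : ℕ) (σ : Fin 3 → ℤ) (j : Fin 3) : ℝ := σ j / 2 ^ s

theorem vdir_near {Ω : Type} (s : ℕ) (E : Ω → Fin 3 → ℝ) (ω : Ω) (j : Fin 3) :
    |E ω j - vdir s (rdir s E ω) j| ≤ 1 / 2 ^ s := by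
  have h := (show (0 : ℝ) < 2 ^ s by positivity)
  have f1 := Int.floor_le ((2 : ℝ) ^ s * E ω j)
  have f2 := Int.lt_floor_add_one ((2 : ℝ) ^ s * E ω j)
  have e : E ω j - vdir s (rdir s E ω) j = (2 ^ s * E ω j - ⌊(2 : ℝ) ^ s * E ω j⌋) / 2 ^ s := by
    unfold vdir rdir
    field_simp
  rw [e, abs_div, abs_of_pos h, abs_of_nonneg (by linarith)]
  exact div_le_div_of_nonneg_right (by linarith) h.le

theorem Pe_mono_pos {Ω : Type} [Fintype Ω] {p : Ω → ℝ} (hp : ∀ ω, 0 ≤ p ω) {A B : Ω → Prop}
    (h : ∀ ω, 0 < p ω → A ω → B ω) : Pe p A ≤ Pe p B := by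
  classical
  rw [Pe_eq, Pe_eq]
  refine Finset.sum_le_sum fun ω _ => ?_
  by_cases hA : A ω
  · rw [if_pos hA]
    rcases (hp ω).eq_or_lt with h0 | h0
    · rw [← h0]
      split_ifs <;> simp
    · rw [if_pos (h ω h0 hA)]
  · rw [if_neg hA]
    split_ifs
    exacts [hp ω, le_rfl]

theorem dg_crs {Ω : Type} {N N' : ℕ} (h : N ≤ N') {Y : Ω → Fin 2 → Fin 3 → ℝ} {ω ω' : Ω}
    (hd : dg N' Y ω = dg N' Y ω') : dg N Y ω = dg N Y ω' := by
  funext i
  have h1 : fl N' (fun _ : Fin 1 => Y ω i.1 i.2) = fl N' (fun _ : Fin 1 => Y ω' i.1 i.2) := by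
    funext k
    exact congrFun hd i
  exact congrFun (fl_crs h h1) 0

theorem dg_same {Ω : Type} {N : ℕ} {Y : Ω → Fin 2 → Fin 3 → ℝ} {ω ω' : Ω}
    (h : dg N Y ω = dg N Y ω') (a : Fin 2) (j : Fin 3) : |Y ω a j - Y ω' a j| ≤ 1 / 2 ^ N :=
  floor_same (congrFun h (a, j))

open Classical in
/-- **Multilinear Kakeya for entropies**, three planks of one line. -/
theorem kak3 (C₁ : ℝ) (hC₁ : 1 ≤ C₁) : ∃ (C : ℝ) (L : ℕ), 0 ≤ C ∧
    ∀ (Ω S T U : Type) [Fintype Ω] (p : Ω → ℝ) (l : Ω → S) (b : Ω → T) (B : Ω → U)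
      (Y : Ω → Fin 2 → Fin 3 → ℝ) (E : Ω → Fin 3 → ℝ) (K s x : ℕ) (p₁ : ℝ),
      IsLaw p → Det p l b → Det p l Y →
      (∀ ω, 0 < p ω → ∀ j, |E ω j| ≤ C₁) →
      (∀ ω ω', 0 < p ω → 0 < p ω' → b ω = b ω' → ∀ a j, |Y ω a j - Y ω' a j| ≤ 1) →
      (∀ ω ω', 0 < p ω → 0 < p ω' → b ω = b ω' → B ω = B ω' → ∀ r : ℝ,
        (∀ a j, |Y ω a j - Y ω' a j| ≤ r) → ∀ a, ∃ t : ℝ, |t| ≤ C₁ * r ∧
          ∀ j, |Y ω a j - Y ω' a j - t * E ω j| ≤ C₁ / 2 ^ (K * s)) →
      x + L ≤ s →
      Pe (tri p l) (fun u => |det3 (E u.1.1) (E u.1.2) (E u.2)| ≤ 1 / 2 ^ x) ≤ p₁ →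
      3 * CH p (dg (K * s) Y) (fun ω => (B ω, b ω)) ≤ CH p (dg (K * s) Y) b +
        C * (s + (x + 1) * K + p₁ * (K * s)) := by
  obtain ⟨D, hD⟩ : ∃ D : ℝ, D = C₁ + 1 := ⟨_, rfl⟩
  have hD1 : 1 ≤ D := by linarith
  obtain ⟨L, hL⟩ : ∃ L : ℕ, 36 * D ^ 2 ≤ 2 ^ L := by
    obtain ⟨L, hL⟩ := pow_unbounded_of_one_lt (36 * D ^ 2) (by norm_num : (1 : ℝ) < 2)
    exact ⟨L, hL.le⟩
  have hlg : ∀ r : ℝ, 1 ≤ r → 0 ≤ Real.log r := fun r hr => Real.log_nonneg hr
  obtain ⟨l1, hl1⟩ : ∃ r, r = Real.log (2 * (12 * D ^ 2 * C₁ + 1) + 1) := ⟨_, rfl⟩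
  obtain ⟨l3, hl3⟩ : ∃ r, r = Real.log (2 * (6 * D ^ 2 + 1) + 1) := ⟨_, rfl⟩
  obtain ⟨l4, hl4⟩ : ∃ r, r = Real.log (12 * D + 3) := ⟨_, rfl⟩
  obtain ⟨l5, hl5⟩ : ∃ r, r = Real.log (4 * C₁ + 3) := ⟨_, rfl⟩
  have hl10 : 0 ≤ l1 := by
    rw [hl1]
    refine hlg _ ?_
    have : 0 ≤ D ^ 2 * C₁ := by positivity
    linarith
  have hl30 : 0 ≤ l3 := by
    rw [hl3]
    refine hlg _ ?_
    have : 0 ≤ D ^ 2 := by positivity
    linarith
  have hl40 : 0 ≤ l4 := by
    rw [hl4]
    exact hlg _ (by linarith)
  have hl50 : 0 ≤ l5 := by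
    rw [hl5]
    exact hlg _ (by linarith)
  have h50 : 0 ≤ Real.log 5 := hlg 5 (by norm_num)
  have hlog2 : Real.log 2 ≤ 1 := by
    have := Real.log_two_lt_d9
    linarith
  exact by
   have hlog20 : 0 ≤ Real.log 2 := hlg 2 (by norm_num)
   refine ⟨27 * (1 + l5) + 18 * Real.log 5 + 12 * l1 + 18 * (1 + l4) + 18 * (1 + Real.log 5) +
     6 * l3, L + 1, by positivity, ?_⟩
   intro Ω S T U _ p l b B Y E K s x p₁ hp hlb hlY hE hb1 hpl hxs hp1
   have hp0 := hp.nonneg
   have hs1 : 1 ≤ s := by omega
   -- the triples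
   obtain ⟨q, hq⟩ : ∃ q, q = tri p l := ⟨_, rfl⟩
   rw [← hq] at hp1
   have hq0 : ∀ u, 0 ≤ q u := by rw [hq]; exact tri_nonneg hp0
   have m1 : Marg q p (fun u => u.1.1) := by rw [hq]; exact tri_1 hp0
   have m2 : Marg q p (fun u => u.1.2) := by rw [hq]; exact tri_2 hp0
   have m3 : Marg q p (fun u => u.2) := by rw [hq]; exact tri_3 hp0
   have hql : IsLaw q := ⟨hq0, by rw [m1.sum]; exact hp.sum_one⟩
   have p1 : ∀ u, 0 < q u → 0 < p u.1.1 := fun u hu => m1.pos hq0 hu
   have p2 : ∀ u, 0 < q u → 0 < p u.1.2 := fun u hu => m2.pos hq0 hu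
   have p3 : ∀ u, 0 < q u → 0 < p u.2 := fun u hu => m3.pos hq0 hu
   have l12 : ∀ u, 0 < q u → l u.1.1 = l u.1.2 := fun u hu => by
     rw [hq] at hu
     exact tri_eq12 hp0 hu
   have l13 : ∀ u, 0 < q u → l u.1.1 = l u.2 := fun u hu => by
     rw [hq] at hu
     exact tri_eq13 hp0 hu
   have b12 : ∀ u, 0 < q u → b u.1.1 = b u.1.2 := fun u hu =>
     hlb _ _ (p1 u hu) (p2 u hu) (l12 u hu)
   have b13 : ∀ u, 0 < q u → b u.1.1 = b u.2 := fun u hu =>
     hlb _ _ (p1 u hu) (p3 u hu) (l13 u hu)
   have y12 : ∀ u, 0 < q u → Y u.1.1 = Y u.1.2 := fun u hu =>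
     hlY _ _ (p1 u hu) (p2 u hu) (l12 u hu)
   have y13 : ∀ u, 0 < q u → Y u.1.1 = Y u.2 := fun u hu =>
     hlY _ _ (p1 u hu) (p3 u hu) (l13 u hu)
   exact by
    have hp10 : 0 ≤ p₁ := (Pe_nonneg hql _).trans hp1
    -- the variables
    obtain ⟨X, hX⟩ : ∃ X : ℕ → ((Ω × Ω) × Ω) → Fin 2 × Fin 3 → ℤ,
      X = fun k u => dg (k * s) Y u.1.1 := ⟨_, rfl⟩
    obtain ⟨σ, hσ⟩ : ∃ σ : ((Ω × Ω) × Ω) → (Fin 3 → ℤ) × ((Fin 3 → ℤ) × (Fin 3 → ℤ)),
      σ = fun u => (rdir s E u.1.1, (rdir s E u.1.2, rdir s E u.2)) := ⟨_, rfl⟩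
    obtain ⟨W, hW⟩ : ∃ W : ((Ω × Ω) × Ω) → ((Fin 3 → ℤ) × ((Fin 3 → ℤ) × (Fin 3 → ℤ))) × T,
      W = fun u => (σ u, b u.1.1) := ⟨_, rfl⟩
    obtain ⟨e1, he1⟩ : ∃ e : ((Ω × Ω) × Ω) → Fin 3 → ℝ, e = fun u => vdir s (σ u).1 := ⟨_, rfl⟩
    obtain ⟨e2, he2⟩ : ∃ e : ((Ω × Ω) × Ω) → Fin 3 → ℝ, e = fun u => vdir s (σ u).2.1 := ⟨_, rfl⟩
    obtain ⟨e3, he3⟩ : ∃ e : ((Ω × Ω) × Ω) → Fin 3 → ℝ, e = fun u => vdir s (σ u).2.2 := ⟨_, rfl⟩
    have n1 : ∀ u j, |E u.1.1 j - e1 u j| ≤ 1 / 2 ^ s := fun u j => by
      rw [he1, hσ]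
      exact vdir_near s E u.1.1 j
    have n2 : ∀ u j, |E u.1.2 j - e2 u j| ≤ 1 / 2 ^ s := fun u j => by
      rw [he2, hσ]
      exact vdir_near s E u.1.2 j
    have n3 : ∀ u j, |E u.2 j - e3 u j| ≤ 1 / 2 ^ s := fun u j => by
      rw [he3, hσ]
      exact vdir_near s E u.2 j
    have h1s : (1 : ℝ) / 2 ^ s ≤ 1 := by
      rw [div_le_one (by positivity)]
      exact one_le_pow₀ (by norm_num)
    have bdd : ∀ {r r' : ℝ}, |r| ≤ C₁ → |r - r'| ≤ 1 / 2 ^ s → |r'| ≤ D := by
      intro r r' h1 h2
      have h3 : r' = r - (r - r') := by ring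
      rw [h3, hD]
      exact (abs_sub _ _).trans (add_le_add h1 (h2.trans h1s))
    have d1 : ∀ u, 0 < q u → ∀ j, |e1 u j| ≤ D := fun u hu j => bdd (hE _ (p1 u hu) j) (n1 u j)
    have d2 : ∀ u, 0 < q u → ∀ j, |e2 u j| ≤ D := fun u hu j => bdd (hE _ (p2 u hu) j) (n2 u j)
    exact by
     have d3 : ∀ u, 0 < q u → ∀ j, |e3 u j| ≤ D := fun u hu j => bdd (hE _ (p3 u hu) j) (n3 u j)
     obtain ⟨Bad, hBad⟩ : ∃ Bad : ((Ω × Ω) × Ω) → Prop,
       Bad = fun u => |det3 (e1 u) (e2 u) (e3 u)| ≤ 1 / 2 ^ (x + 1) := ⟨_, rfl⟩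
     have hPB : Pe q Bad ≤ p₁ := by
       refine (Pe_mono_pos hq0 fun u hu hB => ?_).trans hp1
       have hB2 : |det3 (e1 u) (e2 u) (e3 u)| ≤ 1 / 2 ^ (x + 1) := by
         rw [hBad] at hB
         exact hB
       show |det3 (E u.1.1) (E u.1.2) (E u.2)| ≤ 1 / 2 ^ x
       have g1 : ∀ j, |E u.1.1 j| ≤ D := fun j => (hE _ (p1 u hu) j).trans (by linarith only [hD])
       have g2 : ∀ j, |E u.1.2 j| ≤ D := fun j => (hE _ (p2 u hu) j).trans (by linarith only [hD])
       have g3 := det3_near g1 g2 (d3 u hu) (d2 u hu) (n1 u) (n2 u) (n3 u)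
       have g4 : 18 * D ^ 2 * (1 / 2 ^ s) ≤ 1 / 2 ^ (x + 1) := by
         have h1 : (2 : ℝ) ^ (x + 1 + L) ≤ 2 ^ s := pow_le_pow_right₀ (by norm_num) (by omega)
         rw [mul_one_div, div_le_div_iff₀ (by positivity) (by positivity), one_mul]
         rw [pow_add] at h1
         have h2 : (0 : ℝ) < 2 ^ (x + 1) := by positivity
         have h3 := mul_le_mul_of_nonneg_left hL h2.le
         nlinarith only [h1, h3, h2]
       have g5 : (1 : ℝ) / 2 ^ x = 1 / 2 ^ (x + 1) + 1 / 2 ^ (x + 1) := by
         rw [pow_succ]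
         field_simp
         norm_num
       have g6 : det3 (E u.1.1) (E u.1.2) (E u.2) = (det3 (E u.1.1) (E u.1.2) (E u.2) -
         det3 (e1 u) (e2 u) (e3 u)) + det3 (e1 u) (e2 u) (e3 u) := by ring
       rw [g6, g5]
       exact (abs_add_le _ _).trans (add_le_add (g3.trans g4) hB2)
     -- the coordinates
     obtain ⟨c1, hc1⟩ : ∃ c : ℕ → ((Ω × Ω) × Ω) → Fin 2 → ℤ, c = fun N u a => if Bad u then 0 else
       ⌊(2 : ℝ) ^ N * det3 (Y u.1.1 a) (e2 u) (e3 u)⌋ := ⟨_, rfl⟩
     exact by
      obtain ⟨c2, hc2⟩ : ∃ c : ℕ → ((Ω × Ω) × Ω) → Fin 2 → ℤ, c = fun N u a => if Bad u then 0 else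
        ⌊(2 : ℝ) ^ N * det3 (e1 u) (Y u.1.1 a) (e3 u)⌋ := ⟨_, rfl⟩
      obtain ⟨c3, hc3⟩ : ∃ c : ℕ → ((Ω × Ω) × Ω) → Fin 2 → ℤ, c = fun N u a => if Bad u then 0 else
        ⌊(2 : ℝ) ^ N * det3 (e1 u) (e2 u) (Y u.1.1 a)⌋ := ⟨_, rfl⟩
      have hσW : ∀ u u', W u = W u' → σ u = σ u' := by
        intro u u' h
        rw [hW] at h
        exact (Prod.ext_iff.mp h).1
      have hbW : ∀ u u', W u = W u' → b u.1.1 = b u'.1.1 := by
        intro u u' h
        rw [hW] at h
        exact (Prod.ext_iff.mp h).2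
      have ee : ∀ u u', σ u = σ u' → e1 u = e1 u' ∧ e2 u = e2 u' ∧ e3 u = e3 u' ∧
          (Bad u ↔ Bad u') := by
        intro u u' h
        have k1 : e1 u = e1 u' := by rw [he1]; dsimp only; rw [h]
        have k2 : e2 u = e2 u' := by rw [he2]; dsimp only; rw [h]
        have k3 : e3 u = e3 u' := by rw [he3]; dsimp only; rw [h]
        refine ⟨k1, k2, k3, ?_⟩
        rw [hBad]
        dsimp only
        rw [k1, k2, k3]
      -- a general bound for one coordinate
      have cst : ∀ (N : ℕ) (M : ℝ) (u u' : (Ω × Ω) × Ω) (f f' : ℝ), 0 ≤ M → (Bad u ↔ Bad u') →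
          |f - f'| ≤ M / 2 ^ N →
          |(((if Bad u then 0 else ⌊(2 : ℝ) ^ N * f⌋) -
            (if Bad u' then 0 else ⌊(2 : ℝ) ^ N * f'⌋) : ℤ) : ℝ)| ≤ M + 1 := by
        intro N M u u' f f' hM hbb hf
        by_cases hB : Bad u
        · rw [if_pos hB, if_pos (hbb.1 hB), sub_zero, Int.cast_zero, abs_zero]
          linarith only [hM]
        · rw [if_neg hB, if_neg (fun h => hB (hbb.2 h))]
          exact floor_close hf
      exact by
       have hN : ∀ k, ((k + 1 : ℕ) * s : ℕ) = k * s + s := fun k => by ring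
       -- one block
       have step : ∀ k < K, CH q (X (k + 1)) (fun u => (B u.1.1, (X k u, W u))) +
           CH q (X (k + 1)) (fun u => (B u.1.2, (X k u, W u))) +
           CH q (X (k + 1)) (fun u => (B u.2, (X k u, W u))) ≤
           CH q (X (k + 1)) (fun u => (X k u, W u)) + (3 * (4 * l1) +
             3 * (6 * ((x * Real.log 2 + l4) + p₁ * (s * Real.log 2 + Real.log 5))) + 6 * l3) := by
         intro k hk
         obtain ⟨N, hNk⟩ : ∃ N, N = (k + 1) * s := ⟨_, rfl⟩
         have hNK : N ≤ K * s := by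
           rw [hNk]
           exact Nat.mul_le_mul_right s hk
         have hr : (1 : ℝ) / 2 ^ (k * s) * (1 / 2 ^ s) = 1 / 2 ^ N := by
           rw [hNk, hN, pow_add]
           field_simp
         have hD2 : (0 : ℝ) ≤ D ^ 2 := by positivity
         -- differences of `Y` in one cell
         have cell : ∀ u u', X k u = X k u' → ∀ a j, |Y u.1.1 a j - Y u'.1.1 a j| ≤ 1 / 2 ^ (k * s) := by
           intro u u' h a j
           rw [hX] at h
           exact dg_same h a j
         -- differences of `Y` in one plank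
         have plk : ∀ {δ e E' a : Fin 3 → ℝ} {t : ℝ}, |t| ≤ C₁ * (1 / 2 ^ (k * s)) →
             (∀ j, |δ j - t * E' j| ≤ C₁ / 2 ^ (K * s)) → (∀ j, |E' j - e j| ≤ 1 / 2 ^ s) →
             (∀ j, |e j| ≤ D) → (∀ j, |a j| ≤ D) → |det3 δ e a| ≤ 12 * D ^ 2 * C₁ / 2 ^ N := by
           intro δ e E' a t h1 h2 h3 h4 h5
           refine (det3_par h1 h2 h3 h4 h5).trans ?_
           have k1 : C₁ / (2 : ℝ) ^ (K * s) ≤ C₁ / 2 ^ N :=
             div_le_div_of_nonneg_left (by linarith only [hC₁]) (by positivity)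
               (pow_le_pow_right₀ (by norm_num) hNK)
           have k2 : C₁ * (1 / (2 : ℝ) ^ (k * s)) * (1 / 2 ^ s) = C₁ / 2 ^ N := by
             rw [mul_assoc, hr]
             ring
           rw [k2]
           have k3 := mul_le_mul_of_nonneg_left k1 (show 0 ≤ 6 * D ^ 2 by linarith only [hD2])
           have k4 : 12 * D ^ 2 * C₁ / 2 ^ N = 6 * D ^ 2 * (C₁ / 2 ^ N) + 6 * D ^ 2 * (C₁ / 2 ^ N) := by
             ring
           rw [k4]
           linarith only [k3]
         have hM1 : 0 ≤ 12 * D ^ 2 * C₁ := by positivity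
         -- the determination of a coordinate by a plank
         have pr : ∀ (f g : ((Ω × Ω) × Ω) → Fin 2 → ℤ) (Bi : ((Ω × Ω) × Ω) → U),
             (∀ u u', 0 < q u → 0 < q u' → Bi u = Bi u' → X k u = X k u' → W u = W u' → ∀ a,
               |((f u a - f u' a : ℤ) : ℝ)| ≤ 12 * D ^ 2 * C₁ + 1 ∧
               |((g u a - g u' a : ℤ) : ℝ)| ≤ 12 * D ^ 2 * C₁ + 1) →
             CH q (fun u => (f u, g u)) (fun u => (Bi u, (X k u, W u))) ≤ 4 * l1 := by
           intro f g Bi h
           have k1 := CH_subadd hq0 f g (fun u => (Bi u, (X k u, W u)))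
           have k2 := CH_bI hql f (fun u => (Bi u, (X k u, W u))) (12 * D ^ 2 * C₁ + 1) (by linarith only [hM1])
             (fun u u' hu hu' he a => by
               simp only [Prod.mk.injEq] at he
               exact (h u u' hu hu' he.1 he.2.1 he.2.2 a).1)
           have k3 := CH_bI hql g (fun u => (Bi u, (X k u, W u))) (12 * D ^ 2 * C₁ + 1) (by linarith only [hM1])
             (fun u u' hu hu' he a => by
               simp only [Prod.mk.injEq] at he
               exact (h u u' hu hu' he.1 he.2.1 he.2.2 a).2)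
           rw [← hl1, Fintype.card_fin] at k2 k3
           push_cast at k2 k3
           linarith only [k1, k2, k3]
         have key := joint_block hq0 (X (k + 1)) (c1 N) (c2 N) (c3 N) (fun u => B u.1.1)
           (fun u => B u.1.2) (fun u => B u.2) (fun u => (X k u, W u)) (e1 := 4 * l1)
           (e2 := 6 * ((x * Real.log 2 + l4) + p₁ * (s * Real.log 2 + Real.log 5))) (e3 := 6 * l3)
           ?_ ?_ ?_ ?_ ?_
         · exact key
         · -- the coordinates determine the cell
           have hM2 : (0 : ℝ) ≤ 6 * D * 2 ^ x + 1 := by positivity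
           have g := CH_gI hql (X (k + 1)) (fun u => ((c1 N u, (c2 N u, c3 N u)), (X k u, W u)))
             Bad (6 * D * 2 ^ x + 1) (2 ^ s + 1) p₁ hM2 (by positivity) hPB ?_ ?_
           · refine g.trans ?_
             rw [Fintype.card_prod, Fintype.card_fin, Fintype.card_fin]
             have g1 : Real.log (2 * (6 * D * 2 ^ x + 1) + 1) ≤ x * Real.log 2 + l4 := by
               have h1 : 2 * (6 * D * 2 ^ x + 1) + 1 ≤ (2 : ℝ) ^ x * (12 * D + 3) := by
                 have : (1 : ℝ) ≤ 2 ^ x := one_le_pow₀ (by norm_num)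
                 nlinarith only [this]
               refine (Real.log_le_log (by positivity) h1).trans ?_
               rw [Real.log_mul (by positivity) (by positivity), Real.log_pow, hl4]
             have g2 : Real.log (2 * ((2 : ℝ) ^ s + 1) + 1) ≤ s * Real.log 2 + Real.log 5 := by
               have h1 : 2 * ((2 : ℝ) ^ s + 1) + 1 ≤ (2 : ℝ) ^ s * 5 := by
                 have : (1 : ℝ) ≤ 2 ^ s := one_le_pow₀ (by norm_num)
                 nlinarith only [this]
               refine (Real.log_le_log (by positivity) h1).trans ?_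
               rw [Real.log_mul (by positivity) (by positivity), Real.log_pow]
             have g3 := mul_le_mul_of_nonneg_left g2 hp10
             push_cast
             linarith only [g1, g3]
           · intro u u' hu hu' he hB i
             simp only [Prod.mk.injEq] at he
             obtain ⟨⟨h1, h2, h3⟩, h4, h5⟩ := he
             obtain ⟨k1, k2, k3, k4⟩ := ee u u' (hσW u u' h5)
             have hB' : ¬ Bad u' := fun h => hB (k4.2 h)
             obtain ⟨a, j⟩ := i
             rw [hX]
             show |((⌊(2 : ℝ) ^ ((k + 1) * s) * Y u.1.1 a j⌋ -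
               ⌊(2 : ℝ) ^ ((k + 1) * s) * Y u'.1.1 a j⌋ : ℤ) : ℝ)| ≤ _
             rw [← hNk]
             refine floor_close ?_
             have r1 := congrFun h1 a
             have r2 := congrFun h2 a
             have r3 := congrFun h3 a
             rw [hc1] at r1
             rw [hc2] at r2
             rw [hc3] at r3
             simp only [if_neg hB, if_neg hB'] at r1 r2 r3
             have t1 := floor_same r1
             have t2 := floor_same r2
             have t3 := floor_same r3
             rw [← k2, ← k3, ← det3_sub] at t1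
             rw [← k1, ← k3, ← det3_sub2] at t2
             rw [← k1, ← k2, ← det3_sub3] at t3
             have cr := cramer (fun j => Y u.1.1 a j - Y u'.1.1 a j) (e1 u) (e2 u) (e3 u) j
             have hdet : 1 / 2 ^ (x + 1) < |det3 (e1 u) (e2 u) (e3 u)| := by
               rw [hBad] at hB
               exact not_le.mp hB
             have g1 : |det3 (e1 u) (e2 u) (e3 u) * (Y u.1.1 a j - Y u'.1.1 a j)| ≤
                 3 * (1 / 2 ^ N * D) := by
               rw [cr]
               have s1 := abs_mul_le t1 (d1 u hu j)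
               have s2 := abs_mul_le t2 (d2 u hu j)
               have s3 := abs_mul_le t3 (d3 u hu j)
               refine (abs_add_le _ _).trans ?_
               have s4 := abs_add_le (det3 (fun j => Y u.1.1 a j - Y u'.1.1 a j) (e2 u) (e3 u) * e1 u j)
                 (det3 (e1 u) (fun j => Y u.1.1 a j - Y u'.1.1 a j) (e3 u) * e2 u j)
               linarith only [s1, s2, s3, s4]
             rw [abs_mul] at g1
             have g2 : 1 / 2 ^ (x + 1) * |Y u.1.1 a j - Y u'.1.1 a j| ≤ 3 * (1 / 2 ^ N * D) :=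
               (mul_le_mul_of_nonneg_right hdet.le (abs_nonneg _)).trans g1
             have g3 : 6 * D * 2 ^ x / 2 ^ N = 2 ^ (x + 1) * (3 * (1 / 2 ^ N * D)) := by
               rw [pow_succ]
               ring
             rw [g3]
             rw [one_div_mul_eq_div, div_le_iff₀ (by positivity)] at g2
             linarith only [g2]
           · intro u u' hu hu' he i
             simp only [Prod.mk.injEq] at he
             obtain ⟨a, j⟩ := i
             have g := cell u u' he.2.1 a j
             rw [hX]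
             show |((⌊(2 : ℝ) ^ ((k + 1) * s) * Y u.1.1 a j⌋ -
               ⌊(2 : ℝ) ^ ((k + 1) * s) * Y u'.1.1 a j⌋ : ℤ) : ℝ)| ≤ _
             refine floor_close (g.trans (le_of_eq ?_))
             rw [hN, pow_add]
             field_simp
         · -- the cell determines the coordinates
           have one : ∀ f : ((Ω × Ω) × Ω) → Fin 2 → ℤ,
               (∀ u u', 0 < q u → 0 < q u' → X (k + 1) u = X (k + 1) u' → W u = W u' → ∀ a,
                 |((f u a - f u' a : ℤ) : ℝ)| ≤ 6 * D ^ 2 + 1) →
               CH q f (fun u => (X (k + 1) u, (X k u, W u))) ≤ 2 * l3 := by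
             intro f h
             have k2 := CH_bI hql f (fun u => (X (k + 1) u, (X k u, W u))) (6 * D ^ 2 + 1)
               (by linarith only [hD2]) (fun u u' hu hu' he a => by
                 simp only [Prod.mk.injEq] at he
                 exact h u u' hu hu' he.1 he.2.2 a)
             rw [← hl3, Fintype.card_fin] at k2
             push_cast at k2
             exact k2
           have fin : ∀ u u', X (k + 1) u = X (k + 1) u' → ∀ a j,
               |Y u.1.1 a j - Y u'.1.1 a j| ≤ 1 / 2 ^ N := by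
             intro u u' h a j
             rw [hX] at h
             rw [hNk]
             exact dg_same h a j
           have e6 : 6 * D ^ 2 / 2 ^ N = 6 * (1 / 2 ^ N * D * D) := by ring
           have o1 := one (c1 N) fun u u' hu hu' h h' a => by
             obtain ⟨k1, k2, k3, k4⟩ := ee u u' (hσW u u' h')
             rw [hc1]
             refine cst N (6 * D ^ 2) u u' _ _ (by linarith only [hD2]) k4 ?_
             rw [← k2, ← k3, ← det3_sub, e6]
             exact det3_le (fin u u' h a) (d2 u hu) (d3 u hu)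
           have o2 := one (c2 N) fun u u' hu hu' h h' a => by
             obtain ⟨k1, k2, k3, k4⟩ := ee u u' (hσW u u' h')
             rw [hc2]
             refine cst N (6 * D ^ 2) u u' _ _ (by linarith only [hD2]) k4 ?_
             rw [← k1, ← k3, ← det3_sub2]
             refine (det3_le (d1 u hu) (fin u u' h a) (d3 u hu)).trans (le_of_eq ?_)
             ring
           have o3 := one (c3 N) fun u u' hu hu' h h' a => by
             obtain ⟨k1, k2, k3, k4⟩ := ee u u' (hσW u u' h')
             rw [hc3]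
             refine cst N (6 * D ^ 2) u u' _ _ (by linarith only [hD2]) k4 ?_
             rw [← k1, ← k2, ← det3_sub3]
             refine (det3_le (d1 u hu) (d2 u hu) (fin u u' h a)).trans (le_of_eq ?_)
             ring
           have s1 := CH_subadd hq0 (c1 N) (fun u => (c2 N u, c3 N u))
             (fun u => (X (k + 1) u, (X k u, W u)))
           have s2 := CH_subadd hq0 (c2 N) (c3 N) (fun u => (X (k + 1) u, (X k u, W u)))
           linarith only [o1, o2, o3, s1, s2]
         · -- first plank
           refine pr (c2 N) (c3 N) _ fun u u' hu hu' h h' h'' a => ?_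
           obtain ⟨k1, k2, k3, k4⟩ := ee u u' (hσW u u' h'')
           obtain ⟨t, ht, ht'⟩ := hpl u.1.1 u'.1.1 (p1 u hu) (p1 u' hu') (hbW u u' h'') h
             (1 / 2 ^ (k * s)) (cell u u' h') a
           constructor
           · rw [hc2]
             refine cst N (12 * D ^ 2 * C₁) u u' _ _ hM1 k4 ?_
             rw [← k1, ← k3, ← det3_sub2, det3_swap12, abs_neg]
             exact plk ht ht' (n1 u) (d1 u hu) (d3 u hu)
           · rw [hc3]
             refine cst N (12 * D ^ 2 * C₁) u u' _ _ hM1 k4 ?_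
             rw [← k1, ← k2, ← det3_sub3, det3_rot]
             exact plk ht ht' (n1 u) (d1 u hu) (d2 u hu)
         · -- second plank
           refine pr (c1 N) (c3 N) _ fun u u' hu hu' h h' h'' a => ?_
           obtain ⟨k1, k2, k3, k4⟩ := ee u u' (hσW u u' h'')
           have hb : b u.1.2 = b u'.1.2 := by
             rw [← b12 u hu, ← b12 u' hu']
             exact hbW u u' h''
           obtain ⟨t, ht, ht'⟩ := hpl u.1.2 u'.1.2 (p2 u hu) (p2 u' hu') hb h
             (1 / 2 ^ (k * s)) (fun a j => by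
               rw [← y12 u hu, ← y12 u' hu']
               exact cell u u' h' a j) a
           rw [← y12 u hu, ← y12 u' hu'] at ht'
           constructor
           · rw [hc1]
             refine cst N (12 * D ^ 2 * C₁) u u' _ _ hM1 k4 ?_
             rw [← k2, ← k3, ← det3_sub]
             exact plk ht ht' (n2 u) (d2 u hu) (d3 u hu)
           · rw [hc3]
             refine cst N (12 * D ^ 2 * C₁) u u' _ _ hM1 k4 ?_
             rw [← k1, ← k2, ← det3_sub3, det3_rot, ← det3_rot, det3_swap12, abs_neg, det3_rot]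
             exact plk ht ht' (n2 u) (d2 u hu) (d1 u hu)
         · -- third plank
           refine pr (c1 N) (c2 N) _ fun u u' hu hu' h h' h'' a => ?_
           obtain ⟨k1, k2, k3, k4⟩ := ee u u' (hσW u u' h'')
           have hb : b u.2 = b u'.2 := by
             rw [← b13 u hu, ← b13 u' hu']
             exact hbW u u' h''
           obtain ⟨t, ht, ht'⟩ := hpl u.2 u'.2 (p3 u hu) (p3 u' hu') hb h
             (1 / 2 ^ (k * s)) (fun a j => by
               rw [← y13 u hu, ← y13 u' hu']
               exact cell u u' h' a j) a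
           rw [← y13 u hu, ← y13 u' hu'] at ht'
           constructor
           · rw [hc1]
             refine cst N (12 * D ^ 2 * C₁) u u' _ _ hM1 k4 ?_
             rw [← k2, ← k3, ← det3_sub, ← abs_neg]
             have e : -det3 (fun j => Y u.1.1 a j - Y u'.1.1 a j) (e2 u) (e3 u) =
                 det3 (fun j => Y u.1.1 a j - Y u'.1.1 a j) (e3 u) (e2 u) := by
               unfold det3
               ring
             rw [e]
             exact plk ht ht' (n3 u) (d3 u hu) (d2 u hu)
           · rw [hc2]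
             refine cst N (12 * D ^ 2 * C₁) u u' _ _ hM1 k4 ?_
             rw [← k1, ← k3, ← det3_sub2]
             have e : det3 (e1 u) (fun j => Y u.1.1 a j - Y u'.1.1 a j) (e3 u) =
                 det3 (fun j => Y u.1.1 a j - Y u'.1.1 a j) (e3 u) (e1 u) := by
               unfold det3
               ring
             rw [e]
             exact plk ht ht' (n3 u) (d3 u hu) (d1 u hu)
       exact by
        have all := blocks hq0 K X (fun u => B u.1.1) (fun u => B u.1.2) (fun u => B u.2) W
          (fun k _ u u' _ _ h => by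
            rw [hX] at h ⊢
            refine dg_crs ?_ h
            rw [hN]
            omega) step
        -- the entropy of the directions and of the cell
        have hX0 : CH q (fun u => (X 0 u, σ u)) (fun u => b u.1.1) ≤
            6 * Real.log 5 + 9 * (s * Real.log 2 + l5) := by
          have k1 := CH_subadd hq0 (X 0) σ (fun u => b u.1.1)
          have k2 : CH q (X 0) (fun u => b u.1.1) ≤ 6 * Real.log 5 := by
            have := CH_bI hql (X 0) (fun u => b u.1.1) 2 (by norm_num) fun u u' hu hu' h i => by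
              rw [hX]
              obtain ⟨a, j⟩ := i
              show |((⌊(2 : ℝ) ^ (0 * s) * Y u.1.1 a j⌋ -
                ⌊(2 : ℝ) ^ (0 * s) * Y u'.1.1 a j⌋ : ℤ) : ℝ)| ≤ _
              have g := hb1 _ _ (p1 u hu) (p1 u' hu') h a j
              refine (floor_close (c := 1) (g.trans (le_of_eq ?_))).trans (by norm_num)
              simp
            rw [Fintype.card_prod, Fintype.card_fin, Fintype.card_fin] at this
            refine this.trans (le_of_eq ?_)
            norm_num
          have dir : ∀ pr : ((Ω × Ω) × Ω) → Ω, Marg q p pr → CH q (fun u => rdir s E (pr u))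
              (fun u => b u.1.1) ≤ 3 * (s * Real.log 2 + l5) := by
            intro pr hpr
            have h2s : (0 : ℝ) < 2 ^ s := by positivity
            have := CH_bI hql (fun u => rdir s E (pr u)) (fun u => b u.1.1) (2 * C₁ * 2 ^ s + 1)
              (by positivity) fun u u' hu hu' h j => by
                refine floor_close ?_
                have g1 := hE _ (hpr.pos hq0 hu) j
                have g2 := hE _ (hpr.pos hq0 hu') j
                rw [mul_div_cancel_right₀ _ h2s.ne']
                refine (abs_sub _ _).trans ?_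
                linarith only [g1, g2]
            rw [Fintype.card_fin] at this
            have g2 : Real.log (2 * (2 * C₁ * 2 ^ s + 1) + 1) ≤ s * Real.log 2 + l5 := by
              have h1 : 2 * (2 * C₁ * 2 ^ s + 1) + 1 ≤ (2 : ℝ) ^ s * (4 * C₁ + 3) := by
                have : (1 : ℝ) ≤ 2 ^ s := one_le_pow₀ (by norm_num)
                nlinarith only [this]
              refine (Real.log_le_log (by positivity) h1).trans ?_
              rw [Real.log_mul (by positivity) (by positivity), Real.log_pow, hl5]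
            push_cast at this
            linarith only [this, g2]
          have k3 := CH_subadd hq0 (fun u => rdir s E u.1.1)
            (fun u => (rdir s E u.1.2, rdir s E u.2)) (fun u => b u.1.1)
          have k4 := CH_subadd hq0 (fun u => rdir s E u.1.2) (fun u => rdir s E u.2)
            (fun u => b u.1.1)
          rw [← hσ] at k3
          have k5 := dir _ m1
          have k6 := dir _ m2
          have k7 := dir _ m3
          linarith only [k1, k2, k3, k4, k5, k6, k7]
        exact by
         have fin : ∀ (pr : ((Ω × Ω) × Ω) → Ω), Marg q p pr → (∀ u, 0 < q u → b u.1.1 = b (pr u)) →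
             (∀ u, 0 < q u → Y u.1.1 = Y (pr u)) →
             CH p (dg (K * s) Y) (fun ω => (B ω, b ω)) ≤
               CH q (X K) (fun u => (B (pr u), (X 0 u, W u))) +
                 (6 * Real.log 5 + 9 * (s * Real.log 2 + l5)) := by
           intro pr hpr hb hy
           have k1 : CH p (dg (K * s) Y) (fun ω => (B ω, b ω)) =
               CH q (X K) (fun u => (B (pr u), b u.1.1)) := by
             rw [← hpr.CH (dg (K * s) Y) (fun ω => (B ω, b ω))]
             have eX : ∀ u, 0 < q u → X K u = dg (K * s) Y (pr u) := by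
               intro u hu
               rw [hX]
               unfold dg
               dsimp only
               rw [hy u hu]
             refine CH_congr hq0 ?_ ?_ ?_ ?_
             · intro u u' hu hu' h
               have := (Prod.ext_iff.mp h).1
               simp only at this
               rw [eX u hu, eX u' hu', this]
             · intro u u' hu hu' h
               have := (Prod.ext_iff.mp h).1
               simp only at this
               rw [eX u hu, eX u' hu'] at this
               exact this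
             · intro u u' hu hu' h
               simp only [Prod.mk.injEq] at h ⊢
               rw [hb u hu, hb u' hu']
               exact h
             · intro u u' hu hu' h
               simp only [Prod.mk.injEq] at h ⊢
               rw [hb u hu, hb u' hu'] at h
               exact h
           rw [k1]
           have k2 := CH_le_add hq0 (X K) (fun u => (X 0 u, σ u)) (fun u => (B (pr u), b u.1.1))
           have k3 : CH q (fun u => (X 0 u, σ u)) (fun u => (B (pr u), b u.1.1)) ≤
               CH q (fun u => (X 0 u, σ u)) (fun u => b u.1.1) :=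
             CH_mono_cond hq0 fun u u' _ _ h => (Prod.ext_iff.mp h).2
           have k4 : CH q (X K) (fun u => ((X 0 u, σ u), (B (pr u), b u.1.1))) ≤
               CH q (X K) (fun u => (B (pr u), (X 0 u, W u))) :=
             CH_mono_cond hq0 fun u u' _ _ h => by
               rw [hW]
               simp only [Prod.mk.injEq] at h ⊢
               tauto
           linarith only [hX0, k2, k3, k4]
         exact by
          have f1 := fin _ m1 (fun u _ => rfl) (fun u _ => rfl)
          have f2 := fin _ m2 b12 y12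
          have f3 := fin _ m3 b13 y13
          have f4 : CH q (X K) W ≤ CH p (dg (K * s) Y) b := by
            rw [← m1.CH (dg (K * s) Y) b, hX, hW]
            exact CH_mono_cond hq0 fun u u' _ _ h => (Prod.ext_iff.mp h).2
          have hK0 : (0 : ℝ) ≤ K := Nat.cast_nonneg K
          have hs0 : (1 : ℝ) ≤ s := by exact_mod_cast hs1
          have hx0 : (0 : ℝ) ≤ x := Nat.cast_nonneg x
          have hKs : (K : ℝ) ≤ K * s := by nlinarith only [hs0]
          -- the sum of the errors
          have z1 : (s : ℝ) * Real.log 2 ≤ s := by nlinarith only [hlog2]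
          have z2 : (x : ℝ) * Real.log 2 ≤ x := by nlinarith only [hlog2]
          have z3 : 3 * (6 * Real.log 5 + 9 * (s * Real.log 2 + l5)) ≤
              (27 * (1 + l5) + 18 * Real.log 5) * s := by
            have h1 : l5 ≤ l5 * s := by nlinarith only [hl50, hs0]
            have h2 : Real.log 5 ≤ Real.log 5 * s := by nlinarith only [h50, hs0]
            nlinarith only [z1, h1, h2]
          have z4 : (K : ℝ) * (3 * (4 * l1) +
                3 * (6 * ((x * Real.log 2 + l4) + p₁ * (s * Real.log 2 + Real.log 5))) + 6 * l3) ≤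
              (12 * l1 + 18 * (1 + l4) + 6 * l3) * ((x + 1) * K) +
                18 * (1 + Real.log 5) * (p₁ * (K * s)) := by
            have h1 : (K : ℝ) ≤ (x + 1) * K := by nlinarith only
            have h2 : x * Real.log 2 + l4 ≤ (1 + l4) * (x + 1) := by nlinarith only [z2, hl40]
            have h3 : s * Real.log 2 + Real.log 5 ≤ (1 + Real.log 5) * s := by nlinarith only [z1, h50, hs0]
            have h4 := mul_le_mul_of_nonneg_left h3 (mul_nonneg hK0 hp10)
            have h5 := mul_le_mul_of_nonneg_left h2 hK0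
            have h6 := mul_le_mul_of_nonneg_left h1 hl10
            have h7 := mul_le_mul_of_nonneg_left h1 hl30
            nlinarith only [h4, h5, h6, h7]
          exact by
           have z5 : 0 ≤ (x + 1 : ℝ) * K := by positivity
           have z6 : 0 ≤ p₁ * (K * s) := by positivity
           have z7 : (27 * (1 + l5) + 18 * Real.log 5) * s + ((12 * l1 + 18 * (1 + l4) + 6 * l3) *
               ((x + 1) * K) + 18 * (1 + Real.log 5) * (p₁ * (K * s))) ≤
               (27 * (1 + l5) + 18 * Real.log 5 + 12 * l1 + 18 * (1 + l4) + 18 * (1 + Real.log 5) +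
                 6 * l3) * (s + (x + 1) * K + p₁ * (K * s)) := by
             obtain ⟨α, hα⟩ : ∃ α, α = 27 * (1 + l5) + 18 * Real.log 5 := ⟨_, rfl⟩
             obtain ⟨β, hβ⟩ : ∃ β, β = 12 * l1 + 18 * (1 + l4) + 6 * l3 := ⟨_, rfl⟩
             obtain ⟨γ, hγ⟩ : ∃ γ, γ = 18 * (1 + Real.log 5) := ⟨_, rfl⟩
             have ha : 0 ≤ α := by rw [hα]; positivity
             have hb : 0 ≤ β := by rw [hβ]; positivity
             have hg : 0 ≤ γ := by rw [hγ]; positivity
             have e : 27 * (1 + l5) + 18 * Real.log 5 + 12 * l1 + 18 * (1 + l4) + 18 * (1 + Real.log 5) +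
                 6 * l3 = α + β + γ := by
               rw [hα, hβ, hγ]
               ring
             rw [e, ← hα, ← hβ, ← hγ]
             have hs00 : (0 : ℝ) ≤ s := by linarith only [hs0]
             have t1 := mul_nonneg ha z5
             have t2 := mul_nonneg ha z6
             have t3 := mul_nonneg hb hs00
             have t4 := mul_nonneg hb z6
             have t5 := mul_nonneg hg hs00
             have t6 := mul_nonneg hg z5
             nlinarith only [t1, t2, t3, t4, t5, t6]
           linarith only [all, f1, f2, f3, f4, z3, z4, z7]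

end Pool.XF
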