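import Pool.Agent.H81.XF.Kak

/-!
# Two planks of one line: bilinear Kakeya for entropies, in space

`Y` is a function of the line `l`; `B` determines `Y` in the cells up to the direction `E`, to
`K * s` digits. If the directions of two samples of one line are linearly independent, the entropy
of `Y` given `B` is at most one half of the entropy of `Y`.
-/

set_option autoImplicit false

namespace Pool.XF

open Finset Real
open Pool.Agent.H49.Ent Pool.Agent.H32.Dense Pool.STK Pool.KA Pool.KSAT Pool.K2S Pool.PC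

/-! ## Vector products -/

theorem crs_eq (a b : Fin 3 → ℝ) : crs a b 0 = a 1 * b 2 - a 2 * b 1 ∧
    crs a b 1 = a 2 * b 0 - a 0 * b 2 ∧ crs a b 2 = a 0 * b 1 - a 1 * b 0 := ⟨rfl, rfl, rfl⟩

theorem crs_bd {a b : Fin 3 → ℝ} {α β : ℝ} (ha : ∀ j, |a j| ≤ α) (hb : ∀ j, |b j| ≤ β)
    (j : Fin 3) : |crs a b j| ≤ 2 * (α * β) := by
  have h2 : ∀ i j k l : Fin 3, |a i * b j - a k * b l| ≤ 2 * (α * β) := by
    intro i j k l
    refine (abs_sub _ _).trans ?_
    have h1 := abs_mul_le (ha i) (hb j)
    have h2 := abs_mul_le (ha k) (hb l)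
    linarith
  obtain ⟨e0, e1, e2⟩ := crs_eq a b
  fin_cases j
  · exact e0 ▸ h2 1 2 2 1
  · exact e1 ▸ h2 2 0 0 2
  · exact e2 ▸ h2 0 1 1 0

theorem crs_sub (a a' b : Fin 3 → ℝ) (j : Fin 3) : crs (fun j => a j - a' j) b j =
    crs a b j - crs a' b j := by
  obtain ⟨e0, e1, e2⟩ := crs_eq a b
  obtain ⟨f0, f1, f2⟩ := crs_eq a' b
  obtain ⟨g0, g1, g2⟩ := crs_eq (fun j => a j - a' j) b
  fin_cases j
  · show crs _ b 0 = crs a b 0 - crs a' b 0
    rw [g0, e0, f0]
    ring
  · show crs _ b 1 = crs a b 1 - crs a' b 1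
    rw [g1, e1, f1]
    ring
  · show crs _ b 2 = crs a b 2 - crs a' b 2
    rw [g2, e2, f2]
    ring

/-- A vector which is nearly parallel to `e`. -/
theorem crs_par {δ E e : Fin 3 → ℝ} {t τ ρ η D : ℝ} (hτ : |t| ≤ τ)
    (h1 : ∀ j, |δ j - t * E j| ≤ ρ) (h2 : ∀ j, |E j - e j| ≤ η) (he : ∀ j, |e j| ≤ D)
    (j : Fin 3) : |crs δ e j| ≤ 2 * (ρ * D) + 2 * (τ * η * D) := by
  have e1 : crs δ e j = crs (fun j => δ j - t * E j) e j +
      crs (fun j => t * (E j - e j)) e j := by
    obtain ⟨e0, e1, e2⟩ := crs_eq δ e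
    obtain ⟨f0, f1, f2⟩ := crs_eq (fun j => δ j - t * E j) e
    obtain ⟨g0, g1, g2⟩ := crs_eq (fun j => t * (E j - e j)) e
    fin_cases j
    · show crs δ e 0 = crs _ e 0 + crs _ e 0
      rw [e0, f0, g0]
      ring
    · show crs δ e 1 = crs _ e 1 + crs _ e 1
      rw [e1, f1, g1]
      ring
    · show crs δ e 2 = crs _ e 2 + crs _ e 2
      rw [e2, f2, g2]
      ring
  rw [e1]
  refine (abs_add_le _ _).trans (add_le_add (crs_bd h1 he j) ?_)
  exact crs_bd (fun j => abs_mul_le hτ (h2 j)) he j

/-- A vector whose products with `a` and `b` are small. -/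
theorem crs_rec {δ a b : Fin 3 → ℝ} {ρ D : ℝ} (ha : ∀ j, |a j| ≤ D) (hb : ∀ j, |b j| ≤ D)
    (h1 : ∀ j, |crs δ a j| ≤ ρ) (h2 : ∀ j, |crs δ b j| ≤ ρ) (i κ : Fin 3) :
    |crs a b κ * δ i| ≤ 5 * (D * ρ) := by
  have e1 : crs a b κ * δ i = a i * crs δ b κ - b i * crs δ a κ +
      (if i = κ then ∑ j, b j * crs δ a j else 0) := by
    obtain ⟨e0, e1, e2⟩ := crs_eq a b
    obtain ⟨f0, f1, f2⟩ := crs_eq δ a
    obtain ⟨g0, g1, g2⟩ := crs_eq δ b
    rw [Fin.sum_univ_three]
    fin_cases i <;> fin_cases κ <;>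
    simp only [Fin.zero_eta, Fin.mk_one, Fin.reduceFinMk, Fin.isValue, e0, e1, e2, f0, f1, f2,
      g0, g1, g2, if_true, if_false, Fin.reduceEq] <;> ring
  have g1 := abs_mul_le (ha i) (h2 κ)
  have g2 := abs_mul_le (hb i) (h1 κ)
  have g3 : |if i = κ then ∑ j, b j * crs δ a j else 0| ≤ 3 * (D * ρ) := by
    split_ifs
    · have := dot_le hb h1
      linarith
    · rw [abs_zero]
      have := (abs_nonneg _).trans g1
      linarith
  rw [e1]
  refine (abs_add_le _ _).trans ?_
  have g4 := abs_sub (a i * crs δ b κ) (b i * crs δ a κ)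
  linarith

theorem crs_near {a b a' b' : Fin 3 → ℝ} {D η : ℝ} (ha : ∀ j, |a j| ≤ D)
    (hb' : ∀ j, |b' j| ≤ D) (h1 : ∀ j, |a j - a' j| ≤ η) (h2 : ∀ j, |b j - b' j| ≤ η)
    (j : Fin 3) : |crs a b j - crs a' b' j| ≤ 4 * D * η := by
  have e : crs a b j - crs a' b' j = crs a (fun j => b j - b' j) j +
      crs (fun j => a j - a' j) b' j := by
    obtain ⟨e0, e1, e2⟩ := crs_eq a b
    obtain ⟨f0, f1, f2⟩ := crs_eq a' b'
    obtain ⟨g0, g1, g2⟩ := crs_eq a (fun j => b j - b' j)
    obtain ⟨k0, k1, k2⟩ := crs_eq (fun j => a j - a' j) b'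
    fin_cases j
    · show crs a b 0 - crs a' b' 0 = crs a _ 0 + crs _ b' 0
      rw [e0, f0, g0, k0]
      ring
    · show crs a b 1 - crs a' b' 1 = crs a _ 1 + crs _ b' 1
      rw [e1, f1, g1, k1]
      ring
    · show crs a b 2 - crs a' b' 2 = crs a _ 2 + crs _ b' 2
      rw [e2, f2, g2, k2]
      ring
  rw [e]
  refine (abs_add_le _ _).trans ?_
  have g1 := crs_bd ha h2 j
  have g2 := crs_bd h1 hb' j
  have e2 : 4 * D * η = 2 * (D * η) + 2 * (η * D) := by ring
  rw [e2]
  exact add_le_add g1 g2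

/-! ## Entropies -/

section
variable {Ω S T U V W : Type} [Fintype Ω] {p : Ω → ℝ}

/-- **One block** of two planks. -/
theorem pair_block (hp : ∀ ω, 0 ≤ p ω) (X' : Ω → S) (x y : Ω → V) (B1 B2 : Ω → U)
    (W : Ω → T) {e1 e2 e3 : ℝ}
    (h2 : CH p X' (fun ω => ((x ω, y ω), W ω)) ≤ e2)
    (h3 : CH p (fun ω => (x ω, y ω)) (fun ω => (X' ω, W ω)) ≤ e3)
    (a1 : CH p x (fun ω => (B1 ω, W ω)) ≤ e1)
    (a2 : CH p y (fun ω => (B2 ω, W ω)) ≤ e1) :
    CH p X' (fun ω => (B1 ω, W ω)) + CH p X' (fun ω => (B2 ω, W ω)) ≤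
      CH p X' W + (2 * e1 + 2 * e2 + e3) := by
  have key : ∀ (B : Ω → U) (u v : Ω → V),
      Det p (fun ω => (u ω, v ω)) (fun ω => (x ω, y ω)) →
      CH p v (fun ω => (B ω, W ω)) ≤ e1 →
      CH p X' (fun ω => (B ω, W ω)) ≤ CH p u (fun ω => (v ω, W ω)) + e1 + e2 := by
    intro B u v hd hv
    have k1 := CH_le_add hp X' (fun ω => (u ω, v ω)) (fun ω => (B ω, W ω))
    have k2 := CH_chain hp u v (fun ω => (B ω, W ω))
    have k3 : CH p u (fun ω => (v ω, (B ω, W ω))) ≤ CH p u (fun ω => (v ω, W ω)) :=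
      CH_mono_cond hp fun ω ω' _ _ h => by
        simp only [Prod.mk.injEq] at h ⊢
        exact ⟨h.1, h.2.2⟩
    have k4 : CH p X' (fun ω => ((u ω, v ω), (B ω, W ω))) ≤
        CH p X' (fun ω => ((x ω, y ω), W ω)) :=
      CH_mono_cond hp fun ω ω' hω hω' h => by
        simp only [Prod.mk.injEq] at h
        have h1 := hd ω ω' hω hω' (Prod.ext h.1.1 h.1.2)
        simp only [Prod.mk.injEq] at h1 ⊢
        exact ⟨h1, h.2.2⟩
    linarith
  have b1 := key B1 y x (fun ω ω' _ _ h => by
    simp only [Prod.mk.injEq] at h ⊢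
    exact ⟨h.2, h.1⟩) a1
  have b2 := key B2 x y (fun ω ω' _ _ h => h) a2
  have b4 := CH_chain hp x y W
  have b5 : CH p y (fun ω => (x ω, W ω)) ≤ CH p y W :=
    CH_mono_cond hp fun ω ω' _ _ h => (Prod.ext_iff.mp h).2
  have b6 := CH_le_add hp (fun ω => (x ω, y ω)) X' W
  linarith

/-- **All blocks** of two planks. -/
theorem blocks2 (hp : ∀ ω, 0 ≤ p ω) (K : ℕ) (X : ℕ → Ω → S) (B1 B2 : Ω → U) (W : Ω → T)
    {e : ℝ} (hX : ∀ k < K, Det p (X (k + 1)) (X k))
    (h : ∀ k < K, CH p (X (k + 1)) (fun ω => (B1 ω, (X k ω, W ω))) +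
      CH p (X (k + 1)) (fun ω => (B2 ω, (X k ω, W ω))) ≤
      CH p (X (k + 1)) (fun ω => (X k ω, W ω)) + e) :
    CH p (X K) (fun ω => (B1 ω, (X 0 ω, W ω))) + CH p (X K) (fun ω => (B2 ω, (X 0 ω, W ω))) ≤
      CH p (X K) W + K * e := by
  have z : ∀ B : Ω → U, CH p (X 0) (fun ω => (B ω, (X 0 ω, W ω))) = 0 := fun B =>
    CH_eq_zero hp fun ω ω' _ _ h => by
      simp only [Prod.mk.injEq] at h
      exact h.2.1
  have st : ∀ (B : Ω → U) (k : ℕ), CH p (X (k + 1)) (fun ω => (B ω, (X 0 ω, W ω))) ≤
      CH p (X k) (fun ω => (B ω, (X 0 ω, W ω))) +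
        CH p (X (k + 1)) (fun ω => (B ω, (X k ω, W ω))) := by
    intro B k
    have k1 := CH_le_add hp (X (k + 1)) (X k) (fun ω => (B ω, (X 0 ω, W ω)))
    have k2 : CH p (X (k + 1)) (fun ω => (X k ω, (B ω, (X 0 ω, W ω)))) ≤
        CH p (X (k + 1)) (fun ω => (B ω, (X k ω, W ω))) :=
      CH_mono_cond hp fun ω ω' _ _ h => by
        simp only [Prod.mk.injEq] at h ⊢
        tauto
    linarith
  have key : CH p (X K) (fun ω => (B1 ω, (X 0 ω, W ω))) +
      CH p (X K) (fun ω => (B2 ω, (X 0 ω, W ω))) ≤ CH p (X K) W - CH p (X 0) W + K * e := by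
    induction K with
    | zero =>
      rw [z, z]
      simp
    | succ K ih =>
      have i1 := ih (fun k hk => hX k (hk.trans (Nat.lt_succ_self K)))
        (fun k hk => h k (hk.trans (Nat.lt_succ_self K)))
      have i2 := h K (Nat.lt_succ_self K)
      have s1 := st B1 K
      have s2 := st B2 K
      have g : CH p (X (K + 1)) W = CH p (X K) W + CH p (X (K + 1)) (fun ω => (X K ω, W ω)) := by
        rw [← CH_chain hp]
        refine CH_congr hp ?_ ?_ (fun _ _ _ _ h => h) (fun _ _ _ _ h => h)
        · intro ω ω' hω hω' h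
          have h1 := (Prod.ext_iff.mp h).1
          exact Prod.ext h1 (hX K (Nat.lt_succ_self K) ω ω' hω hω' h1)
        · intro ω ω' _ _ h
          exact (Prod.ext_iff.mp (Prod.ext_iff.mp h).1).1
      push_cast
      linarith
  have h0 := CH_nonneg hp (X 0) W
  linarith

end

open Classical in
/-- **Bilinear Kakeya for entropies**, two planks of one line, in space. -/
theorem kak2 (C₁ : ℝ) (hC₁ : 1 ≤ C₁) : ∃ (C : ℝ) (L : ℕ), 0 ≤ C ∧
    ∀ (Ω S T U : Type) [Fintype Ω] (p : Ω → ℝ) (l : Ω → S) (b : Ω → T) (B : Ω → U)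
      (Y : Ω → Fin 2 → Fin 3 → ℝ) (E : Ω → Fin 3 → ℝ) (K s x : ℕ) (p₁ : ℝ),
      IsLaw p → Det p l b → Det p l Y →
      (∀ ω, 0 < p ω → ∀ j, |E ω j| ≤ C₁) →
      (∀ ω ω', 0 < p ω → 0 < p ω' → b ω = b ω' → ∀ a j, |Y ω a j - Y ω' a j| ≤ 1) →
      (∀ ω ω', 0 < p ω → 0 < p ω' → b ω = b ω' → B ω = B ω' → ∀ r : ℝ,
        (∀ a j, |Y ω a j - Y ω' a j| ≤ r) → ∀ a, ∃ t : ℝ, |t| ≤ C₁ * r ∧
          ∀ j, |Y ω a j - Y ω' a j - t * E ω j| ≤ C₁ / 2 ^ (K * s)) →
      x + L ≤ s →
      Pe (dbl p l) (fun u => ∀ j, |crs (E u.1) (E u.2) j| ≤ 1 / 2 ^ x) ≤ p₁ →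
      2 * CH p (dg (K * s) Y) (fun ω => (B ω, b ω)) ≤ CH p (dg (K * s) Y) b +
        C * (s + (x + 1) * K + p₁ * (K * s)) := by
  obtain ⟨D, hD⟩ : ∃ D : ℝ, D = C₁ + 1 := ⟨_, rfl⟩
  have hD1 : 1 ≤ D := by linarith
  obtain ⟨L, hL⟩ : ∃ L : ℕ, 8 * D ≤ 2 ^ L := by
    obtain ⟨L, hL⟩ := pow_unbounded_of_one_lt (8 * D) (by norm_num : (1 : ℝ) < 2)
    exact ⟨L, hL.le⟩
  have hlg : ∀ r : ℝ, 1 ≤ r → 0 ≤ Real.log r := fun r hr => Real.log_nonneg hr
  obtain ⟨l1, hl1⟩ : ∃ r, r = Real.log (2 * (4 * D * C₁ + 1) + 1) := ⟨_, rfl⟩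
  obtain ⟨l3, hl3⟩ : ∃ r, r = Real.log (2 * (2 * D + 1) + 1) := ⟨_, rfl⟩
  obtain ⟨l4, hl4⟩ : ∃ r, r = Real.log (20 * D + 3) := ⟨_, rfl⟩
  obtain ⟨l5, hl5⟩ : ∃ r, r = Real.log (4 * C₁ + 3) := ⟨_, rfl⟩
  have hl10 : 0 ≤ l1 := by
    rw [hl1]
    refine hlg _ ?_
    have : 0 ≤ D * C₁ := by positivity
    linarith
  have hl30 : 0 ≤ l3 := by
    rw [hl3]
    refine hlg _ ?_
    linarith
  have hl40 : 0 ≤ l4 := by
    rw [hl4]
    exact hlg _ (by linarith)
  have hl50 : 0 ≤ l5 := by
    rw [hl5]
    exact hlg _ (by linarith)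
  have h50 : 0 ≤ Real.log 5 := hlg 5 (by norm_num)
  have hlog2 : Real.log 2 ≤ 1 := by
    have := Real.log_two_lt_d9
    linarith
  exact by
   have hlog20 : 0 ≤ Real.log 2 := hlg 2 (by norm_num)
   refine ⟨12 * (1 + l5) + 12 * Real.log 5 + 12 * l1 + 12 * (1 + l4) + 12 * (1 + Real.log 5) +
     12 * l3, L + 1, by positivity, ?_⟩
   intro Ω S T U _ p l b B Y E K s x p₁ hp hlb hlY hE hb1 hpl hxs hp1
   have hp0 := hp.nonneg
   have hs1 : 1 ≤ s := by omega
   -- the pairs
   obtain ⟨q, hq⟩ : ∃ q, q = dbl p l := ⟨_, rfl⟩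
   rw [← hq] at hp1
   have hq0 : ∀ u, 0 ≤ q u := by rw [hq]; exact dbl_nonneg hp0
   have m1 : Marg q p (fun u => u.1) := by rw [hq]; exact dbl_fst hp0
   have m2 : Marg q p (fun u => u.2) := by rw [hq]; exact dbl_snd hp0
   have hql : IsLaw q := ⟨hq0, by rw [m1.sum]; exact hp.sum_one⟩
   have p1 : ∀ u, 0 < q u → 0 < p u.1 := fun u hu => m1.pos hq0 hu
   have p2 : ∀ u, 0 < q u → 0 < p u.2 := fun u hu => m2.pos hq0 hu
   have l12 : ∀ u, 0 < q u → l u.1 = l u.2 := fun u hu => by
     rw [hq] at hu
     exact dbl_eq hp0 hu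
   have b12 : ∀ u, 0 < q u → b u.1 = b u.2 := fun u hu =>
     hlb _ _ (p1 u hu) (p2 u hu) (l12 u hu)
   have y12 : ∀ u, 0 < q u → Y u.1 = Y u.2 := fun u hu =>
     hlY _ _ (p1 u hu) (p2 u hu) (l12 u hu)
   exact by
    have hp10 : 0 ≤ p₁ := (Pe_nonneg hql _).trans hp1
    -- the variables
    obtain ⟨X, hX⟩ : ∃ X : ℕ → (Ω × Ω) → Fin 2 × Fin 3 → ℤ,
      X = fun k u => dg (k * s) Y u.1 := ⟨_, rfl⟩
    obtain ⟨σ, hσ⟩ : ∃ σ : (Ω × Ω) → (Fin 3 → ℤ) × (Fin 3 → ℤ),
      σ = fun u => (rdir s E u.1, rdir s E u.2) := ⟨_, rfl⟩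
    obtain ⟨W, hW⟩ : ∃ W : (Ω × Ω) → ((Fin 3 → ℤ) × (Fin 3 → ℤ)) × T,
      W = fun u => (σ u, b u.1) := ⟨_, rfl⟩
    obtain ⟨e1, he1⟩ : ∃ e : (Ω × Ω) → Fin 3 → ℝ, e = fun u => vdir s (σ u).1 := ⟨_, rfl⟩
    obtain ⟨e2, he2⟩ : ∃ e : (Ω × Ω) → Fin 3 → ℝ, e = fun u => vdir s (σ u).2 := ⟨_, rfl⟩
    have n1 : ∀ u j, |E u.1 j - e1 u j| ≤ 1 / 2 ^ s := fun u j => by
      rw [he1, hσ]
      exact vdir_near s E u.1 j
    have n2 : ∀ u j, |E u.2 j - e2 u j| ≤ 1 / 2 ^ s := fun u j => by
      rw [he2, hσ]
      exact vdir_near s E u.2 j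
    have h1s : (1 : ℝ) / 2 ^ s ≤ 1 := by
      rw [div_le_one (by positivity)]
      exact one_le_pow₀ (by norm_num)
    have bdd : ∀ {r r' : ℝ}, |r| ≤ C₁ → |r - r'| ≤ 1 / 2 ^ s → |r'| ≤ D := by
      intro r r' h1 h2
      have h3 : r' = r - (r - r') := by ring
      rw [h3, hD]
      exact (abs_sub _ _).trans (add_le_add h1 (h2.trans h1s))
    have d1 : ∀ u, 0 < q u → ∀ j, |e1 u j| ≤ D := fun u hu j => bdd (hE _ (p1 u hu) j) (n1 u j)
    have d2 : ∀ u, 0 < q u → ∀ j, |e2 u j| ≤ D := fun u hu j => bdd (hE _ (p2 u hu) j) (n2 u j)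
    exact by
     obtain ⟨Bad, hBad⟩ : ∃ Bad : (Ω × Ω) → Prop,
       Bad = fun u => ∀ j, |crs (e1 u) (e2 u) j| ≤ 1 / 2 ^ (x + 1) := ⟨_, rfl⟩
     have hPB : Pe q Bad ≤ p₁ := by
       refine (Pe_mono_pos hq0 fun u hu hB => ?_).trans hp1
       have hB2 : ∀ j, |crs (e1 u) (e2 u) j| ≤ 1 / 2 ^ (x + 1) := by
         rw [hBad] at hB
         exact hB
       show ∀ j, |crs (E u.1) (E u.2) j| ≤ 1 / 2 ^ x
       intro j
       have g1 : ∀ j, |E u.1 j| ≤ D := fun j => (hE _ (p1 u hu) j).trans (by linarith only [hD])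
       have g3 := crs_near g1 (d2 u hu) (n1 u) (n2 u) j
       have g4 : 4 * D * (1 / 2 ^ s) ≤ 1 / 2 ^ (x + 1) := by
         have h1 : (2 : ℝ) ^ (x + 1 + L) ≤ 2 ^ s := pow_le_pow_right₀ (by norm_num) (by omega)
         rw [mul_one_div, div_le_div_iff₀ (by positivity) (by positivity), one_mul]
         rw [pow_add] at h1
         have h2 : (0 : ℝ) < 2 ^ (x + 1) := by positivity
         have h3 := mul_le_mul_of_nonneg_left hL h2.le
         nlinarith only [h1, h3, h2, hD1]
       have g5 : (1 : ℝ) / 2 ^ x = 1 / 2 ^ (x + 1) + 1 / 2 ^ (x + 1) := by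
         rw [pow_succ]
         field_simp
         norm_num
       have g6 : crs (E u.1) (E u.2) j = (crs (E u.1) (E u.2) j -
         crs (e1 u) (e2 u) j) + crs (e1 u) (e2 u) j := by ring
       rw [g6, g5]
       exact (abs_add_le _ _).trans (add_le_add (g3.trans g4) (hB2 j))
     -- the coordinates
     obtain ⟨c1, hc1⟩ : ∃ c : ℕ → (Ω × Ω) → Fin 2 × Fin 3 → ℤ, c = fun N u i =>
       if Bad u then 0 else ⌊(2 : ℝ) ^ N * crs (Y u.1 i.1) (e1 u) i.2⌋ := ⟨_, rfl⟩
     exact by
      obtain ⟨c2, hc2⟩ : ∃ c : ℕ → (Ω × Ω) → Fin 2 × Fin 3 → ℤ, c = fun N u i =>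
        if Bad u then 0 else ⌊(2 : ℝ) ^ N * crs (Y u.1 i.1) (e2 u) i.2⌋ := ⟨_, rfl⟩
      have hσW : ∀ u u', W u = W u' → σ u = σ u' := by
        intro u u' h
        rw [hW] at h
        exact (Prod.ext_iff.mp h).1
      have hbW : ∀ u u', W u = W u' → b u.1 = b u'.1 := by
        intro u u' h
        rw [hW] at h
        exact (Prod.ext_iff.mp h).2
      have ee : ∀ u u', σ u = σ u' → e1 u = e1 u' ∧ e2 u = e2 u' ∧ (Bad u ↔ Bad u') := by
        intro u u' h
        have k1 : e1 u = e1 u' := by rw [he1]; dsimp only; rw [h]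
        have k2 : e2 u = e2 u' := by rw [he2]; dsimp only; rw [h]
        refine ⟨k1, k2, ?_⟩
        rw [hBad]
        dsimp only
        rw [k1, k2]
      -- a general bound for one coordinate
      have cst : ∀ (N : ℕ) (M : ℝ) (u u' : Ω × Ω) (f f' : ℝ), 0 ≤ M → (Bad u ↔ Bad u') →
          |f - f'| ≤ M / 2 ^ N →
          |(((if Bad u then 0 else ⌊(2 : ℝ) ^ N * f⌋) -
            (if Bad u' then 0 else ⌊(2 : ℝ) ^ N * f'⌋) : ℤ) : ℝ)| ≤ M + 1 := by
        intro N M u u' f f' hM hbb hf
        by_cases hB : Bad u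
        · rw [if_pos hB, if_pos (hbb.1 hB), sub_zero, Int.cast_zero, abs_zero]
          linarith only [hM]
        · rw [if_neg hB, if_neg (fun h => hB (hbb.2 h))]
          exact floor_close hf
      exact by
       have hN : ∀ k, ((k + 1 : ℕ) * s : ℕ) = k * s + s := fun k => by ring
       -- one block
       have step : ∀ k < K, CH q (X (k + 1)) (fun u => (B u.1, (X k u, W u))) +
           CH q (X (k + 1)) (fun u => (B u.2, (X k u, W u))) ≤
           CH q (X (k + 1)) (fun u => (X k u, W u)) + (2 * (6 * l1) +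
             2 * (6 * ((x * Real.log 2 + l4) + p₁ * (s * Real.log 2 + Real.log 5))) + 12 * l3) := by
         intro k hk
         obtain ⟨N, hNk⟩ : ∃ N, N = (k + 1) * s := ⟨_, rfl⟩
         have hNK : N ≤ K * s := by
           rw [hNk]
           exact Nat.mul_le_mul_right s hk
         have hr : (1 : ℝ) / 2 ^ (k * s) * (1 / 2 ^ s) = 1 / 2 ^ N := by
           rw [hNk, hN, pow_add]
           field_simp
         have hD0 : (0 : ℝ) ≤ D := by linarith only [hD1]
         -- differences of `Y` in one cell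
         have cell : ∀ u u', X k u = X k u' → ∀ a j, |Y u.1 a j - Y u'.1 a j| ≤ 1 / 2 ^ (k * s) := by
           intro u u' h a j
           rw [hX] at h
           exact dg_same h a j
         -- differences of `Y` in one plank
         have plk : ∀ {δ e E' : Fin 3 → ℝ} {t : ℝ}, |t| ≤ C₁ * (1 / 2 ^ (k * s)) →
             (∀ j, |δ j - t * E' j| ≤ C₁ / 2 ^ (K * s)) → (∀ j, |E' j - e j| ≤ 1 / 2 ^ s) →
             (∀ j, |e j| ≤ D) → ∀ j, |crs δ e j| ≤ 4 * D * C₁ / 2 ^ N := by
           intro δ e E' t h1 h2 h3 h4 j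
           refine (crs_par h1 h2 h3 h4 j).trans ?_
           have k1 : C₁ / (2 : ℝ) ^ (K * s) ≤ C₁ / 2 ^ N :=
             div_le_div_of_nonneg_left (by linarith only [hC₁]) (by positivity)
               (pow_le_pow_right₀ (by norm_num) hNK)
           have k2 : C₁ * (1 / (2 : ℝ) ^ (k * s)) * (1 / 2 ^ s) = C₁ / 2 ^ N := by
             rw [mul_assoc, hr]
             ring
           rw [k2]
           have k3 := mul_le_mul_of_nonneg_left k1 (show 0 ≤ 2 * D by linarith only [hD0])
           have k4 : 4 * D * C₁ / 2 ^ N = 2 * D * (C₁ / 2 ^ N) + 2 * D * (C₁ / 2 ^ N) := by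
             ring
           rw [k4]
           have e1 : 2 * (C₁ / (2 : ℝ) ^ (K * s) * D) = 2 * D * (C₁ / 2 ^ (K * s)) := by ring
           have e2 : 2 * (C₁ / (2 : ℝ) ^ N * D) = 2 * D * (C₁ / 2 ^ N) := by ring
           rw [e1, e2]
           linarith only [k3]
         have hM1 : 0 ≤ 4 * D * C₁ := by positivity
         -- the determination of a coordinate by a plank
         have pr : ∀ (f : (Ω × Ω) → Fin 2 × Fin 3 → ℤ) (Bi : (Ω × Ω) → U),
             (∀ u u', 0 < q u → 0 < q u' → Bi u = Bi u' → X k u = X k u' → W u = W u' → ∀ i,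
               |((f u i - f u' i : ℤ) : ℝ)| ≤ 4 * D * C₁ + 1) →
             CH q f (fun u => (Bi u, (X k u, W u))) ≤ 6 * l1 := by
           intro f Bi h
           have k2 := CH_bI hql f (fun u => (Bi u, (X k u, W u))) (4 * D * C₁ + 1)
             (by linarith only [hM1])
             (fun u u' hu hu' he a => by
               simp only [Prod.mk.injEq] at he
               exact h u u' hu hu' he.1 he.2.1 he.2.2 a)
           rw [← hl1, Fintype.card_prod, Fintype.card_fin, Fintype.card_fin] at k2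
           push_cast at k2
           linarith only [k2]
         have key := pair_block hq0 (X (k + 1)) (c1 N) (c2 N) (fun u => B u.1)
           (fun u => B u.2) (fun u => (X k u, W u)) (e1 := 6 * l1)
           (e2 := 6 * ((x * Real.log 2 + l4) + p₁ * (s * Real.log 2 + Real.log 5))) (e3 := 12 * l3)
           ?_ ?_ ?_ ?_
         · exact key
         · -- the coordinates determine the cell
           have hM2 : (0 : ℝ) ≤ 10 * D * 2 ^ x + 1 := by positivity
           have g := CH_gI hql (X (k + 1)) (fun u => ((c1 N u, c2 N u), (X k u, W u)))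
             Bad (10 * D * 2 ^ x + 1) (2 ^ s + 1) p₁ hM2 (by positivity) hPB ?_ ?_
           · refine g.trans ?_
             rw [Fintype.card_prod, Fintype.card_fin, Fintype.card_fin]
             have g1 : Real.log (2 * (10 * D * 2 ^ x + 1) + 1) ≤ x * Real.log 2 + l4 := by
               have h1 : 2 * (10 * D * 2 ^ x + 1) + 1 ≤ (2 : ℝ) ^ x * (20 * D + 3) := by
                 have : (1 : ℝ) ≤ 2 ^ x := one_le_pow₀ (by norm_num)
                 nlinarith only [this]
               refine (Real.log_le_log (by positivity) h1).trans ?_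
               rw [Real.log_mul (by positivity) (by positivity), Real.log_pow, hl4]
             have g2 : Real.log (2 * ((2 : ℝ) ^ s + 1) + 1) ≤ s * Real.log 2 + Real.log 5 := by
               have h1 : 2 * ((2 : ℝ) ^ s + 1) + 1 ≤ (2 : ℝ) ^ s * 5 := by
                 have : (1 : ℝ) ≤ 2 ^ s := one_le_pow₀ (by norm_num)
                 nlinarith only [this]
               refine (Real.log_le_log (by positivity) h1).trans ?_
               rw [Real.log_mul (by positivity) (by positivity), Real.log_pow]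
             have g3 := mul_le_mul_of_nonneg_left g2 hp10
             push_cast
             linarith only [g1, g3]
           · intro u u' hu hu' he hB i
             simp only [Prod.mk.injEq] at he
             obtain ⟨⟨h1, h2⟩, h4, h5⟩ := he
             obtain ⟨k1, k2, k4⟩ := ee u u' (hσW u u' h5)
             have hB' : ¬ Bad u' := fun h => hB (k4.2 h)
             obtain ⟨a, j⟩ := i
             rw [hX]
             show |((⌊(2 : ℝ) ^ ((k + 1) * s) * Y u.1 a j⌋ -
               ⌊(2 : ℝ) ^ ((k + 1) * s) * Y u'.1 a j⌋ : ℤ) : ℝ)| ≤ _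
             rw [← hNk]
             refine floor_close ?_
             have t1 : ∀ j, |crs (fun j => Y u.1 a j - Y u'.1 a j) (e1 u) j| ≤ 1 / 2 ^ N := by
               intro j
               have r1 := congrFun h1 (a, j)
               rw [hc1] at r1
               simp only [if_neg hB, if_neg hB'] at r1
               have t1 := floor_same r1
               rw [← k1, ← crs_sub] at t1
               exact t1
             have t2 : ∀ j, |crs (fun j => Y u.1 a j - Y u'.1 a j) (e2 u) j| ≤ 1 / 2 ^ N := by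
               intro j
               have r1 := congrFun h2 (a, j)
               rw [hc2] at r1
               simp only [if_neg hB, if_neg hB'] at r1
               have t1 := floor_same r1
               rw [← k2, ← crs_sub] at t1
               exact t1
             have hdet : ∃ κ, 1 / 2 ^ (x + 1) < |crs (e1 u) (e2 u) κ| := by
               rw [hBad] at hB
               push Not at hB
               exact hB
             obtain ⟨κ, hκ⟩ := hdet
             have g1 := crs_rec (d1 u hu) (d2 u hu) t1 t2 j κ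
             rw [abs_mul] at g1
             have g2 : 1 / 2 ^ (x + 1) * |Y u.1 a j - Y u'.1 a j| ≤ 5 * (D * (1 / 2 ^ N)) :=
               (mul_le_mul_of_nonneg_right hκ.le (abs_nonneg _)).trans g1
             have g3 : 10 * D * 2 ^ x / 2 ^ N = 2 ^ (x + 1) * (5 * (D * (1 / 2 ^ N))) := by
               rw [pow_succ]
               ring
             rw [g3]
             rw [one_div_mul_eq_div, div_le_iff₀ (by positivity)] at g2
             linarith only [g2]
           · intro u u' hu hu' he i
             simp only [Prod.mk.injEq] at he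
             obtain ⟨a, j⟩ := i
             have g := cell u u' he.2.1 a j
             rw [hX]
             show |((⌊(2 : ℝ) ^ ((k + 1) * s) * Y u.1 a j⌋ -
               ⌊(2 : ℝ) ^ ((k + 1) * s) * Y u'.1 a j⌋ : ℤ) : ℝ)| ≤ _
             refine floor_close (g.trans (le_of_eq ?_))
             rw [hN, pow_add]
             field_simp
         · -- the cell determines the coordinates
           have one : ∀ f : (Ω × Ω) → Fin 2 × Fin 3 → ℤ,
               (∀ u u', 0 < q u → 0 < q u' → X (k + 1) u = X (k + 1) u' → W u = W u' → ∀ i,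
                 |((f u i - f u' i : ℤ) : ℝ)| ≤ 2 * D + 1) →
               CH q f (fun u => (X (k + 1) u, (X k u, W u))) ≤ 6 * l3 := by
             intro f h
             have k2 := CH_bI hql f (fun u => (X (k + 1) u, (X k u, W u))) (2 * D + 1)
               (by linarith only [hD0]) (fun u u' hu hu' he a => by
                 simp only [Prod.mk.injEq] at he
                 exact h u u' hu hu' he.1 he.2.2 a)
             rw [← hl3, Fintype.card_prod, Fintype.card_fin, Fintype.card_fin] at k2
             push_cast at k2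
             linarith only [k2]
           have fin : ∀ u u', X (k + 1) u = X (k + 1) u' → ∀ a j,
               |Y u.1 a j - Y u'.1 a j| ≤ 1 / 2 ^ N := by
             intro u u' h a j
             rw [hX] at h
             rw [hNk]
             exact dg_same h a j
           have e6 : 2 * D / 2 ^ N = 2 * (1 / 2 ^ N * D) := by ring
           have o1 := one (c1 N) fun u u' hu hu' h h' i => by
             obtain ⟨k1, k2, k4⟩ := ee u u' (hσW u u' h')
             rw [hc1]
             refine cst N (2 * D) u u' _ _ (by linarith only [hD0]) k4 ?_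
             rw [← k1, ← crs_sub, e6]
             exact crs_bd (fin u u' h i.1) (d1 u hu) i.2
           have o2 := one (c2 N) fun u u' hu hu' h h' i => by
             obtain ⟨k1, k2, k4⟩ := ee u u' (hσW u u' h')
             rw [hc2]
             refine cst N (2 * D) u u' _ _ (by linarith only [hD0]) k4 ?_
             rw [← k2, ← crs_sub, e6]
             exact crs_bd (fin u u' h i.1) (d2 u hu) i.2
           have s1 := CH_subadd hq0 (c1 N) (c2 N) (fun u => (X (k + 1) u, (X k u, W u)))
           linarith only [o1, o2, s1]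
         · -- first plank
           refine pr (c1 N) _ fun u u' hu hu' h h' h'' i => ?_
           obtain ⟨k1, k2, k4⟩ := ee u u' (hσW u u' h'')
           obtain ⟨t, ht, ht'⟩ := hpl u.1 u'.1 (p1 u hu) (p1 u' hu') (hbW u u' h'') h
             (1 / 2 ^ (k * s)) (cell u u' h') i.1
           rw [hc1]
           refine cst N (4 * D * C₁) u u' _ _ hM1 k4 ?_
           rw [← k1, ← crs_sub]
           exact plk ht ht' (n1 u) (d1 u hu) i.2
         · -- second plank
           refine pr (c2 N) _ fun u u' hu hu' h h' h'' i => ?_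
           obtain ⟨k1, k2, k4⟩ := ee u u' (hσW u u' h'')
           have hb : b u.2 = b u'.2 := by
             rw [← b12 u hu, ← b12 u' hu']
             exact hbW u u' h''
           obtain ⟨t, ht, ht'⟩ := hpl u.2 u'.2 (p2 u hu) (p2 u' hu') hb h
             (1 / 2 ^ (k * s)) (fun a j => by
               rw [← y12 u hu, ← y12 u' hu']
               exact cell u u' h' a j) i.1
           rw [← y12 u hu, ← y12 u' hu'] at ht'
           rw [hc2]
           refine cst N (4 * D * C₁) u u' _ _ hM1 k4 ?_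
           rw [← k2, ← crs_sub]
           exact plk ht ht' (n2 u) (d2 u hu) i.2
       exact by
        have all := blocks2 hq0 K X (fun u => B u.1) (fun u => B u.2) W
          (fun k _ u u' _ _ h => by
            rw [hX] at h ⊢
            refine dg_crs ?_ h
            rw [hN]
            omega) step
        -- the entropy of the directions and of the cell
        have hX0 : CH q (fun u => (X 0 u, σ u)) (fun u => b u.1) ≤
            6 * Real.log 5 + 6 * (s * Real.log 2 + l5) := by
          have k1 := CH_subadd hq0 (X 0) σ (fun u => b u.1)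
          have k2 : CH q (X 0) (fun u => b u.1) ≤ 6 * Real.log 5 := by
            have := CH_bI hql (X 0) (fun u => b u.1) 2 (by norm_num) fun u u' hu hu' h i => by
              rw [hX]
              obtain ⟨a, j⟩ := i
              show |((⌊(2 : ℝ) ^ (0 * s) * Y u.1 a j⌋ -
                ⌊(2 : ℝ) ^ (0 * s) * Y u'.1 a j⌋ : ℤ) : ℝ)| ≤ _
              have g := hb1 _ _ (p1 u hu) (p1 u' hu') h a j
              refine (floor_close (c := 1) (g.trans (le_of_eq ?_))).trans (by norm_num)
              simp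
            rw [Fintype.card_prod, Fintype.card_fin, Fintype.card_fin] at this
            refine this.trans (le_of_eq ?_)
            norm_num
          have dir : ∀ pr : (Ω × Ω) → Ω, Marg q p pr → CH q (fun u => rdir s E (pr u))
              (fun u => b u.1) ≤ 3 * (s * Real.log 2 + l5) := by
            intro pr hpr
            have h2s : (0 : ℝ) < 2 ^ s := by positivity
            have := CH_bI hql (fun u => rdir s E (pr u)) (fun u => b u.1) (2 * C₁ * 2 ^ s + 1)
              (by positivity) fun u u' hu hu' h j => by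
                refine floor_close ?_
                have g1 := hE _ (hpr.pos hq0 hu) j
                have g2 := hE _ (hpr.pos hq0 hu') j
                rw [mul_div_cancel_right₀ _ h2s.ne']
                refine (abs_sub _ _).trans ?_
                linarith only [g1, g2]
            rw [Fintype.card_fin] at this
            have g2 : Real.log (2 * (2 * C₁ * 2 ^ s + 1) + 1) ≤ s * Real.log 2 + l5 := by
              have h1 : 2 * (2 * C₁ * 2 ^ s + 1) + 1 ≤ (2 : ℝ) ^ s * (4 * C₁ + 3) := by
                have : (1 : ℝ) ≤ 2 ^ s := one_le_pow₀ (by norm_num)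
                nlinarith only [this]
              refine (Real.log_le_log (by positivity) h1).trans ?_
              rw [Real.log_mul (by positivity) (by positivity), Real.log_pow, hl5]
            push_cast at this
            linarith only [this, g2]
          have k3 := CH_subadd hq0 (fun u => rdir s E u.1) (fun u => rdir s E u.2)
            (fun u => b u.1)
          rw [← hσ] at k3
          have k5 := dir _ m1
          have k6 := dir _ m2
          linarith only [k1, k2, k3, k5, k6]
        exact by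
         have fin : ∀ (pr : (Ω × Ω) → Ω), Marg q p pr → (∀ u, 0 < q u → b u.1 = b (pr u)) →
             (∀ u, 0 < q u → Y u.1 = Y (pr u)) →
             CH p (dg (K * s) Y) (fun ω => (B ω, b ω)) ≤
               CH q (X K) (fun u => (B (pr u), (X 0 u, W u))) +
                 (6 * Real.log 5 + 6 * (s * Real.log 2 + l5)) := by
           intro pr hpr hb hy
           have k1 : CH p (dg (K * s) Y) (fun ω => (B ω, b ω)) =
               CH q (X K) (fun u => (B (pr u), b u.1)) := by
             rw [← hpr.CH (dg (K * s) Y) (fun ω => (B ω, b ω))]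
             have eX : ∀ u, 0 < q u → X K u = dg (K * s) Y (pr u) := by
               intro u hu
               rw [hX]
               unfold dg
               dsimp only
               rw [hy u hu]
             refine CH_congr hq0 ?_ ?_ ?_ ?_
             · intro u u' hu hu' h
               have := (Prod.ext_iff.mp h).1
               simp only at this
               rw [eX u hu, eX u' hu', this]
             · intro u u' hu hu' h
               have := (Prod.ext_iff.mp h).1
               simp only at this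
               rw [eX u hu, eX u' hu'] at this
               exact this
             · intro u u' hu hu' h
               simp only [Prod.mk.injEq] at h ⊢
               rw [hb u hu, hb u' hu']
               exact h
             · intro u u' hu hu' h
               simp only [Prod.mk.injEq] at h ⊢
               rw [hb u hu, hb u' hu'] at h
               exact h
           rw [k1]
           have k2 := CH_le_add hq0 (X K) (fun u => (X 0 u, σ u)) (fun u => (B (pr u), b u.1))
           have k3 : CH q (fun u => (X 0 u, σ u)) (fun u => (B (pr u), b u.1)) ≤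
               CH q (fun u => (X 0 u, σ u)) (fun u => b u.1) :=
             CH_mono_cond hq0 fun u u' _ _ h => (Prod.ext_iff.mp h).2
           have k4 : CH q (X K) (fun u => ((X 0 u, σ u), (B (pr u), b u.1))) ≤
               CH q (X K) (fun u => (B (pr u), (X 0 u, W u))) :=
             CH_mono_cond hq0 fun u u' _ _ h => by
               rw [hW]
               simp only [Prod.mk.injEq] at h ⊢
               tauto
           linarith only [hX0, k2, k3, k4]
         exact by
          have f1 := fin _ m1 (fun u _ => rfl) (fun u _ => rfl)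
          have f2 := fin _ m2 b12 y12
          have f4 : CH q (X K) W ≤ CH p (dg (K * s) Y) b := by
            rw [← m1.CH (dg (K * s) Y) b, hX, hW]
            exact CH_mono_cond hq0 fun u u' _ _ h => (Prod.ext_iff.mp h).2
          have hK0 : (0 : ℝ) ≤ K := Nat.cast_nonneg K
          have hs0 : (1 : ℝ) ≤ s := by exact_mod_cast hs1
          have hx0 : (0 : ℝ) ≤ x := Nat.cast_nonneg x
          have hKs : (K : ℝ) ≤ K * s := by nlinarith only [hs0, hK0]
          -- the sum of the errors
          have z1 : (s : ℝ) * Real.log 2 ≤ s := by nlinarith only [hlog2, hs0]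
          have z2 : (x : ℝ) * Real.log 2 ≤ x := by nlinarith only [hlog2, hx0]
          have z3 : 2 * (6 * Real.log 5 + 6 * (s * Real.log 2 + l5)) ≤
              (12 * (1 + l5) + 12 * Real.log 5) * s := by
            have h1 : l5 ≤ l5 * s := by nlinarith only [hl50, hs0]
            have h2 : Real.log 5 ≤ Real.log 5 * s := by nlinarith only [h50, hs0]
            nlinarith only [z1, h1, h2]
          have z4 : (K : ℝ) * (2 * (6 * l1) +
                2 * (6 * ((x * Real.log 2 + l4) + p₁ * (s * Real.log 2 + Real.log 5))) + 12 * l3) ≤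
              (12 * l1 + 12 * (1 + l4) + 12 * l3) * ((x + 1) * K) +
                12 * (1 + Real.log 5) * (p₁ * (K * s)) := by
            have h1 : (K : ℝ) ≤ (x + 1) * K := by nlinarith only [hx0, hK0]
            have h2 : x * Real.log 2 + l4 ≤ (1 + l4) * (x + 1) := by nlinarith only [z2, hl40, hx0]
            have h3 : s * Real.log 2 + Real.log 5 ≤ (1 + Real.log 5) * s := by
              nlinarith only [z1, h50, hs0]
            have h4 := mul_le_mul_of_nonneg_left h3 (mul_nonneg hK0 hp10)
            have h5 := mul_le_mul_of_nonneg_left h2 hK0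
            have h6 := mul_le_mul_of_nonneg_left h1 hl10
            have h7 := mul_le_mul_of_nonneg_left h1 hl30
            nlinarith only [h4, h5, h6, h7]
          exact by
           have z5 : 0 ≤ (x + 1 : ℝ) * K := by positivity
           have z6 : 0 ≤ p₁ * (K * s) := by positivity
           have z7 : (12 * (1 + l5) + 12 * Real.log 5) * s + ((12 * l1 + 12 * (1 + l4) + 12 * l3) *
               ((x + 1) * K) + 12 * (1 + Real.log 5) * (p₁ * (K * s))) ≤
               (12 * (1 + l5) + 12 * Real.log 5 + 12 * l1 + 12 * (1 + l4) + 12 * (1 + Real.log 5) +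
                 12 * l3) * (s + (x + 1) * K + p₁ * (K * s)) := by
             obtain ⟨α, hα⟩ : ∃ α, α = 12 * (1 + l5) + 12 * Real.log 5 := ⟨_, rfl⟩
             obtain ⟨β, hβ⟩ : ∃ β, β = 12 * l1 + 12 * (1 + l4) + 12 * l3 := ⟨_, rfl⟩
             obtain ⟨γ, hγ⟩ : ∃ γ, γ = 12 * (1 + Real.log 5) := ⟨_, rfl⟩
             have ha : 0 ≤ α := by rw [hα]; positivity
             have hb : 0 ≤ β := by rw [hβ]; positivity
             have hg : 0 ≤ γ := by rw [hγ]; positivity
             have e : 12 * (1 + l5) + 12 * Real.log 5 + 12 * l1 + 12 * (1 + l4) +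
                 12 * (1 + Real.log 5) + 12 * l3 = α + β + γ := by
               rw [hα, hβ, hγ]
               ring
             rw [e, ← hα, ← hβ, ← hγ]
             have hs00 : (0 : ℝ) ≤ s := by linarith only [hs0]
             have t1 := mul_nonneg ha z5
             have t2 := mul_nonneg ha z6
             have t3 := mul_nonneg hb hs00
             have t4 := mul_nonneg hb z6
             have t5 := mul_nonneg hg hs00
             have t6 := mul_nonneg hg z5
             nlinarith only [t1, t2, t3, t4, t5, t6]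
           linarith only [all, f1, f2, f4, z3, z4, z7]

end Pool.XF
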