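import Pool.Agent.H81.XF.Kak

/-!
# LEMMA X for flags of length 3: differences of lines in natural units
-/

set_option autoImplicit false

namespace Pool.XF

open Finset Real
open Pool.Agent.H49.Ent Pool.Agent.H32.Dense Pool.STK Pool.KA Pool.KSAT Pool.K2S Pool.PC

variable {J : ℕ} {F : Fam 3 J}

/-- The difference of two vectors in the frame `N`, in natural units. -/
noncomputable def dn (e : ℕ) (c : Fin 3 → ℕ) (N : Fin 3 → Fin 3 → ℝ) (x x' : Fin 3 → ℝ)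
    (j : Fin 3) : ℝ := 2 ^ (e + c j) * (mco N x j - mco N x' j)

theorem dn_time (w : ℕ) (c : Fin 3 → ℕ) (N : Fin 3 → Fin 3 → ℝ) (s t : ℝ) (ω ω' : F.Ω)
    (j : Fin 3) : dn w c N (F.xa t ω) (F.xa t ω') j = dn w c N (F.xa s ω) (F.xa s ω') j +
      (2 ^ w * (t - s)) * dn 0 c N (F.d ω) (F.d ω') j := by
  have e1 : ∀ o : F.Ω, F.xa t o = fun j => F.xa s o j + (t - s) * F.d o j := by
    intro o
    funext j
    exact Kin.xa_add F s t o j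
  unfold dn
  rw [e1, e1, Box.mco_add_mul, Box.mco_add_mul, Nat.zero_add, pow_add]
  ring

theorem dn_chg {C₀ : ℝ} {c : Fin 3 → ℕ} {M M' A A' : Fin 3 → Fin 3 → ℝ}
    (h : Chg C₀ c M M' A A') (e : ℕ) (x x' : Fin 3 → ℝ) (i : Fin 3) :
    ∑ j, A i j * dn e c M x x' j = dn e c M' x x' i := by
  have h1 := h.chg x i
  have h2 := h.chg x' i
  unfold dn
  rw [Fin.sum_univ_three] at h1 h2 ⊢
  rw [pow_add, pow_add, pow_add, pow_add]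
  linear_combination 2 ^ e * h2 - 2 ^ e * h1

theorem dn_inv {C₀ : ℝ} {c : Fin 3 → ℕ} {M M' A A' : Fin 3 → Fin 3 → ℝ}
    (h : Chg C₀ c M M' A A') (e : ℕ) (x x' : Fin 3 → ℝ) (j : Fin 3) :
    dn e c M x x' j = ∑ i, A' j i * dn e c M' x x' i := by
  have e2 : ∀ k, A' j k * dn e c M' x x' k = ∑ l, A' j k * A k l * dn e c M x x' l := by
    intro k
    rw [← dn_chg h, Finset.mul_sum]
    exact Finset.sum_congr rfl fun l _ => by ring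
  rw [Finset.sum_congr rfl fun k _ => e2 k, Finset.sum_comm]
  have e3 : ∀ l, ∑ k, A' j k * A k l * dn e c M x x' l =
      (if j = l then 1 else 0) * dn e c M x x' l := by
    intro l
    rw [← Finset.sum_mul, h.inv]
  rw [Finset.sum_congr rfl fun l _ => e3 l]
  simp

theorem dn_chg_le {C₀ r : ℝ} {c : Fin 3 → ℕ} {M M' A A' : Fin 3 → Fin 3 → ℝ}
    (h : Chg C₀ c M M' A A') {e : ℕ} {x x' : Fin 3 → ℝ} (hr : ∀ j, |dn e c M x x' j| ≤ r)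
    (i : Fin 3) : |dn e c M' x x' i| ≤ 3 * C₀ * r := by
  rw [← dn_chg h]
  exact dot_le (h.bd i) hr

theorem dn_inv_le {C₀ r : ℝ} {c : Fin 3 → ℕ} {M M' A A' : Fin 3 → Fin 3 → ℝ}
    (h : Chg C₀ c M M' A A') {e : ℕ} {x x' : Fin 3 → ℝ} (hr : ∀ j, |dn e c M' x x' j| ≤ r)
    (i : Fin 3) : |dn e c M x x' i| ≤ 3 * C₀ * r := by
  rw [dn_inv h]
  exact dot_le (h.bd' i) hr

theorem dn_of_floor {e k D : ℕ} {c : Fin 3 → ℕ} {N : Fin 3 → Fin 3 → ℝ} {x x' : Fin 3 → ℝ}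
    {j : Fin 3} (h : ⌊(2 : ℝ) ^ k * mco N x j⌋ = ⌊(2 : ℝ) ^ k * mco N x' j⌋)
    (hk : e + c j + D ≤ k) : |dn e c N x x' j| ≤ 1 / 2 ^ D := by
  have h1 := floor_same h
  unfold dn
  rw [abs_mul, abs_of_pos (by positivity : (0 : ℝ) < 2 ^ (e + c j))]
  have h2 : (1 : ℝ) / 2 ^ k ≤ 1 / 2 ^ (e + c j + D) :=
    one_div_le_one_div_of_le (by positivity) (pow_le_pow_right₀ (by norm_num) hk)
  have h3 := mul_le_mul_of_nonneg_left (h1.trans h2) (by positivity : (0 : ℝ) ≤ 2 ^ (e + c j))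
  refine h3.trans (le_of_eq ?_)
  rw [pow_add 2 (e + c j) D]
  field_simp

theorem floor_of_dn {e k D : ℕ} {c : Fin 3 → ℕ} {N : Fin 3 → Fin 3 → ℝ} {x x' : Fin 3 → ℝ}
    {j : Fin 3} {r : ℝ} (h : |dn e c N x x' j| ≤ r / 2 ^ D) (hk : k = e + c j + D) :
    |((⌊(2 : ℝ) ^ k * mco N x j⌋ - ⌊(2 : ℝ) ^ k * mco N x' j⌋ : ℤ) : ℝ)| ≤ r + 1 := by
  refine floor_close ?_
  unfold dn at h
  rw [abs_mul, abs_of_pos (by positivity : (0 : ℝ) < 2 ^ (e + c j)), mul_comm,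
    ← le_div_iff₀ (by positivity)] at h
  refine h.trans (le_of_eq ?_)
  rw [hk, pow_add 2 (e + c j) D, div_div, mul_comm]

/-- Lines with the same label, at times near the window. -/
theorem mlb_dn {w v D : ℕ} {c k' c' : Fin 3 → ℕ} {M' : F.Ω → Fin 3 → Fin 3 → ℝ} {ω ω' : F.Ω}
    (hB : F.mlb v k' c' M' ω = F.mlb v k' c' M' ω') {t : ℝ} {i : Fin 3}
    (ht : |t - (F.T1 v ω : ℝ) / 2 ^ v| ≤ 1 / 2 ^ w) (hk : w + c i + D ≤ k' i)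
    (hc : c i + D ≤ c' i) : |dn w c (M' ω) (F.xa t ω) (F.xa t ω') i| ≤ 2 / 2 ^ D ∧
      |dn 0 c (M' ω) (F.d ω) (F.d ω') i| ≤ 1 / 2 ^ D := by
  obtain ⟨h1, h2, h3, h4, -⟩ := Box.mlb_ext hB
  have g1 : |dn w c (M' ω) (F.xa ((F.T1 v ω : ℝ) / 2 ^ v) ω)
      (F.xa ((F.T1 v ω : ℝ) / 2 ^ v) ω') i| ≤ 1 / 2 ^ D := by
    refine dn_of_floor (k := k' i) ?_ hk
    have h5 := congrFun h3 i
    unfold Fam.mps flk at h5
    rw [← h2] at h5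
    have e2 : F.xa ((F.T1 v ω : ℝ) / 2 ^ v) ω' = F.x1 v ω' := by
      rw [h1]
      rfl
    rw [e2]
    exact h5
  have g2 : |dn 0 c (M' ω) (F.d ω) (F.d ω') i| ≤ 1 / 2 ^ D := by
    refine dn_of_floor (k := c' i) ?_ (by omega)
    have h5 := congrFun h4 i
    unfold Fam.mvl flk at h5
    rw [← h2] at h5
    exact h5
  refine ⟨?_, g2⟩
  rw [dn_time w c (M' ω) ((F.T1 v ω : ℝ) / 2 ^ v) t]
  refine (abs_add_le _ _).trans ?_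
  have g3 : |2 ^ w * (t - (F.T1 v ω : ℝ) / 2 ^ v)| ≤ 1 := by
    rw [abs_mul, abs_of_pos (by positivity : (0 : ℝ) < 2 ^ w)]
    have := mul_le_mul_of_nonneg_left ht (by positivity : (0 : ℝ) ≤ 2 ^ w)
    refine this.trans (le_of_eq ?_)
    field_simp
  have g4 := abs_mul_le g3 g2
  have e : (2 : ℝ) / 2 ^ D = 1 / 2 ^ D + 1 * (1 / 2 ^ D) := by ring
  rw [e]
  exact add_le_add g1 g4

/-- The beginnings of two windows. -/
theorem tm_near (F : Fam 3 J) {w v : ℕ} (hwv : w ≤ v) (hv : v ≤ J) (ω : F.Ω) :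
    |(F.T1 v ω : ℝ) / 2 ^ v - (F.T1 w ω : ℝ) / 2 ^ w| ≤ 1 / 2 ^ w := by
  obtain ⟨X, rfl⟩ := Nat.exists_eq_add_of_le hwv
  obtain ⟨s, hs, s0, s1, -⟩ := x1_shift F hv ω
  rw [← hs, abs_of_nonneg s0]
  exact s1

/-- Position and velocity, in natural units of the box. -/
noncomputable def ypv (F : Fam 3 J) (w : ℕ) (c : Fin 3 → ℕ) (M : F.Ω → Fin 3 → Fin 3 → ℝ)
    (ω : F.Ω) : Fin 2 → Fin 3 → ℝ :=
  ![fun j => 2 ^ (w + c j) * mco (M ω) (F.x1 w ω) j, fun j => 2 ^ (0 + c j) * mco (M ω) (F.d ω) j]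

theorem ypv_sub {w : ℕ} {c : Fin 3 → ℕ} {M : F.Ω → Fin 3 → Fin 3 → ℝ} {ω ω' : F.Ω}
    (hM : M ω = M ω') (hT : F.T1 w ω = F.T1 w ω') (j : Fin 3) :
    ypv F w c M ω 0 j - ypv F w c M ω' 0 j = dn w c (M ω) (F.xa ((F.T1 w ω : ℝ) / 2 ^ w) ω)
      (F.xa ((F.T1 w ω : ℝ) / 2 ^ w) ω') j ∧
    ypv F w c M ω 1 j - ypv F w c M ω' 1 j = dn 0 c (M ω) (F.d ω) (F.d ω') j := by
  have e2 : F.xa ((F.T1 w ω : ℝ) / 2 ^ w) ω' = F.x1 w ω' := by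
    rw [hT]
    rfl
  rw [e2, hM]
  constructor
  · show 2 ^ (w + c j) * mco (M ω) (F.x1 w ω) j - 2 ^ (w + c j) * mco (M ω') (F.x1 w ω') j =
      2 ^ (w + c j) * (mco (M ω') (F.x1 w ω) j - mco (M ω') (F.x1 w ω') j)
    rw [hM]
    ring
  · show 2 ^ (0 + c j) * mco (M ω) (F.d ω) j - 2 ^ (0 + c j) * mco (M ω') (F.d ω') j =
      2 ^ (0 + c j) * (mco (M ω') (F.d ω) j - mco (M ω') (F.d ω') j)
    rw [hM]
    ring

theorem blb_same {w : ℕ} {c : Fin 3 → ℕ} {M : F.Ω → Fin 3 → Fin 3 → ℝ} {ω ω' : F.Ω}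
    (h : F.blb w c M ω = F.blb w c M ω') : F.T1 w ω = F.T1 w ω' ∧ M ω = M ω' ∧ F.Z ω = F.Z ω' ∧
      ∀ a j, |ypv F w c M ω a j - ypv F w c M ω' a j| ≤ 1 := by
  obtain ⟨h1, h2, h3, h4, h5⟩ := Box.mlb_ext h
  refine ⟨h1, h2, h5, fun a j => ?_⟩
  obtain ⟨g1, g2⟩ := ypv_sub (c := c) h2 h1 j
  obtain ⟨k1, k2⟩ := mlb_dn (w := w) (D := 0) (c := c) h (t := (F.T1 w ω : ℝ) / 2 ^ w) (i := j)
    (by rw [sub_self, abs_zero]; positivity) (by omega) (by omega)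
  fin_cases a
  · show |ypv F w c M ω 0 j - ypv F w c M ω' 0 j| ≤ 1
    rw [g1]
    have e2 : F.xa ((F.T1 w ω : ℝ) / 2 ^ w) ω' = F.x1 w ω' := by
      rw [h1]
      rfl
    refine (dn_of_floor (k := c j + w) (D := 0) ?_ (by omega)).trans (by norm_num)
    have h5 := congrFun h3 j
    unfold Fam.mps flk at h5
    rw [← h2] at h5
    rw [e2]
    exact h5
  · show |ypv F w c M ω 1 j - ypv F w c M ω' 1 j| ≤ 1
    rw [g2]
    exact k2.trans (by norm_num)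

theorem x1_slam {w : ℕ} {ω ω' : F.Ω} (h : slam F w ω = slam F w ω') :
    F.T1 w ω = F.T1 w ω' ∧ F.Z ω = F.Z ω' ∧ F.d ω = F.d ω' ∧ F.x1 w ω = F.x1 w ω' ∧
      ∀ t, F.xa t ω = F.xa t ω' := by
  unfold slam at h
  simp only [Prod.mk.injEq] at h
  obtain ⟨h1, h2, h3⟩ := h
  have hu : F.u ω = F.u ω' := (Prod.ext_iff.mp h1).1
  have hd : F.d ω = F.d ω' := (Prod.ext_iff.mp h1).2
  refine ⟨h3, h2, hd, ?_, fun t => ?_⟩
  · funext i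
    unfold Fam.x1
    rw [hu, hd, h3]
  · funext i
    unfold Fam.xa
    rw [hu, hd]

/-- The planks, as in `kak3`. -/
theorem plank {C₀ : ℝ} {w v D : ℕ} {c k' c' : Fin 3 → ℕ} {i0 i1 i2 : Fin 3} (h01 : i0 ≠ i1)
    (h02 : i0 ≠ i2) (h12 : i1 ≠ i2) {M M' : F.Ω → Fin 3 → Fin 3 → ℝ} {A A' : Fin 3 → Fin 3 → ℝ}
    {ω ω' : F.Ω} (hA : Chg C₀ c (M ω) (M' ω) A A') (hwv : w ≤ v) (hv : v ≤ J)
    (hb : F.blb w c M ω = F.blb w c M ω') (hB : F.mlb v k' c' M' ω = F.mlb v k' c' M' ω')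
    (hc1 : c i1 + D ≤ c' i1) (hk1 : w + c i1 + D ≤ k' i1)
    (hc2 : c i2 + D ≤ c' i2) (hk2 : w + c i2 + D ≤ k' i2) {r : ℝ}
    (hr : ∀ a j, |ypv F w c M ω a j - ypv F w c M ω' a j| ≤ r) (a : Fin 2) :
    ∃ t : ℝ, |t| ≤ 3 * C₀ * r ∧
      ∀ j, |ypv F w c M ω a j - ypv F w c M ω' a j - t * A' j i0| ≤ 4 * C₀ / 2 ^ D := by
  obtain ⟨h1, h2, -, -⟩ := blb_same hb
  have ht : |(F.T1 w ω : ℝ) / 2 ^ w - (F.T1 v ω : ℝ) / 2 ^ v| ≤ 1 / 2 ^ w := by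
    rw [abs_sub_comm]
    exact tm_near F hwv hv ω
  obtain ⟨p1, v1⟩ := mlb_dn (w := w) hB ht hk1 hc1
  obtain ⟨p2, v2⟩ := mlb_dn (w := w) hB ht hk2 hc2
  rw [← dn_chg hA] at p1 v1 p2 v2
  have hD0 : (0 : ℝ) < 2 ^ D := by positivity
  have h12D : (1 : ℝ) / 2 ^ D ≤ 2 / 2 ^ D := div_le_div_of_nonneg_right (by norm_num) hD0.le
  have e : 2 * C₀ * (2 / (2 : ℝ) ^ D) = 4 * C₀ / 2 ^ D := by ring
  have g := ypv_sub (c := c) h2 h1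
  fin_cases a
  · obtain ⟨t, k1, k2⟩ := split3 h01 h02 h12 hA.inv hA.bd hA.bd' _ p1 p2 (fun j => by
      rw [← (g j).1]
      exact hr 0 j)
    refine ⟨t, k1, fun j => ?_⟩
    show |ypv F w c M ω 0 j - ypv F w c M ω' 0 j - t * A' j i0| ≤ _
    rw [(g j).1, ← e]
    exact k2 j
  · obtain ⟨t, k1, k2⟩ := split3 h01 h02 h12 hA.inv hA.bd hA.bd' _ (v1.trans h12D)
      (v2.trans h12D) (fun j => by
        rw [← (g j).2]
        exact hr 1 j)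
    refine ⟨t, k1, fun j => ?_⟩
    show |ypv F w c M ω 1 j - ypv F w c M ω' 1 j - t * A' j i0| ≤ _
    rw [(g j).2, ← e]
    exact k2 j

end Pool.XF
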