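import Pool.Agent.H81.XF.Rows

/-!
# LEMMA X for flags of length 3: two planks of one line
-/

set_option autoImplicit false

namespace Pool.XF

open Finset Real
open Pool.Agent.H49.Ent Pool.Agent.H32.Dense Pool.STK Pool.KA Pool.KSAT Pool.K2S Pool.PC

variable {J : ℕ}

/-- The normal coordinates of the line with respect to the second plank. -/
noncomputable def nrm (F : Fam 3 J) (w D : ℕ) (c : Fin 3 → ℕ) (i2 : Fin 3)
    (M' : F.Ω → Fin 3 → Fin 3 → ℝ) (u : F.Ω × F.Ω) : Fin 2 → ℤ :=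
  ![⌊(2 : ℝ) ^ (w + c i2 + D) * mco (M' u.2) (F.x1 w u.1) i2⌋,
    ⌊(2 : ℝ) ^ (0 + c i2 + D) * mco (M' u.2) (F.d u.1) i2⌋]

theorem slam_blb {F : Fam 3 J} {w : ℕ} {c : Fin 3 → ℕ} {M : F.Ω → Fin 3 → Fin 3 → ℝ}
    (hM : Det F.p (slam F w) M) : Det F.p (slam F w) (F.blb w c M) := by
  intro ω ω' hω hω' h
  have hz := hM ω ω' hω hω' h
  obtain ⟨h1, h2, h3, h4, -⟩ := x1_slam h
  refine Box.mlb_mk h1 hz ?_ ?_ h2
  · unfold Fam.mps
    rw [hz, h4]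
  · unfold Fam.mvl
    rw [hz, h3]

theorem slam_ypv {F : Fam 3 J} {w : ℕ} {c : Fin 3 → ℕ} {M : F.Ω → Fin 3 → Fin 3 → ℝ}
    (hM : Det F.p (slam F w) M) : Det F.p (slam F w) (ypv F w c M) := by
  intro ω ω' hω hω' h
  have hz := hM ω ω' hω hω' h
  obtain ⟨h1, h2, h3, h4, -⟩ := x1_slam h
  unfold ypv
  rw [hz, h3, h4]

/-- The rows of the long windows, given the line. -/
theorem long_rows {C₀ : ℝ} (hC₀ : 1 ≤ C₀) {Ω T : Type} [Fintype Ω] {q : Ω → ℝ} (hq : IsLaw q)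
    (F : Fam 3 J) (f : Ω → F.Ω) (hf : ∀ u, 0 < q u → 0 < F.p (f u)) {w v v' g D : ℕ}
    {c k' c' : Fin 3 → ℕ} {M M' A A' : F.Ω → Fin 3 → Fin 3 → ℝ}
    (hA : ∀ ω, 0 < F.p ω → Chg C₀ c (M ω) (M' ω) (A ω) (A' ω)) (hwv : w ≤ v') (hv' : v' ≤ J)
    (hvD : v' ≤ w + D) (W : Ω → T) (hW : ∀ u u', W u = W u' →
      dg D (ypv F w c M) (f u) = dg D (ypv F w c M) (f u')) :
    CH q (fun u => row F c M' v' (f u)) (fun u => (W u, (F.T1 v' (f u),
      cxr F c M' (F.mlb g k' c' M') (F.blb w c M) v (f u)))) ≤ 3 * Real.log (12 * C₀ + 3) := by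
  have h2 := CH_bI hq (fun u => row F c M' v' (f u)) (fun u => (W u, (F.T1 v' (f u),
      cxr F c M' (F.mlb g k' c' M') (F.blb w c M) v (f u)))) (6 * C₀ + 1) (by linarith) ?_
  · refine h2.trans (le_of_eq ?_)
    rw [Fintype.card_fin]
    have e : 2 * (6 * C₀ + 1) + 1 = 12 * C₀ + 3 := by ring
    rw [e]
    norm_num
  intro u u' hu _ h j
  simp only [Prod.mk.injEq] at h
  obtain ⟨h1, h2, h3⟩ := h
  unfold cxr at h3
  simp only [Prod.mk.injEq] at h3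
  exact row_line hC₀ (hA _ (hf u hu)) hwv hv' hvD h3.1.2 h3.1.1 h2 (hW u u' h1) j

open Classical in
/-- The rows of the short windows, given the normal coordinate of another plank. -/
theorem short_rows {C₀ : ℝ} (hC₀ : 1 ≤ C₀) (F : Fam 3 J) {w v v' g D x X : ℕ}
    {c k' c' : Fin 3 → ℕ} {i2 : Fin 3} {M M' A A' : F.Ω → Fin 3 → Fin 3 → ℝ} {T : Type}
    (hA : ∀ ω, 0 < F.p ω → Chg C₀ c (M ω) (M' ω) (A ω) (A' ω)) (hM : Det F.p (slam F w) M)
    (hwg : w ≤ g) (hgv : g ≤ v') (hv' : v' ≤ J) (hvD : v' ≤ w + D) (hvv : v ≤ v')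
    (hX : v' - v = X) (hc : ∀ j, c j ≤ c' j)
    (hc2 : c i2 + D ≤ c' i2) (hk2 : w + c i2 + D ≤ k' i2) {r : ℝ}
    (hr : Pe (dbl F.p (slam F w)) (fun u => ∀ j,
      |crs (A u.1 i2) (A u.2 i2) j| ≤ 1 / 2 ^ x) ≤ r) (W : F.Ω × F.Ω → T) :
    CH (dbl F.p (slam F w)) (fun u => row F c M' v' u.1)
      (fun u => (((M' u.2, nrm F w D c i2 M' u), W u), (F.T1 v' u.1,
        cxr F c M' (F.mlb g k' c' M') (F.blb w c M) v u.1))) ≤
      Real.log 3 + (X * Real.log 2 + Real.log (12 * C₀ + 3)) +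
        3 * ((x * Real.log 2 + Real.log (6 * C₀ + 24 * C₀ ^ 2 + 3)) +
          r * (X * Real.log 2 + Real.log 7)) := by
  have hp := F.isLaw
  have hp0 := hp.nonneg
  obtain ⟨q, hq⟩ : ∃ q, q = dbl F.p (slam F w) := ⟨_, rfl⟩
  rw [← hq] at hr ⊢
  have mf : Marg q F.p (fun u => u.1) := by rw [hq]; exact dbl_fst hp0
  have ms : Marg q F.p (fun u => u.2) := by rw [hq]; exact dbl_snd hp0
  have hq0 : ∀ u, 0 ≤ q u := by rw [hq]; exact dbl_nonneg hp0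
  have hql : IsLaw q := ⟨hq0, by rw [mf.sum]; exact hp.sum_one⟩
  have heq : ∀ u, 0 < q u → slam F w u.1 = slam F w u.2 := by
    intro u hu
    rw [hq] at hu
    exact dbl_eq hp0 hu
  have hwv : w ≤ v' := hwg.trans hgv
  have hr0 : 0 ≤ r := (Pe_nonneg hql _).trans hr
  -- the largest coordinate of the vector product
  have hex : ∀ u : F.Ω × F.Ω, ∃ κ : Fin 3, ∀ j, |crs (A u.1 i2) (A u.2 i2) j| ≤
      |crs (A u.1 i2) (A u.2 i2) κ| := by
    intro u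
    obtain ⟨κ, -, hκ⟩ := Finset.exists_max_image Finset.univ
      (fun j : Fin 3 => |crs (A u.1 i2) (A u.2 i2) j|) ⟨0, Finset.mem_univ _⟩
    exact ⟨κ, fun j => hκ j (Finset.mem_univ _)⟩
  choose κ hκ using hex
  obtain ⟨ζ, hζ⟩ : ∃ ζ : F.Ω × F.Ω → ℤ, ζ = fun u =>
    ⌊(2 : ℝ) ^ (c (κ u) + v') * mco (M u.1) (F.x1 v' u.1) (κ u)⌋ := ⟨_, rfl⟩
  obtain ⟨V, hV⟩ : ∃ V : F.Ω × F.Ω → (((Fin 3 → Fin 3 → ℝ) × (Fin 2 → ℤ)) × T) × (ℕ ×
      ((((ℕ × (Fin 3 → Fin 3 → ℝ)) × ((Fin 3 → ℤ) × (Fin 3 → ℤ))) × F.ζ) ×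
      (((ℕ × (Fin 3 → Fin 3 → ℝ)) × ((Fin 3 → ℤ) × (Fin 3 → ℤ))) × F.ζ)) × (ℕ × (Fin 3 → ℤ))),
      V = (fun u => (((M' u.2, nrm F w D c i2 M' u), W u), (F.T1 v' u.1,
        cxr F c M' (F.mlb g k' c' M') (F.blb w c M) v u.1))) := ⟨_, rfl⟩
  rw [← hV]
  have Vex : ∀ u u', V u = V u' → M' u.2 = M' u'.2 ∧ nrm F w D c i2 M' u = nrm F w D c i2 M' u' ∧
      F.T1 v' u.1 = F.T1 v' u'.1 ∧ F.mlb g k' c' M' u.1 = F.mlb g k' c' M' u'.1 ∧
      F.blb w c M u.1 = F.blb w c M u'.1 ∧ row F c M' v u.1 = row F c M' v u'.1 := by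
    intro u u' h
    rw [hV] at h
    unfold cxr at h
    simp only [Prod.mk.injEq] at h
    tauto
  have hPv : (0 : ℝ) < 2 ^ X := by positivity
  have crude : ∀ u u', 0 < q u → V u = V u' →
      (∀ j, |dn v' c (M' u.1) (F.xa ((F.T1 v' u.1 : ℝ) / 2 ^ v') u.1)
        (F.xa ((F.T1 v' u.1 : ℝ) / 2 ^ v') u'.1) j| ≤ 2 * 2 ^ X) ∧
      ∀ j, |dn v' c (M u.1) (F.xa ((F.T1 v' u.1 : ℝ) / 2 ^ v') u.1)
        (F.xa ((F.T1 v' u.1 : ℝ) / 2 ^ v') u'.1) j| ≤ 6 * C₀ * 2 ^ X := by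
    intro u u' hu h
    obtain ⟨h1, h2, h3, h4, h5, h6⟩ := Vex u u' h
    have := row_crude (hA _ (mf.pos hq0 hu)) hvv hv' hc h4 h3 h6
    rw [hX] at this
    exact this
  have zfl : ∀ u u', V u = V u' → ∀ k : Fin 3,
      F.xa ((F.T1 v' u.1 : ℝ) / 2 ^ v') u.1 = F.x1 v' u.1 ∧
      F.xa ((F.T1 v' u.1 : ℝ) / 2 ^ v') u'.1 = F.x1 v' u'.1 ∧ M u.1 = M u'.1 := by
    intro u u' h k
    obtain ⟨h1, h2, h3, h4, h5, h6⟩ := Vex u u' h
    refine ⟨rfl, ?_, (blb_same h5).2.1⟩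
    rw [h3]
    rfl
  -- the auxiliary digits
  have a1 : CH q κ V ≤ Real.log 3 := by
    have h3 := CH_le_card hq0 hql.sum_one κ V (fun _ => Finset.univ)
      (fun ω _ => Finset.mem_univ _)
    refine h3.trans ?_
    rw [Ex_const hql.sum_one]
    simp
  have a2 : CH q ζ (fun u => (κ u, V u)) ≤ X * Real.log 2 + Real.log (12 * C₀ + 3) := by
    have h := CH_bd1 hql ζ (fun u => (κ u, V u)) (6 * C₀ * 2 ^ X + 1) ?_
    · refine h.trans ?_
      have h1 : 2 * (6 * C₀ * 2 ^ X + 1) + 1 ≤ (2 : ℝ) ^ X * (12 * C₀ + 3) := by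
        have : (1 : ℝ) ≤ 2 ^ X := one_le_pow₀ (by norm_num)
        linarith
      refine (Real.log_le_log (by positivity) h1).trans ?_
      rw [Real.log_mul (by positivity) (by positivity), Real.log_pow]
    · intro u u' hu _ h
      simp only [Prod.mk.injEq] at h
      obtain ⟨hk, hV'⟩ := h
      have g := (crude u u' hu hV').2 (κ u)
      obtain ⟨z1, z2, z3⟩ := zfl u u' hV' 0
      rw [z1, z2] at g
      have g2 := floor_of_dn (e := v') (k := c (κ u) + v') (D := 0) (r := 6 * C₀ * 2 ^ X) (by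
        rw [pow_zero, div_one]
        exact g) (by omega)
      rw [hζ]
      dsimp only
      rw [← hk, ← z3]
      exact g2
  -- the row
  have a3 : CH q (fun u => row F c M' v' u.1) (fun u => (ζ u, (κ u, V u))) ≤
      3 * ((x * Real.log 2 + Real.log (6 * C₀ + 24 * C₀ ^ 2 + 3)) +
        r * (X * Real.log 2 + Real.log 7)) := by
    have h := CH_gI hql (fun u => row F c M' v' u.1) (fun u => (ζ u, (κ u, V u)))
      (fun u => ∀ j, |crs (A u.1 i2) (A u.2 i2) j| ≤ 1 / 2 ^ x)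
      (3 * C₀ * (1 + 4 * C₀ * 2 ^ x) + 1) (2 * 2 ^ X + 1) r (by positivity) (by positivity) hr
      ?_ ?_
    · refine h.trans ?_
      have g1 : Real.log (2 * (3 * C₀ * (1 + 4 * C₀ * 2 ^ x) + 1) + 1) ≤
          x * Real.log 2 + Real.log (6 * C₀ + 24 * C₀ ^ 2 + 3) := by
        have h1 : 2 * (3 * C₀ * (1 + 4 * C₀ * 2 ^ x) + 1) + 1 ≤
            (2 : ℝ) ^ x * (6 * C₀ + 24 * C₀ ^ 2 + 3) := by
          have h2 : (1 : ℝ) ≤ 2 ^ x := one_le_pow₀ (by norm_num)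
          have h3 := mul_le_mul_of_nonneg_right h2 (show 0 ≤ 6 * C₀ + 3 by linarith)
          have e1 : 2 * (3 * C₀ * (1 + 4 * C₀ * 2 ^ x) + 1) + 1 = 1 * (6 * C₀ + 3) +
            24 * C₀ ^ 2 * 2 ^ x := by ring
          have e2 : (2 : ℝ) ^ x * (6 * C₀ + 24 * C₀ ^ 2 + 3) = 2 ^ x * (6 * C₀ + 3) +
            24 * C₀ ^ 2 * 2 ^ x := by ring
          rw [e1, e2]
          linarith
        refine (Real.log_le_log (by positivity) h1).trans ?_
        rw [Real.log_mul (by positivity) (by positivity), Real.log_pow]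
      have g2 : Real.log (2 * (2 * (2 : ℝ) ^ X + 1) + 1) ≤ X * Real.log 2 + Real.log 7 := by
        have h1 : 2 * (2 * (2 : ℝ) ^ X + 1) + 1 ≤ (2 : ℝ) ^ X * 7 := by
          have : (1 : ℝ) ≤ 2 ^ X := one_le_pow₀ (by norm_num)
          linarith
        refine (Real.log_le_log (by positivity) h1).trans ?_
        rw [Real.log_mul (by positivity) (by positivity), Real.log_pow]
      have g3 := mul_le_mul_of_nonneg_left g2 hr0
      rw [Fintype.card_fin]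
      push_cast
      linarith
    · intro u u' hu hu' h hB j
      simp only [Prod.mk.injEq] at h
      obtain ⟨hζ', hκ', hV'⟩ := h
      obtain ⟨h1, h2, h3, h4, h5, h6⟩ := Vex u u' hV'
      push Not at hB
      obtain ⟨i, hi⟩ := hB
      obtain ⟨z1, z2, z3⟩ := zfl u u' hV' 0
      have hMτ : M u.1 = M u.2 := hM _ _ (mf.pos hq0 hu) (ms.pos hq0 hu) (heq u hu)
      have hz : |dn v' c (M u.1) (F.xa ((F.T1 v' u.1 : ℝ) / 2 ^ v') u.1)
          (F.xa ((F.T1 v' u.1 : ℝ) / 2 ^ v') u'.1) (κ u)| ≤ 1 := by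
        rw [z1, z2]
        refine (dn_of_floor (k := c (κ u) + v') (D := 0) ?_ (by omega)).trans (by norm_num)
        rw [hζ] at hζ'
        dsimp only at hζ'
        rw [← hκ', ← z3] at hζ'
        exact hζ'
      have fine := row_fine (x := x) (D := D) (κ := κ u) hC₀ (hA _ (mf.pos hq0 hu))
        (hA _ (ms.pos hq0 hu)) hwg hgv hv' hvD hMτ h5 h4 hc2 hk2 h1 (congrFun h2 0)
        (congrFun h2 1) (hκ u) (hi.trans_le (hκ u i)) hz j
      exact row_close (Box.mlb_ext h4).2.1 h3 j fine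
    · intro u u' hu hu' h j
      simp only [Prod.mk.injEq] at h
      obtain ⟨h1, h2, h3, h4, h5, h6⟩ := Vex u u' h.2.2
      exact row_close (Box.mlb_ext h4).2.1 h3 j ((crude u u' hu h.2.2).1 j)
  have b1 := CH_le_add hq0 (fun u => row F c M' v' u.1) (fun u => (ζ u, κ u)) V
  have b2 := CH_chain hq0 ζ κ V
  have b3 : CH q (fun u => row F c M' v' u.1) (fun u => ((ζ u, κ u), V u)) ≤
      CH q (fun u => row F c M' v' u.1) (fun u => (ζ u, (κ u, V u))) :=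
    CH_mono_cond hq0 fun u u' _ _ h => by
      simp only [Prod.mk.injEq] at h ⊢
      tauto
  linarith

end Pool.XF
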