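import Pool.Agent.H81.XF.Stm

/-!
# LEMMA X for flags of length 3: the entropy part
-/

set_option autoImplicit false

namespace Pool.XF

open Finset Real
open Pool.Agent.H49.Ent Pool.Agent.H32.Dense Pool.STK Pool.KA Pool.KSAT Pool.K2S Pool.PC

variable {Ω S T U V W : Type} [Fintype Ω] {p : Ω → ℝ}

/-- **Rows and information.** `c (i + 1)` determines `(Y i, τ i, c i)` up to `e'`. -/
theorem payI (hp : ∀ ω, 0 ≤ p ω) (n : ℕ) (L : Ω → S) (c : ℕ → Ω → T) (τ : ℕ → Ω → U)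
    (Y : ℕ → Ω → V) {e' : ℝ}
    (h1 : ∀ i < n, CH p (fun ω => (Y i ω, (τ i ω, c i ω))) (c (i + 1)) ≤ e') :
    ∑ i ∈ Finset.range n, CH p (Y i) (fun ω => (τ i ω, c i ω)) ≤
      CH p L (c 0) + n * e' +
        ∑ i ∈ Finset.range n, CH p (Y i) (fun ω => (L ω, (τ i ω, c i ω))) := by
  have key : ∑ i ∈ Finset.range n, CH p (Y i) (fun ω => (τ i ω, c i ω)) ≤
      CH p L (c 0) - CH p L (c n) + n * e' +
        ∑ i ∈ Finset.range n, CH p (Y i) (fun ω => (L ω, (τ i ω, c i ω))) := by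
    induction n with
    | zero => simp
    | succ n ih =>
      rw [Finset.sum_range_succ, Finset.sum_range_succ]
      have i1 := ih (fun i hi => h1 i (hi.trans (Nat.lt_succ_self n)))
      have i2 : CH p L (fun ω => (τ n ω, c n ω)) ≤ CH p L (c n) :=
        CH_mono_cond hp fun ω ω' _ _ h => (Prod.ext_iff.mp h).2
      have i3 := CH_chain hp L (Y n) (fun ω => (τ n ω, c n ω))
      have i4 := CH_chain hp (Y n) L (fun ω => (τ n ω, c n ω))
      have i5 : CH p (fun ω => (L ω, Y n ω)) (fun ω => (τ n ω, c n ω)) =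
          CH p (fun ω => (Y n ω, L ω)) (fun ω => (τ n ω, c n ω)) := by
        refine CH_congr hp ?_ ?_ (fun _ _ _ _ h => h) (fun _ _ _ _ h => h) <;>
        · intro ω ω' _ _ h
          simp only [Prod.mk.injEq] at h ⊢
          tauto
      have i7 : CH p L (c (n + 1)) ≤ CH p L (fun ω => (Y n ω, (τ n ω, c n ω))) + e' := by
        refine (CH_le_add hp L (fun ω => (Y n ω, (τ n ω, c n ω))) (c (n + 1))).trans ?_
        have j1 := h1 n (Nat.lt_succ_self n)
        have j2 : CH p L (fun ω => ((Y n ω, (τ n ω, c n ω)), c (n + 1) ω)) ≤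
            CH p L (fun ω => (Y n ω, (τ n ω, c n ω))) :=
          CH_mono_cond hp fun ω ω' _ _ h => (Prod.ext_iff.mp h).1
        linarith
      push_cast
      linarith
  have h := CH_nonneg hp L (c n)
  linarith

/-- Three variables. -/
theorem CH_three (hp : ∀ ω, 0 ≤ p ω) (x y z : Ω → V) (W : Ω → T) :
    CH p x (fun ω => ((y ω, z ω), W ω)) + CH p y (fun ω => ((x ω, z ω), W ω)) +
      CH p z (fun ω => ((x ω, y ω), W ω)) ≤ CH p (fun ω => (x ω, (y ω, z ω))) W := by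
  have h1 := CH_chain hp x (fun ω => (y ω, z ω)) W
  have h2 := CH_chain hp y z W
  have h3 : CH p y (fun ω => ((x ω, z ω), W ω)) ≤ CH p y (fun ω => (z ω, W ω)) :=
    CH_mono_cond hp fun ω ω' _ _ h => by
      simp only [Prod.mk.injEq] at h ⊢
      exact ⟨h.1.2, h.2⟩
  have h4 : CH p z (fun ω => ((x ω, y ω), W ω)) ≤ CH p z W :=
    CH_mono_cond hp fun ω ω' _ _ h => (Prod.ext_iff.mp h).2
  linarith

/-- **One block** of the three planks. -/
theorem joint_block (hp : ∀ ω, 0 ≤ p ω) (X' : Ω → S) (x y z : Ω → V) (B1 B2 B3 : Ω → U)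
    (W : Ω → T) {e1 e2 e3 : ℝ}
    (h2 : CH p X' (fun ω => ((x ω, (y ω, z ω)), W ω)) ≤ e2)
    (h3 : CH p (fun ω => (x ω, (y ω, z ω))) (fun ω => (X' ω, W ω)) ≤ e3)
    (a1 : CH p (fun ω => (y ω, z ω)) (fun ω => (B1 ω, W ω)) ≤ e1)
    (a2 : CH p (fun ω => (x ω, z ω)) (fun ω => (B2 ω, W ω)) ≤ e1)
    (a3 : CH p (fun ω => (x ω, y ω)) (fun ω => (B3 ω, W ω)) ≤ e1) :
    CH p X' (fun ω => (B1 ω, W ω)) + CH p X' (fun ω => (B2 ω, W ω)) +
      CH p X' (fun ω => (B3 ω, W ω)) ≤ CH p X' W + (3 * e1 + 3 * e2 + e3) := by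
  have key : ∀ (B : Ω → U) (u : Ω → V) (v : Ω → V × V),
      Det p (fun ω => (u ω, v ω)) (fun ω => (x ω, (y ω, z ω))) →
      CH p v (fun ω => (B ω, W ω)) ≤ e1 →
      CH p X' (fun ω => (B ω, W ω)) ≤ CH p u (fun ω => (v ω, W ω)) + e1 + e2 := by
    intro B u v hd hv
    have k1 := CH_le_add hp X' (fun ω => (u ω, v ω)) (fun ω => (B ω, W ω))
    have k2 := CH_chain hp u v (fun ω => (B ω, W ω))
    have k3 : CH p u (fun ω => (v ω, (B ω, W ω))) ≤ CH p u (fun ω => (v ω, W ω)) :=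
      CH_mono_cond hp fun ω ω' _ _ h => by
        simp only [Prod.mk.injEq] at h ⊢
        exact ⟨h.1, h.2.2⟩
    have k4 : CH p X' (fun ω => ((u ω, v ω), (B ω, W ω))) ≤
        CH p X' (fun ω => ((x ω, (y ω, z ω)), W ω)) :=
      CH_mono_cond hp fun ω ω' hω hω' h => by
        simp only [Prod.mk.injEq] at h
        have h1 := hd ω ω' hω hω' (Prod.ext h.1.1 h.1.2)
        simp only [Prod.mk.injEq] at h1 ⊢
        exact ⟨h1, h.2.2⟩
    linarith
  have b1 := key B1 x (fun ω => (y ω, z ω)) (fun ω ω' _ _ h => h) a1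
  have b2 := key B2 y (fun ω => (x ω, z ω)) (fun ω ω' _ _ h => by
    simp only [Prod.mk.injEq] at h ⊢
    tauto) a2
  have b3 := key B3 z (fun ω => (x ω, y ω)) (fun ω ω' _ _ h => by
    simp only [Prod.mk.injEq] at h ⊢
    tauto) a3
  have b4 := CH_three hp x y z W
  have b5 := CH_le_add hp (fun ω => (x ω, (y ω, z ω))) X' W
  linarith

/-- **All blocks.** -/
theorem blocks (hp : ∀ ω, 0 ≤ p ω) (K : ℕ) (X : ℕ → Ω → S) (B1 B2 B3 : Ω → U) (W : Ω → T)
    {e : ℝ} (hX : ∀ k < K, Det p (X (k + 1)) (X k))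
    (h : ∀ k < K, CH p (X (k + 1)) (fun ω => (B1 ω, (X k ω, W ω))) +
      CH p (X (k + 1)) (fun ω => (B2 ω, (X k ω, W ω))) +
      CH p (X (k + 1)) (fun ω => (B3 ω, (X k ω, W ω))) ≤
      CH p (X (k + 1)) (fun ω => (X k ω, W ω)) + e) :
    CH p (X K) (fun ω => (B1 ω, (X 0 ω, W ω))) + CH p (X K) (fun ω => (B2 ω, (X 0 ω, W ω))) +
      CH p (X K) (fun ω => (B3 ω, (X 0 ω, W ω))) ≤ CH p (X K) W + K * e := by
  have z : ∀ B : Ω → U, CH p (X 0) (fun ω => (B ω, (X 0 ω, W ω))) = 0 := fun B =>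
    CH_eq_zero hp fun ω ω' _ _ h => by
      simp only [Prod.mk.injEq] at h
      exact h.2.1
  have st : ∀ (B : Ω → U) (k : ℕ), CH p (X (k + 1)) (fun ω => (B ω, (X 0 ω, W ω))) ≤
      CH p (X k) (fun ω => (B ω, (X 0 ω, W ω))) +
        CH p (X (k + 1)) (fun ω => (B ω, (X k ω, W ω))) := by
    intro B k
    have k1 := CH_le_add hp (X (k + 1)) (X k) (fun ω => (B ω, (X 0 ω, W ω)))
    have k2 : CH p (X (k + 1)) (fun ω => (X k ω, (B ω, (X 0 ω, W ω)))) ≤
        CH p (X (k + 1)) (fun ω => (B ω, (X k ω, W ω))) :=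
      CH_mono_cond hp fun ω ω' _ _ h => by
        simp only [Prod.mk.injEq] at h ⊢
        tauto
    linarith
  have key : CH p (X K) (fun ω => (B1 ω, (X 0 ω, W ω))) +
      CH p (X K) (fun ω => (B2 ω, (X 0 ω, W ω))) +
      CH p (X K) (fun ω => (B3 ω, (X 0 ω, W ω))) ≤ CH p (X K) W - CH p (X 0) W + K * e := by
    induction K with
    | zero =>
      rw [z, z, z]
      simp
    | succ K ih =>
      have i1 := ih (fun k hk => hX k (hk.trans (Nat.lt_succ_self K)))
        (fun k hk => h k (hk.trans (Nat.lt_succ_self K)))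
      have i2 := h K (Nat.lt_succ_self K)
      have s1 := st B1 K
      have s2 := st B2 K
      have s3 := st B3 K
      have g : CH p (X (K + 1)) W = CH p (X K) W + CH p (X (K + 1)) (fun ω => (X K ω, W ω)) := by
        rw [← CH_chain hp]
        refine CH_congr hp ?_ ?_ (fun _ _ _ _ h => h) (fun _ _ _ _ h => h)
        · intro ω ω' hω hω' h
          have h1 := (Prod.ext_iff.mp h).1
          exact Prod.ext h1 (hX K (Nat.lt_succ_self K) ω ω' hω hω' h1)
        · intro ω ω' _ _ h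
          exact (Prod.ext_iff.mp (Prod.ext_iff.mp h).1).1
      push_cast
      linarith
  have h0 := CH_nonneg hp (X 0) W
  linarith

open Classical in
/-- Integer vectors which are determined up to bounded errors, with a bad event. -/
theorem CH_gI {ι : Type} [Fintype ι] (hp : IsLaw p) (X : Ω → ι → ℤ) (W : Ω → T)
    (Bad : Ω → Prop) (L M ε : ℝ) (hL : 0 ≤ L) (hM : 0 ≤ M) (hε : Pe p Bad ≤ ε)
    (hX : ∀ ω ω', 0 < p ω → 0 < p ω' → W ω = W ω' → ¬ Bad ω →
      ∀ k, |((X ω k - X ω' k : ℤ) : ℝ)| ≤ L)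
    (hXM : ∀ ω ω', 0 < p ω → 0 < p ω' → W ω = W ω' → ∀ k, |((X ω k - X ω' k : ℤ) : ℝ)| ≤ M) :
    CH p X W ≤ Fintype.card ι * (Real.log (2 * L + 1) + ε * Real.log (2 * M + 1)) := by
  obtain ⟨N, hN⟩ : ∃ N : Ω → ℝ, N = fun ω => if Bad ω then M else L := ⟨_, rfl⟩
  obtain ⟨X', hX'⟩ : ∃ X' : Ω → Fin (Fintype.card ι) → ℤ,
    X' = fun ω i => X ω ((Fintype.equivFin ι).symm i) := ⟨_, rfl⟩
  have h0 : CH p X W ≤ CH p X' W := by
    refine CH_mono_left hp.nonneg fun ω ω' _ _ h => ?_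
    have h1 := (Prod.ext_iff.mp h).1
    simp only at h1
    funext i
    have h2 := congrFun h1 (Fintype.equivFin ι i)
    rw [hX'] at h2
    simpa using h2
  have h4 : CH p X' W ≤ (Fintype.card ι : ℕ) * Ex p (fun ω => Real.log (2 * N ω + 1)) := by
    refine CH_le_vec hp.nonneg hp.sum_one X' _ N ?_
    intro ω ω' hω hω' h k
    rw [hX', hN]
    dsimp only
    by_cases h7 : Bad ω
    · rw [if_pos h7]
      exact hXM ω ω' hω hω' h _
    · rw [if_neg h7]
      exact hX ω ω' hω hω' h h7 _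
  have hlogM : 0 ≤ Real.log (2 * M + 1) := Real.log_nonneg (by linarith)
  have h5 : Ex p (fun ω => Real.log (2 * N ω + 1)) ≤
      Real.log (2 * L + 1) + ε * Real.log (2 * M + 1) := by
    have h6 : Ex p (fun ω => Real.log (2 * N ω + 1)) ≤ Ex p (fun ω => Real.log (2 * L + 1) +
        Real.log (2 * M + 1) * (if Bad ω then 1 else 0)) := by
      refine Ex_mono hp.nonneg fun ω _ => ?_
      have hlogL : 0 ≤ Real.log (2 * L + 1) := Real.log_nonneg (by linarith)
      rw [hN]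
      dsimp only
      by_cases h7 : Bad ω
      · rw [if_pos h7, if_pos h7]
        linarith
      · rw [if_neg h7, if_neg h7]
        linarith
    rw [Ex_add, Ex_const hp.sum_one, Ex_smul] at h6
    have h8 : Ex p (fun ω => if Bad ω then (1 : ℝ) else 0) = Pe p Bad := by
      rw [Pe_eq]
      unfold Ex
      refine Finset.sum_congr rfl fun ω _ => ?_
      by_cases h9 : Bad ω
      · simp [h9]
      · simp [h9]
    rw [h8] at h6
    have h9 := mul_le_mul_of_nonneg_left hε hlogM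
    linarith
  have h10 : ((Fintype.card ι : ℕ) : ℝ) * Ex p (fun ω => Real.log (2 * N ω + 1)) ≤
      (Fintype.card ι : ℕ) * (Real.log (2 * L + 1) + ε * Real.log (2 * M + 1)) :=
    mul_le_mul_of_nonneg_left h5 (Nat.cast_nonneg _)
  linarith

/-- The same without a bad event. -/
theorem CH_bI {ι : Type} [Fintype ι] (hp : IsLaw p) (X : Ω → ι → ℤ) (W : Ω → T) (L : ℝ)
    (hL : 0 ≤ L) (hX : ∀ ω ω', 0 < p ω → 0 < p ω' → W ω = W ω' →
      ∀ k, |((X ω k - X ω' k : ℤ) : ℝ)| ≤ L) :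
    CH p X W ≤ Fintype.card ι * Real.log (2 * L + 1) := by
  have h0 : Pe p (fun _ => False) ≤ 0 := by
    unfold Pe
    refine le_of_eq (Finset.sum_eq_zero fun ω _ => ?_)
    exact if_neg (by simp)
  have h := CH_gI hp X W (fun _ => False) L L 0 hL hL h0
    (fun ω ω' a b c _ => hX ω ω' a b c) hX
  simpa using h

end Pool.XF
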