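import Pool.Agent.H81.XF.Nat

/-!
# LEMMA X for flags of length 3: the rows
-/

set_option autoImplicit false

namespace Pool.XF

open Finset Real
open Pool.Agent.H49.Ent Pool.Agent.H32.Dense Pool.STK Pool.KA Pool.KSAT Pool.K2S Pool.PC

variable {J : ℕ} {F : Fam 3 J}

theorem dn_scale {w v : ℕ} (h : w ≤ v) (c : Fin 3 → ℕ) (N : Fin 3 → Fin 3 → ℝ)
    (x x' : Fin 3 → ℝ) (j : Fin 3) : dn v c N x x' j = 2 ^ (v - w) * dn w c N x x' j := by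
  unfold dn
  have e : (2 : ℝ) ^ (v + c j) = 2 ^ (v - w) * 2 ^ (w + c j) := by
    rw [← pow_add]
    congr 1
    omega
  rw [e]
  ring

/-- A vector whose products with `a` and `b` are small. -/
theorem crs_le {a b δ : Fin 3 → ℝ} {C₀ ρ : ℝ} (ha : ∀ j, |a j| ≤ C₀) (hb : ∀ j, |b j| ≤ C₀)
    (h1 : |∑ j, a j * δ j| ≤ ρ) (h2 : |∑ j, b j * δ j| ≤ ρ) (i k : Fin 3) :
    |δ i * crs a b k - δ k * crs a b i| ≤ 2 * C₀ * ρ := by
  have key : ∀ l : Fin 3, |a l * (∑ j, b j * δ j) - b l * (∑ j, a j * δ j)| ≤ 2 * C₀ * ρ := by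
    intro l
    refine (abs_sub _ _).trans ?_
    have g1 := abs_mul_le (ha l) h2
    have g2 := abs_mul_le (hb l) h1
    linarith
  have hC : 0 ≤ 2 * C₀ * ρ := (abs_nonneg _).trans (key 0)
  rw [Fin.sum_univ_three, Fin.sum_univ_three] at key
  have k0 := key 0
  have k1 := key 1
  have k2 := key 2
  have d01 : |δ 0 * crs a b 1 - δ 1 * crs a b 0| ≤ 2 * C₀ * ρ := by
    refine le_trans (le_of_eq ?_) k2
    congr 1
    show δ 0 * (a 2 * b 0 - a 0 * b 2) - δ 1 * (a 1 * b 2 - a 2 * b 1) = _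
    ring
  have d12 : |δ 1 * crs a b 2 - δ 2 * crs a b 1| ≤ 2 * C₀ * ρ := by
    refine le_trans (le_of_eq ?_) k0
    congr 1
    show δ 1 * (a 0 * b 1 - a 1 * b 0) - δ 2 * (a 2 * b 0 - a 0 * b 2) = _
    ring
  have d20 : |δ 2 * crs a b 0 - δ 0 * crs a b 2| ≤ 2 * C₀ * ρ := by
    refine le_trans (le_of_eq ?_) k1
    congr 1
    show δ 2 * (a 1 * b 2 - a 2 * b 1) - δ 0 * (a 0 * b 1 - a 1 * b 0) = _
    ring
  have zz : ∀ i, |δ i * crs a b i - δ i * crs a b i| ≤ 2 * C₀ * ρ := by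
    intro i
    rw [sub_self, abs_zero]
    exact hC
  have sw : ∀ i k, |δ i * crs a b k - δ k * crs a b i| ≤ 2 * C₀ * ρ →
      |δ k * crs a b i - δ i * crs a b k| ≤ 2 * C₀ * ρ := by
    intro i k h
    rw [abs_sub_comm]
    exact h
  fin_cases i <;> fin_cases k
  · exact zz 0
  · exact d01
  · exact sw _ _ d20
  · exact sw _ _ d01
  · exact zz 1
  · exact d12
  · exact d20
  · exact sw _ _ d12
  · exact zz 2

/-- Equal rows. -/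
theorem row_dn {c : Fin 3 → ℕ} {M' : F.Ω → Fin 3 → Fin 3 → ℝ} {v : ℕ} {ω ω' : F.Ω}
    (h : row F c M' v ω = row F c M' v ω') (hM : M' ω = M' ω') (hT : F.T1 v ω = F.T1 v ω')
    (j : Fin 3) : |dn v c (M' ω) (F.xa ((F.T1 v ω : ℝ) / 2 ^ v) ω)
      (F.xa ((F.T1 v ω : ℝ) / 2 ^ v) ω') j| ≤ 1 := by
  have e2 : F.xa ((F.T1 v ω : ℝ) / 2 ^ v) ω' = F.x1 v ω' := by
    rw [hT]
    rfl
  refine (dn_of_floor (k := c j + v) (D := 0) ?_ (by omega)).trans (by norm_num)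
  have h5 := congrFun h j
  unfold row Fam.mps flk at h5
  rw [← hM] at h5
  rw [e2]
  exact h5

/-- Close rows. -/
theorem row_close {c : Fin 3 → ℕ} {M' : F.Ω → Fin 3 → Fin 3 → ℝ} {v : ℕ} {ω ω' : F.Ω} {r : ℝ}
    (hM : M' ω = M' ω') (hT : F.T1 v ω = F.T1 v ω') (j : Fin 3)
    (h : |dn v c (M' ω) (F.xa ((F.T1 v ω : ℝ) / 2 ^ v) ω)
      (F.xa ((F.T1 v ω : ℝ) / 2 ^ v) ω') j| ≤ r) :
    |((row F c M' v ω j - row F c M' v ω' j : ℤ) : ℝ)| ≤ r + 1 := by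
  have e2 : F.xa ((F.T1 v ω : ℝ) / 2 ^ v) ω' = F.x1 v ω' := by
    rw [hT]
    rfl
  rw [e2] at h
  have g := floor_of_dn (e := v) (k := c j + v) (c := c) (N := M' ω) (x := F.x1 v ω)
    (x' := F.x1 v ω') (j := j) (D := 0) (r := r) (by
      rw [pow_zero, div_one]
      exact h) (by omega)
  show |((⌊(2 : ℝ) ^ (c j + v) * mco (M' ω) (F.x1 v ω) j⌋ -
    ⌊(2 : ℝ) ^ (c j + v) * mco (M' ω') (F.x1 v ω') j⌋ : ℤ) : ℝ)| ≤ _
  rw [← hM]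
  exact g

/-- The position at another time. -/
theorem dn_move {c : Fin 3 → ℕ} {N : Fin 3 → Fin 3 → ℝ} {e : ℕ} {s t : ℝ} {ω ω' : F.Ω}
    {j : Fin 3} {r ρ : ℝ} (h : |dn e c N (F.xa s ω) (F.xa s ω') j| ≤ r)
    (hv : |dn 0 c N (F.d ω) (F.d ω') j| ≤ ρ) (hst : |t - s| ≤ 1 / 2 ^ e) :
    |dn e c N (F.xa t ω) (F.xa t ω') j| ≤ r + ρ := by
  rw [dn_time e c N s t]
  refine (abs_add_le _ _).trans (add_le_add h ?_)
  have g3 : |2 ^ e * (t - s)| ≤ 1 := by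
    rw [abs_mul, abs_of_pos (by positivity : (0 : ℝ) < 2 ^ e)]
    have := mul_le_mul_of_nonneg_left hst (by positivity : (0 : ℝ) ≤ 2 ^ e)
    refine this.trans (le_of_eq ?_)
    field_simp
  have g4 := abs_mul_le g3 hv
  linarith

/-- **The next context** determines the row and the context. -/
theorem cxr_next {S : Type} {v v' g : ℕ} {c k' c' : Fin 3 → ℕ} {M' : F.Ω → Fin 3 → Fin 3 → ℝ}
    (b : F.Ω → S) (hvv : v ≤ v') (hv' : v' ≤ J) (hc : ∀ j, c j ≤ c' j) :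
    CH F.p (fun ω => (row F c M' v' ω, (F.T1 v' ω, cxr F c M' (F.mlb g k' c' M') b v ω)))
      (cxr F c M' (F.mlb g k' c' M') b v') ≤ 3 * Real.log 7 := by
  have hp := F.isLaw
  have hp0 := hp.nonneg
  have h1 : CH F.p (fun ω => (row F c M' v' ω, (F.T1 v' ω, cxr F c M' (F.mlb g k' c' M') b v ω)))
      (cxr F c M' (F.mlb g k' c' M') b v') ≤
      CH F.p (row F c M' v) (cxr F c M' (F.mlb g k' c' M') b v') := by
    refine CH_mono_left hp0 fun ω ω' _ _ h => ?_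
    unfold cxr at h ⊢
    simp only [Prod.mk.injEq] at h ⊢
    obtain ⟨h1, ⟨h2, h3⟩, h4, h5⟩ := h
    exact ⟨h5, h4, ⟨h2, h3⟩, T1_of_le F hvv hv' h4, h1⟩
  refine h1.trans ?_
  have h2 := CH_bI hp (row F c M' v) (cxr F c M' (F.mlb g k' c' M') b v') 3 (by norm_num) ?_
  · refine h2.trans (le_of_eq ?_)
    rw [Fintype.card_fin]
    norm_num
  intro ω ω' _ _ h j
  unfold cxr at h
  simp only [Prod.mk.injEq] at h
  obtain ⟨⟨h2, h3⟩, h4, h5⟩ := h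
  obtain ⟨-, hM, -, -, -⟩ := Box.mlb_ext h2
  have hT := T1_of_le F hvv hv' h4
  have g1 := row_dn h5 hM h4 j
  rw [dn_scale hvv, abs_mul, abs_of_pos (by positivity : (0 : ℝ) < 2 ^ (v' - v))] at g1
  have g2 : |dn v c (M' ω) (F.xa ((F.T1 v' ω : ℝ) / 2 ^ v') ω)
      (F.xa ((F.T1 v' ω : ℝ) / 2 ^ v') ω') j| ≤ 1 := by
    refine le_trans ?_ g1
    exact le_mul_of_one_le_left (abs_nonneg _) (one_le_pow₀ (by norm_num))
  have g3 : |dn 0 c (M' ω) (F.d ω) (F.d ω') j| ≤ 1 := by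
    obtain ⟨q1, q2, q3, q4, q5⟩ := Box.mlb_ext h2
    refine (dn_of_floor (k := c' j) (D := 0) ?_ (by have := hc j; omega)).trans (by norm_num)
    have h5 := congrFun q4 j
    unfold Fam.mvl flk at h5
    rw [← q2] at h5
    exact h5
  have g4 := dn_move (t := (F.T1 v ω : ℝ) / 2 ^ v) g2 g3 (by
    rw [abs_sub_comm]
    exact tm_near F hvv hv' ω)
  refine (row_close hM hT j g4).trans (by norm_num)

/-- The line determines the rows of the long windows. -/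
theorem row_line {C₀ : ℝ} {w v g D : ℕ} {c k' c' : Fin 3 → ℕ}
    {M M' : F.Ω → Fin 3 → Fin 3 → ℝ} {A A' : Fin 3 → Fin 3 → ℝ} {ω ω' : F.Ω}
    (hC₀ : 1 ≤ C₀) (hA : Chg C₀ c (M ω) (M' ω) A A') (hwv : w ≤ v) (hv : v ≤ J) (hvD : v ≤ w + D)
    (hb : F.blb w c M ω = F.blb w c M ω') (hB : F.mlb g k' c' M' ω = F.mlb g k' c' M' ω')
    (hT : F.T1 v ω = F.T1 v ω') (hL : dg D (ypv F w c M) ω = dg D (ypv F w c M) ω') (j : Fin 3) :
    |((row F c M' v ω j - row F c M' v ω' j : ℤ) : ℝ)| ≤ 6 * C₀ + 1 := by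
  obtain ⟨h1, h2, -, -⟩ := blb_same hb
  obtain ⟨-, hM, -, -, -⟩ := Box.mlb_ext hB
  have k0 : ∀ j, |dn w c (M ω) (F.xa ((F.T1 w ω : ℝ) / 2 ^ w) ω)
      (F.xa ((F.T1 w ω : ℝ) / 2 ^ w) ω') j| ≤ 1 / 2 ^ D := by
    intro j
    rw [← (ypv_sub h2 h1 j).1]
    exact dg_same hL 0 j
  have k1 : ∀ j, |dn 0 c (M ω) (F.d ω) (F.d ω') j| ≤ 1 / 2 ^ D := by
    intro j
    rw [← (ypv_sub (w := w) h2 h1 j).2]
    exact dg_same hL 1 j
  have k2 : ∀ j, |dn w c (M ω) (F.xa ((F.T1 v ω : ℝ) / 2 ^ v) ω)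
      (F.xa ((F.T1 v ω : ℝ) / 2 ^ v) ω') j| ≤ 1 / 2 ^ D + 1 / 2 ^ D :=
    fun j => dn_move (k0 j) (k1 j) (tm_near F hwv hv ω)
  have k3 := dn_chg_le hA k2 j
  refine row_close hM hT j ?_
  rw [dn_scale hwv, abs_mul, abs_of_pos (by positivity : (0 : ℝ) < 2 ^ (v - w))]
  have k4 : (2 : ℝ) ^ (v - w) ≤ 2 ^ D := pow_le_pow_right₀ (by norm_num) (by omega)
  have k5 := mul_le_mul k4 k3 (abs_nonneg _) (by positivity)
  refine k5.trans (le_of_eq ?_)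
  field_simp
  ring

/-- The rows in a plank, if the normal coordinate of another plank is known: the crude bounds. -/
theorem row_crude {C₀ : ℝ} {v v' g : ℕ} {c k' c' : Fin 3 → ℕ}
    {M M' : F.Ω → Fin 3 → Fin 3 → ℝ} {A A' : Fin 3 → Fin 3 → ℝ} {ω ω' : F.Ω}
    (hA : Chg C₀ c (M ω) (M' ω) A A') (hvv : v ≤ v') (hv' : v' ≤ J) (hc : ∀ j, c j ≤ c' j)
    (hB : F.mlb g k' c' M' ω = F.mlb g k' c' M' ω') (hT : F.T1 v' ω = F.T1 v' ω')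
    (hr : row F c M' v ω = row F c M' v ω') :
    (∀ j, |dn v' c (M' ω) (F.xa ((F.T1 v' ω : ℝ) / 2 ^ v') ω)
      (F.xa ((F.T1 v' ω : ℝ) / 2 ^ v') ω') j| ≤ 2 * 2 ^ (v' - v)) ∧
    ∀ j, |dn v' c (M ω) (F.xa ((F.T1 v' ω : ℝ) / 2 ^ v') ω)
      (F.xa ((F.T1 v' ω : ℝ) / 2 ^ v') ω') j| ≤ 6 * C₀ * 2 ^ (v' - v) := by
  obtain ⟨q1, hM, q3, q4, q5⟩ := Box.mlb_ext hB
  have hTv := T1_of_le F hvv hv' hT
  have g3 : ∀ j, |dn 0 c (M' ω) (F.d ω) (F.d ω') j| ≤ 1 := by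
    intro j
    refine (dn_of_floor (k := c' j) (D := 0) ?_ (by have := hc j; omega)).trans (by norm_num)
    have h5 := congrFun q4 j
    unfold Fam.mvl flk at h5
    rw [← hM] at h5
    exact h5
  have g4 : ∀ j, |dn v c (M' ω) (F.xa ((F.T1 v' ω : ℝ) / 2 ^ v') ω)
      (F.xa ((F.T1 v' ω : ℝ) / 2 ^ v') ω') j| ≤ 1 + 1 := fun j =>
    dn_move (row_dn hr hM hTv j) (g3 j) (tm_near F hvv hv' ω)
  have g5 : ∀ j, |dn v' c (M' ω) (F.xa ((F.T1 v' ω : ℝ) / 2 ^ v') ω)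
      (F.xa ((F.T1 v' ω : ℝ) / 2 ^ v') ω') j| ≤ 2 * 2 ^ (v' - v) := by
    intro j
    rw [dn_scale hvv, abs_mul, abs_of_pos (by positivity : (0 : ℝ) < 2 ^ (v' - v)), mul_comm]
    refine mul_le_mul_of_nonneg_right ((g4 j).trans (by norm_num)) (by positivity)
  refine ⟨g5, fun j => (dn_inv_le hA g5 j).trans (le_of_eq ?_)⟩
  ring

/-- The same: the bound for transversal planks. -/
theorem row_fine {C₀ : ℝ} {w v' g D x : ℕ} {c k' c' : Fin 3 → ℕ} {i2 κ : Fin 3}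
    {M M' : F.Ω → Fin 3 → Fin 3 → ℝ} {A A' B B' : Fin 3 → Fin 3 → ℝ} {ω ω' τ τ' : F.Ω}
    (hC₀ : 1 ≤ C₀) (hA : Chg C₀ c (M ω) (M' ω) A A') (hA2 : Chg C₀ c (M τ) (M' τ) B B')
    (hwg : w ≤ g) (hgv : g ≤ v') (hv' : v' ≤ J) (hvD : v' ≤ w + D)
    (hMτ : M ω = M τ) (hb : F.blb w c M ω = F.blb w c M ω')
    (hB : F.mlb g k' c' M' ω = F.mlb g k' c' M' ω')
    (hc2 : c i2 + D ≤ c' i2) (hk2 : w + c i2 + D ≤ k' i2)
    (hM2 : M' τ = M' τ')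
    (hX0 : ⌊(2 : ℝ) ^ (w + c i2 + D) * mco (M' τ) (F.x1 w ω) i2⌋ =
      ⌊(2 : ℝ) ^ (w + c i2 + D) * mco (M' τ') (F.x1 w ω') i2⌋)
    (hX1 : ⌊(2 : ℝ) ^ (0 + c i2 + D) * mco (M' τ) (F.d ω) i2⌋ =
      ⌊(2 : ℝ) ^ (0 + c i2 + D) * mco (M' τ') (F.d ω') i2⌋)
    (hκ : ∀ j, |crs (A i2) (B i2) j| ≤ |crs (A i2) (B i2) κ|)
    (hx : 1 / 2 ^ x < |crs (A i2) (B i2) κ|)
    (hz : |dn v' c (M ω) (F.xa ((F.T1 v' ω : ℝ) / 2 ^ v') ω)
      (F.xa ((F.T1 v' ω : ℝ) / 2 ^ v') ω') κ| ≤ 1) (j : Fin 3) :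
    |dn v' c (M' ω) (F.xa ((F.T1 v' ω : ℝ) / 2 ^ v') ω)
      (F.xa ((F.T1 v' ω : ℝ) / 2 ^ v') ω') j| ≤ 3 * C₀ * (1 + 4 * C₀ * 2 ^ x) := by
  obtain ⟨h1, h2, -, -⟩ := blb_same hb
  obtain ⟨t, ht⟩ : ∃ t, t = (F.T1 v' ω : ℝ) / 2 ^ v' := ⟨_, rfl⟩
  rw [← ht] at hz ⊢
  obtain ⟨δ, hδ⟩ : ∃ δ, δ = dn w c (M ω) (F.xa t ω) (F.xa t ω') := ⟨_, rfl⟩
  have hwv : w ≤ v' := hwg.trans hgv
  have hD0 : (0 : ℝ) < 2 ^ D := by positivity
  -- the first normal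
  have n1 : |∑ j, A i2 j * δ j| ≤ 2 / 2 ^ D := by
    rw [hδ, dn_chg hA]
    refine (mlb_dn (w := w) hB (t := t) (i := i2) ?_ hk2 hc2).1
    rw [ht]
    refine (tm_near F hgv hv' ω).trans ?_
    exact one_div_le_one_div_of_le (by positivity) (pow_le_pow_right₀ (by norm_num) hwg)
  -- the second normal
  have n2 : |∑ j, B i2 j * δ j| ≤ 2 / 2 ^ D := by
    rw [hδ, hMτ, dn_chg hA2]
    have e2 : F.xa ((F.T1 w ω : ℝ) / 2 ^ w) ω' = F.x1 w ω' := by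
      rw [h1]
      rfl
    have k1 : |dn w c (M' τ) (F.xa ((F.T1 w ω : ℝ) / 2 ^ w) ω)
        (F.xa ((F.T1 w ω : ℝ) / 2 ^ w) ω') i2| ≤ 1 / 2 ^ D := by
      rw [e2]
      refine dn_of_floor (k := w + c i2 + D) ?_ le_rfl
      rw [← hM2] at hX0
      exact hX0
    have k2 : |dn 0 c (M' τ) (F.d ω) (F.d ω') i2| ≤ 1 / 2 ^ D := by
      refine dn_of_floor (k := 0 + c i2 + D) ?_ le_rfl
      rw [← hM2] at hX1
      exact hX1
    have k3 := dn_move (t := t) k1 k2 (by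
      rw [ht]
      exact tm_near F hwv hv' ω)
    refine k3.trans (le_of_eq ?_)
    ring
  have key := crs_le (δ := δ) (hA.bd i2) (hA2.bd i2) n1 n2
  -- the long coordinate
  obtain ⟨G, hG⟩ : ∃ G, G = crs (A i2) (B i2) := ⟨_, rfl⟩
  rw [← hG] at key hκ hx
  have hx0 : (0 : ℝ) < 1 / 2 ^ x := by positivity
  have hGκ : 0 < |G κ| := hx0.trans hx
  have d1 : ∀ i, |δ i| ≤ |δ κ| + 4 * C₀ * 2 ^ x / 2 ^ D := by
    intro i
    have k1 := key i κ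
    have k2 : |δ i| * |G κ| ≤ |δ κ| * |G κ| + 4 * C₀ / 2 ^ D := by
      have e1 : δ i * G κ = (δ i * G κ - δ κ * G i) + δ κ * G i := by ring
      rw [← abs_mul, e1]
      refine (abs_add_le _ _).trans ?_
      rw [abs_mul (δ κ)]
      have k3 := mul_le_mul_of_nonneg_left (hκ i) (abs_nonneg (δ κ))
      have e3 : 2 * C₀ * (2 / (2 : ℝ) ^ D) = 4 * C₀ / 2 ^ D := by ring
      rw [e3] at k1
      linarith
    have k4 : 4 * C₀ / 2 ^ D ≤ 4 * C₀ * 2 ^ x / 2 ^ D * |G κ| := by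
      have e4 : 4 * C₀ / 2 ^ D = 4 * C₀ * 2 ^ x / 2 ^ D * (1 / 2 ^ x) := by
        field_simp
      rw [e4]
      exact mul_le_mul_of_nonneg_left hx.le (by positivity)
    have k5 : |δ i| * |G κ| ≤ (|δ κ| + 4 * C₀ * 2 ^ x / 2 ^ D) * |G κ| := by
      rw [add_mul]
      linarith
    exact le_of_mul_le_mul_right k5 hGκ
  have d2 : ∀ i, |dn v' c (M ω) (F.xa t ω) (F.xa t ω') i| ≤ 1 + 4 * C₀ * 2 ^ x := by
    intro i
    rw [dn_scale hwv] at hz ⊢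
    rw [← hδ] at hz ⊢
    have hP : (0 : ℝ) < 2 ^ (v' - w) := by positivity
    rw [abs_mul, abs_of_pos hP] at hz ⊢
    have k1 := mul_le_mul_of_nonneg_left (d1 i) hP.le
    rw [mul_add] at k1
    have k2 : (2 : ℝ) ^ (v' - w) ≤ 2 ^ D := pow_le_pow_right₀ (by norm_num) (by omega)
    have k3 : (2 : ℝ) ^ (v' - w) * (4 * C₀ * 2 ^ x / 2 ^ D) ≤ 4 * C₀ * 2 ^ x := by
      have k4 := mul_le_mul_of_nonneg_right k2
        (show (0 : ℝ) ≤ 4 * C₀ * 2 ^ x / 2 ^ D by positivity)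
      refine k4.trans (le_of_eq ?_)
      field_simp
    linarith
  exact dn_chg_le hA d2 j

end Pool.XF
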