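import Pool.Agent.H81.XF.Nat

/-!
# LEMMA X for flags of length 3, second form: the statement

As `XFStmt`, but nothing is asked for the long directions of three times of one line (such a
hypothesis does not follow from the maximality of the closed labels: helper91, K_HID). Instead:

* `dbe`: the long directions of two times of one line are different;
* `sat`: the position of the line at a UNIFORM time of the window (independent of the line and
  of the plank) is full in the box `b`, to `K * s` digits.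
-/

set_option autoImplicit false

namespace Pool.XF

open Finset Real
open Pool.Agent.H49.Ent Pool.Agent.H32.Dense Pool.STK Pool.KA Pool.KSAT Pool.K2S Pool.PC

variable {J : ℕ}

/-- The law `p` with an independent uniform number `0 ≤ i < 2 ^ N`. -/
noncomputable def uni {Ω : Type} (N : ℕ) (p : Ω → ℝ) (u : Ω × Fin (2 ^ N)) : ℝ := p u.1 / 2 ^ N

/-- The position at the time `i / 2 ^ N` of the window, to `N` digits: `Y ω 0` is the position at
the beginning of the window, `Y ω 1` the velocity, in the natural units. -/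
noncomputable def upos {Ω : Type} (N : ℕ) (Y : Ω → Fin 2 → Fin 3 → ℝ) (u : Ω × Fin (2 ^ N))
    (j : Fin 3) : ℤ := ⌊(2 : ℝ) ^ N * (Y u.1 0 j + ((u.2 : ℕ) : ℝ) / 2 ^ N * Y u.1 1 j)⌋

/-- **LEMMA X for flags of length 3**, second form. `K` blocks of `s` digits for the part in which
only the coordinate `i0` has rows, `n1` rows there, `n` rows altogether. -/
def XF2Stmt : Prop :=
  ∀ C₀ : ℝ, 1 ≤ C₀ → ∃ (C : ℝ) (L : ℕ), 0 ≤ C ∧
    ∀ (J : ℕ) (F : Fam 3 J) (w y X n n1 K s x : ℕ) (i0 i1 i2 : Fin 3) (c k' c' : Fin 3 → ℕ)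
      (M M' A A' : F.Ω → Fin 3 → Fin 3 → ℝ) (p₁ e E₁ : ℝ),
      i0 ≠ i1 → i0 ≠ i2 → i1 ≠ i2 → n1 ≤ n →
      w + y + n * X ≤ J → y + n1 * X ≤ K * s → x + L ≤ s →
      -- the precisions of the plank
      (∀ j, c j ≤ c' j) → (∀ j, w + c j ≤ k' j) →
      c i1 + K * s ≤ c' i1 → w + c i1 + K * s ≤ k' i1 →
      c i2 + K * s ≤ c' i2 → w + c i2 + K * s ≤ k' i2 →
      c i2 + (y + n * X) ≤ c' i2 → w + c i2 + (y + n * X) ≤ k' i2 →
      -- the frames
      (∀ ω, 0 < F.p ω → Chg C₀ c (M ω) (M' ω) (A ω) (A' ω)) →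
      Det F.p (slam F w) M → CH F.p M M' ≤ e →
      -- the long directions and the normals of two times
      (0 < K → Pe (dbl F.p (slam F w)) (fun u => ∀ j, |crs (fun j => A' u.1 j i0)
        (fun j => A' u.2 j i0) j| ≤ 1 / 2 ^ x) ≤ p₁) →
      (n1 < n → Pe (dbl F.p (slam F w)) (fun u => ∀ j,
        |crs (A u.1 i2) (A u.2 i2) j| ≤ 1 / 2 ^ x) ≤ p₁) → 0 ≤ p₁ →
      -- the position at a uniform time
      (0 < K → 3 * ((K * s : ℕ) * Real.log 2) ≤ CH (uni (K * s) F.p)
        (upos (K * s) (ypv F w c M)) (fun u => (u.2, F.blb w c M u.1)) + E₁) → 0 ≤ E₁ →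
      nfo F w (F.blb w c M) +
        ∑ i ∈ Finset.range n1, Row F w y X c k' c' M M' i +
        ∑ i ∈ Finset.range n, Row F w y X c k' c' M M' i ≤
      nfo F (w + y) (F.mlb (w + y) k' c' M') + ((n : ℝ) - n1) * X * Real.log 2 + e + E₁ +
        C * (y + s + (x + 1) * (K + n + 1) + p₁ * (K * s + n * X + 1))

end Pool.XF
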